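import Pool.Agent.H99.HN.Defs

/-!
# The Coulomb Hartree equation, non-radial solutions: targets of the modules

Every target is a `Prop`.  A module proves its target and may take other targets as hypotheses.
-/

namespace Pool.Agent.H99.HN

open Pool.Agent.H99.HM
open MeasureTheory Set Filter Topology Real
open scoped ContDiff

/-! ## Basic facts on `H¹` functions -/

/-- functions that are `C¹` off the origin, with bounded derivatives and compact support -/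
def T_h1c : Prop := ∀ (F : E3 → ℝ) (C : ℝ), ContDiffOn ℝ 1 F {x | x ≠ 0} → HasCompactSupport F →
  (∀ x, x ≠ 0 → |F x| ≤ C ∧ ∀ i, |pd i F x| ≤ C) →
  IsH1 (fun x => (F x : ℂ)) (fun i x => (pd i F x : ℂ))

/-- integration by parts in `H¹` -/
def T_ibh : Prop := ∀ u G v H, IsH1 u G → IsH1 v H → ∀ i,
  ∫ x, u x * H i x = - ∫ x, G i x * v x

/-- product of an `H¹` function with a radial `C¹` function -/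
def T_mul : Prop := ∀ u G, IsH1 u G → ∀ (h h1 : ℝ → ℝ) (C : ℝ), C1 h h1 →
  (∀ r, 0 < r → |h r| ≤ C ∧ |h1 r| ≤ C) →
  IsH1 (fun x => (h ‖x‖ : ℂ) * u x)
    (fun i x => (h ‖x‖ : ℂ) * G i x + ((h1 ‖x‖ * (x i / ‖x‖) : ℝ) : ℂ) * u x)

/-- Hardy's inequality with an arbitrary centre -/
def T_hardy : Prop := ∀ u G, IsH1 u G → ∀ a : E3,
  Integrable (fun x => ‖u x‖ ^ 2 / ‖x - a‖ ^ 2) ∧
  ∫ x, ‖u x‖ ^ 2 / ‖x - a‖ ^ 2 ≤ 4 * ∫ x, g2 G x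

/-- bounds for the Hartree potential -/
def T_hb : Prop := ∀ u G, IsH1 u G →
  (∀ x : E3, Integrable (fun y => ‖u y‖ ^ 2 / ‖x - y‖) ∧ 0 ≤ hartree u x ∧
    hartree u x ≤ (∫ y, g2 G y) + mass u) ∧
  (∀ x x' : E3, |hartree u x - hartree u x'| ≤ 4 * (∫ y, g2 G y) * ‖x - x'‖) ∧
  (∀ ε, 0 < ε → ∃ R, 0 < R ∧ ∀ x : E3, R ≤ ‖x‖ → hartree u x ≤ ε) ∧
  (∀ m, m < mass u → ∃ R, 0 < R ∧ ∀ x : E3, R ≤ ‖x‖ → m / ‖x‖ ≤ hartree u x)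

/-- weak form of the equation with `H¹` test functions -/
def T_wf : Prop := ∀ u lam G, IsSol u lam → IsH1 u G → ∀ v H, IsH1 v H →
  Integrable (fun x => ∑ i, H i x * G i x) ∧
  Integrable (fun x => v x * u x / (‖x‖ : ℂ)) ∧
  Integrable (fun x => (hartree u x : ℂ) * (v x * u x)) ∧
  Integrable (fun x => v x * u x) ∧
  (∫ x, ∑ i, H i x * G i x) - (∫ x, v x * u x / (‖x‖ : ℂ))
    + (∫ x, (hartree u x : ℂ) * (v x * u x)) = (lam : ℂ) * ∫ x, v x * u x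

/-- energy identity with a bounded radial weight -/
def T_eh : Prop := ∀ u lam G, IsSol u lam → IsH1 u G → ∀ (h h1 : ℝ → ℝ) (C : ℝ), C1 h h1 →
  (∀ r, 0 < r → |h r| ≤ C ∧ |h1 r| ≤ C) →
  (∫ x, h ‖x‖ * g2 G x) + (∫ x, h1 ‖x‖ * ur u G x) - (∫ x, h ‖x‖ / ‖x‖ * ‖u x‖ ^ 2)
    + (∫ x, h ‖x‖ * ‖u x‖ ^ 2 * hartree u x) = lam * ∫ x, h ‖x‖ * ‖u x‖ ^ 2

/-- finite moments, `lam ≤ 0` and mass larger than one -/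
def T_momn : Prop := ∀ u lam G, IsSol u lam → IsH1 u G → lam ≤ 0 → 1 < mass u → Mom u G

/-- finite moments, `lam > 0` -/
def T_momp : Prop := ∀ u lam G, IsSol u lam → IsH1 u G → 0 < lam → Mom u G

/-- integrability of polynomially bounded weights -/
def T_pint : Prop := ∀ u G, IsH1 u G → Mom u G →
  (∀ f : ℝ → ℝ, ContinuousOn f (Ioi 0) → Gr1 f →
    Integrable (fun x => f ‖x‖ * ‖u x‖ ^ 2) ∧ Integrable (fun x => f ‖x‖ * ur u G x)) ∧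
  (∀ f : ℝ → ℝ, ContinuousOn f (Ioi 0) → Gr f →
    Integrable (fun x => f ‖x‖ * g2 G x) ∧ Integrable (fun x => f ‖x‖ * ‖dr G x‖ ^ 2))

/-- divergence theorem for the field `B(r) φ² ζ x/|x|`, test functions -/
def T_dtest : Prop := ∀ φ, IsTest φ → ∀ (B B1 : ℝ → ℝ) (ζ : E3 → ℝ) (C : ℝ), C1 B B1 →
  (∀ r, 0 < r → |B r| ≤ C ∧ |B1 r| ≤ C * (1 / r + 1)) → ContDiff ℝ 1 ζ →
  ∫ x, ((B1 ‖x‖ + 2 * B ‖x‖ / ‖x‖) * φ x ^ 2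
      + 2 * B ‖x‖ * (φ x * ∑ i, x i / ‖x‖ * pd i φ x)) * ζ x =
    - ∫ x, B ‖x‖ * φ x ^ 2 * ∑ i, x i / ‖x‖ * pd i ζ x

/-- divergence theorem for the field `B(r) |u|² ζ x/|x|`, bounded `B` -/
def T_divz : Prop := ∀ u G, IsH1 u G → ∀ (B B1 : ℝ → ℝ) (ζ : E3 → ℝ) (C : ℝ), C1 B B1 →
  (∀ r, 0 < r → |B r| ≤ C ∧ |B1 r| ≤ C * (1 / r + 1)) → ContDiff ℝ 1 ζ →
  (∀ x, |ζ x| ≤ C ∧ ∀ i, |pd i ζ x| ≤ C) →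
  Integrable (fun x => (B1 ‖x‖ + 2 * B ‖x‖ / ‖x‖) * ‖u x‖ ^ 2) ∧
  Integrable (fun x => B ‖x‖ * ur u G x) ∧
  ∫ x, ((B1 ‖x‖ + 2 * B ‖x‖ / ‖x‖) * ‖u x‖ ^ 2 + 2 * B ‖x‖ * ur u G x) * ζ x =
    - ∫ x, B ‖x‖ * ‖u x‖ ^ 2 * ∑ i, x i / ‖x‖ * pd i ζ x

/-- divergence theorem for the field `B(r) |u|² x/|x|` -/
def T_div : Prop := ∀ u G, IsH1 u G → Mom u G → ∀ B B1, C1 B B1 → Gr B → Gr1 B1 →
  (∫ x, (B1 ‖x‖ + 2 * B ‖x‖ / ‖x‖) * ‖u x‖ ^ 2) + 2 * ∫ x, B ‖x‖ * ur u G x = 0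

/-- energy identity with a polynomially bounded radial weight -/
def T_ehp : Prop := ∀ u lam G, IsSol u lam → IsH1 u G → Mom u G → ∀ h h1, C1 h h1 → Gr h →
  Gr h1 →
  (∫ x, h ‖x‖ * g2 G x) + (∫ x, h1 ‖x‖ * ur u G x) - (∫ x, h ‖x‖ / ‖x‖ * ‖u x‖ ^ 2)
    + (∫ x, h ‖x‖ * ‖u x‖ ^ 2 * hartree u x) = lam * ∫ x, h ‖x‖ * ‖u x‖ ^ 2

/-- ground state representation with flux `B` -/
def T_kin : Prop := ∀ u G, IsH1 u G → Mom u G → ∀ h h1 B B1, (∀ r, 0 < r → 0 < h r) →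
  C1 h h1 → Gr h → Gr h1 → Flux h h1 B B1 →
  ∫ x, (B1 ‖x‖ + 2 * B ‖x‖ / ‖x‖ - (B ‖x‖ + h1 ‖x‖ / 2) ^ 2 / h ‖x‖) * ‖u x‖ ^ 2 ≤
    (∫ x, h ‖x‖ * ‖dr G x‖ ^ 2) + ∫ x, h1 ‖x‖ * ur u G x

/-! ## Positivity of the multipoles -/

/-- The Newton potential of a density. -/
noncomputable def Up (ρ : E3 → ℝ) (x : E3) : ℝ := ∫ y, ρ y / ‖x - y‖

/-- The radial part of the Newton potential of a density. -/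
noncomputable def Ubp (ρ : E3 → ℝ) (r : ℝ) : ℝ := ∫ y, ρ y / max r ‖y‖

/-- fundamental solution -/
def T_fund : Prop := ∀ ψ, IsTest ψ → ∀ a : E3,
  Integrable (fun x => lap ψ x / ‖x - a‖) ∧ ∫ x, lap ψ x / ‖x - a‖ = -4 * π * ψ a

/-- regularity and decay of the potential of a test density -/
def T_pot : Prop := ∀ ρ, IsTest ρ → ContDiff ℝ ∞ (Up ρ) ∧
  (∀ x, lap (Up ρ) x = -4 * π * ρ x) ∧
  ∃ C, ∀ x, |Up ρ x| ≤ C / (1 + ‖x‖) ∧ ∀ i, |pd i (Up ρ) x| ≤ C / (1 + ‖x‖) ^ 2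

/-- regularity and decay of the radial part -/
def T_ubar : Prop := ∀ ρ, IsTest ρ → ∃ (v : ℝ → ℝ) (C : ℝ), C1 (Ubp ρ) v ∧
  ∀ r, 0 < r → |Ubp ρ r| ≤ C / (1 + r) ∧ |v r| ≤ C / (1 + r) ^ 2

/-- Newton's theorem, integrated form -/
def T_newt2 : Prop := ∀ ρ, IsTest ρ → ∀ f : ℝ → ℝ, Continuous f → HasCompactSupport f →
  tsupport f ⊆ Ioi 0 → ∫ x : E3, f ‖x‖ * Up ρ x = ∫ x : E3, f ‖x‖ * Ubp ρ ‖x‖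

/-- spherical coordinates -/
noncomputable def sph (r z φ : ℝ) : E3 :=
  WithLp.toLp 2 ![r * √(1 - z ^ 2) * cos φ, r * √(1 - z ^ 2) * sin φ, r * z]

def T_sphc : Prop := ∀ F : E3 → ℝ, Continuous F → HasCompactSupport F →
  ∫ x, F x = ∫ r in Ioi (0 : ℝ), ∫ z in (-1 : ℝ)..1, ∫ φ in (-π)..π, r ^ 2 * F (sph r z φ)

/-- gap for zonal functions -/
def T_leg1 : Prop := ∀ (f f1 : ℝ → ℝ) (C : ℝ), ContinuousOn f (Icc (-1) 1) →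
  (∀ z ∈ Ioo (-1 : ℝ) 1, HasDerivAt f (f1 z) z) → ContinuousOn f1 (Ioo (-1) 1) →
  (∀ z ∈ Ioo (-1 : ℝ) 1, (1 - z ^ 2) * f1 z ^ 2 ≤ C) → ∫ z in (-1 : ℝ)..1, f z = 0 →
  2 * ∫ z in (-1 : ℝ)..1, f z ^ 2 ≤ ∫ z in (-1 : ℝ)..1, (1 - z ^ 2) * f1 z ^ 2

/-- gap for functions of angular momentum at least one -/
def T_leg2 : Prop := ∀ (f f1 : ℝ → ℝ) (C : ℝ),
  (∀ z ∈ Ioo (-1 : ℝ) 1, HasDerivAt f (f1 z) z) → ContinuousOn f1 (Ioo (-1) 1) →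
  (∀ z ∈ Ioo (-1 : ℝ) 1, (1 - z ^ 2) * f1 z ^ 2 ≤ C) →
  (∀ z ∈ Ioo (-1 : ℝ) 1, f z ^ 2 ≤ C * (1 - z ^ 2)) →
  2 * ∫ z in (-1 : ℝ)..1, f z ^ 2 ≤
    (∫ z in (-1 : ℝ)..1, (1 - z ^ 2) * f1 z ^ 2) + ∫ z in (-1 : ℝ)..1, f z ^ 2 / (1 - z ^ 2)

/-- Wirtinger's inequality -/
def T_wirt : Prop := ∀ f f1 : ℝ → ℝ, (∀ t, HasDerivAt f (f1 t) t) → Continuous f1 →
  f (-π) = f π → ∫ t in (-π)..π, f t = 0 →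
  ∫ t in (-π)..π, f t ^ 2 ≤ ∫ t in (-π)..π, f1 t ^ 2

/-- Poincaré inequality on spheres, integrated form -/
def T_poin : Prop := ∀ F : E3 → ℝ, ContDiffOn ℝ 1 F {x | x ≠ 0} →
  (∀ f : ℝ → ℝ, Continuous f → HasCompactSupport f → tsupport f ⊆ Ioi 0 →
    ∫ x, f ‖x‖ * F x = 0) →
  ∀ k : ℝ → ℝ, Continuous k → HasCompactSupport k → tsupport k ⊆ Ioi 0 → (∀ r, 0 ≤ k r) →
  2 * ∫ x, k ‖x‖ * F x ^ 2 ≤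
    ∫ x, k ‖x‖ * ‖x‖ ^ 2 * ((∑ i, pd i F x ^ 2) - (∑ i, x i / ‖x‖ * pd i F x) ^ 2)

/-- positivity of the multipoles for test densities and bounded multipliers -/
def T_mpt : Prop := ∀ ρ, IsTest ρ → ∀ h h1, Mult h h1 → (∃ C, ∀ r, 0 ≤ r → h r ≤ C) →
  0 ≤ ∫ x, h ‖x‖ * ρ x * (Up ρ x - Ubp ρ ‖x‖)

/-- growth and truncation of multipliers -/
def T_trunc : Prop := ∀ h h1, Mult h h1 → ∃ C, 0 < C ∧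
  (∀ r, 0 ≤ r → h r ≤ C * (1 + r ^ 3) ∧ |h1 r| ≤ C * (1 + r ^ 2)) ∧
  ∀ R, 0 < R →
    Mult (fun r => h (mR R r)) (fun r => h1 (mR R r) * (R / (R + r)) ^ 2) ∧
    (∃ C', ∀ r, 0 ≤ r → h (mR R r) ≤ C') ∧
    (∀ r, 0 ≤ r → h (mR R r) ≤ C * (1 + r ^ 3))

/-- positivity of the multipoles -/
def T_mp : Prop := ∀ u G, IsH1 u G → Mom u G → ∀ h h1, Mult h h1 →
  Integrable (fun x => h ‖x‖ * ‖u x‖ ^ 2 * Ub u ‖x‖) ∧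
  Integrable (fun x => h ‖x‖ * ‖u x‖ ^ 2 * hartree u x) ∧
  ∫ x, h ‖x‖ * ‖u x‖ ^ 2 * Ub u ‖x‖ ≤ ∫ x, h ‖x‖ * ‖u x‖ ^ 2 * hartree u x

/-! ## From solutions to radial measures -/

/-- the radial mass measure -/
def T_nu : Prop := ∀ u : E3 → ℂ, MemLp u 2 volume →
  IsFiniteMeasure (nu u) ∧ (nu u univ).toReal = mass u ∧ nu u (Iic 0) = 0 ∧
  ∀ f : ℝ → ℝ, Measurable f →
    (Integrable f (nu u) ↔ Integrable (fun x => f ‖x‖ * ‖u x‖ ^ 2)) ∧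
    ∫ r, f r ∂(nu u) = ∫ x, f ‖x‖ * ‖u x‖ ^ 2

/-- solutions give feasible measures -/
def T_feas : Prop := ∀ u lam tc, IsSol u lam → lam ≤ 0 → 1 < tc → tc < mass u →
  Feas (ENNReal.ofReal (tc / mass u) • nu u) tc (mass u / tc)

/-! ## Positive `lam` -/

/-- density of test functions in the graph norm of the Laplacian -/
def T_dens2 : Prop := ∀ (u : E3 → ℂ) (G : Fin 3 → E3 → ℂ) (g : E3 → ℂ), IsH1 u G →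
  MemLp g 2 volume →
  (∀ φ, IsTest φ → ∑ i, ∫ x, (pd i φ x : ℂ) * G i x = ∫ x, (φ x : ℂ) * g x) →
  ∃ φ ψ : ℕ → E3 → ℝ, (∀ n, IsTest (φ n) ∧ IsTest (ψ n)) ∧
  Tendsto (fun n => ∫ x, ‖u x - ((φ n x : ℂ) + (ψ n x : ℂ) * Complex.I)‖ ^ 2) atTop (𝓝 0) ∧
  (∀ i, Tendsto (fun n => ∫ x, ‖G i x - ((pd i (φ n) x : ℂ)
    + (pd i (ψ n) x : ℂ) * Complex.I)‖ ^ 2) atTop (𝓝 0)) ∧
  Tendsto (fun n => ∫ x, ‖g x + ((lap (φ n) x : ℂ) + (lap (ψ n) x : ℂ) * Complex.I)‖ ^ 2)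
    atTop (𝓝 0)

/-- Rellich's identity for test functions -/
def T_relt : Prop := ∀ φ, IsTest φ → ∀ (B B1 : ℝ → ℝ) (C : ℝ), C1 B B1 →
  (∀ r, 0 < r → |B r| ≤ C ∧ |B r| ≤ C * r ∧ |B1 r| ≤ C) →
  ∫ x, B ‖x‖ * (-lap φ x * ∑ i, x i / ‖x‖ * pd i φ x) =
    (∫ x, (B1 ‖x‖ / 2 - B ‖x‖ / ‖x‖) * (∑ i, x i / ‖x‖ * pd i φ x) ^ 2)
      - ∫ x, B1 ‖x‖ / 2 * ((∑ i, pd i φ x ^ 2) - (∑ i, x i / ‖x‖ * pd i φ x) ^ 2)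

/-- Rellich's identity for a bounded radial field -/
def T_rel : Prop := ∀ (u : E3 → ℂ) (G : Fin 3 → E3 → ℂ) (g : E3 → ℂ), IsH1 u G →
  MemLp g 2 volume →
  (∀ φ, IsTest φ → ∑ i, ∫ x, (pd i φ x : ℂ) * G i x = ∫ x, (φ x : ℂ) * g x) →
  ∀ (B B1 : ℝ → ℝ) (C : ℝ), C1 B B1 →
  (∀ r, 0 < r → |B r| ≤ C ∧ |B r| ≤ C * r ∧ |B1 r| ≤ C) →
  ∫ x, B ‖x‖ * (starRingEnd ℂ (dr G x) * g x).re =
    (∫ x, (B1 ‖x‖ / 2 - B ‖x‖ / ‖x‖) * ‖dr G x‖ ^ 2)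
      - ∫ x, B1 ‖x‖ / 2 * (g2 G x - ‖dr G x‖ ^ 2)

/-- Rellich's identity for solutions, bounded radial field -/
def T_rsb : Prop := ∀ u lam G, IsSol u lam → IsH1 u G → ∀ (B B1 : ℝ → ℝ) (C : ℝ), C1 B B1 →
  (∀ r, 0 < r → |B r| ≤ C ∧ |B r| ≤ C * r ∧ |B1 r| ≤ C) →
  ∫ x, B ‖x‖ * ((lam + 1 / ‖x‖ - hartree u x) * ur u G x) =
    (∫ x, (B1 ‖x‖ / 2 - B ‖x‖ / ‖x‖) * ‖dr G x‖ ^ 2)
      - ∫ x, B1 ‖x‖ / 2 * (g2 G x - ‖dr G x‖ ^ 2)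

/-- Rellich's identity for solutions, polynomially bounded radial field -/
def T_rsp : Prop := ∀ u lam G, IsSol u lam → IsH1 u G → Mom u G → ∀ (B B1 : ℝ → ℝ), C1 B B1 →
  Gr (fun r => B r / r) → Gr B1 →
  ∫ x, B ‖x‖ * ((lam + 1 / ‖x‖ - hartree u x) * ur u G x) =
    (∫ x, (B1 ‖x‖ / 2 - B ‖x‖ / ‖x‖) * ‖dr G x‖ ^ 2)
      - ∫ x, B1 ‖x‖ / 2 * (g2 G x - ‖dr G x‖ ^ 2)

/-- bounds for `Zf` -/
def T_zf : Prop := ∀ u G, IsH1 u G →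
  (∀ x : E3, Integrable (fun y => ‖u y‖ ^ 2 / ‖x - y‖ ^ 2) ∧
    |Zf u x| ≤ 4 * (∫ y, g2 G y) * ‖x‖) ∧ AEStronglyMeasurable (Zf u) volume ∧
  (Mom u G → ∀ ε, 0 < ε → ∃ R, 0 < R ∧ ∀ x : E3, R ≤ ‖x‖ → |Zf u x| ≤ ε)

/-- integration by parts against the Hartree potential, bounded field -/
def T_ibb : Prop := ∀ u G, IsH1 u G → ∀ (B B1 : ℝ → ℝ) (C : ℝ), C1 B B1 →
  (∀ r, 0 < r → |B r| ≤ C ∧ |B r| ≤ C * r ∧ |B1 r| ≤ C) →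
  (∫ x, (B1 ‖x‖ + 2 * B ‖x‖ / ‖x‖) * ‖u x‖ ^ 2 * hartree u x)
    + 2 * ∫ x, B ‖x‖ * ur u G x * hartree u x = ∫ x, B ‖x‖ / ‖x‖ * ‖u x‖ ^ 2 * Zf u x

/-- integration by parts against the Hartree potential, polynomially bounded field -/
def T_ibp : Prop := ∀ u G, IsH1 u G → Mom u G → ∀ (B B1 : ℝ → ℝ), C1 B B1 →
  Gr (fun r => B r / r) → Gr B1 →
  (∫ x, (B1 ‖x‖ + 2 * B ‖x‖ / ‖x‖) * ‖u x‖ ^ 2 * hartree u x)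
    + 2 * ∫ x, B ‖x‖ * ur u G x * hartree u x = ∫ x, B ‖x‖ / ‖x‖ * ‖u x‖ ^ 2 * Zf u x

/-- sign of the repulsion -/
def T_sym : Prop := ∀ u G, IsH1 u G → ∀ (B : ℝ → ℝ) (C : ℝ), ContinuousOn B (Ioi 0) →
  MonotoneOn B (Ioi 0) → (∀ r, 0 < r → 0 ≤ B r ∧ B r ≤ C ∧ B r ≤ C * r) →
  0 ≤ ∫ x, B ‖x‖ / ‖x‖ * ‖u x‖ ^ 2 * Zf u x

/-- the combined virial identity, bounded field -/
def T_pb : Prop := ∀ u lam G, IsSol u lam → IsH1 u G → ∀ (B B1 h1 : ℝ → ℝ) (C : ℝ), C1 B B1 →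
  C1 (fun r => B1 r / 2 + B r / r) h1 →
  (∀ r, 0 < r → |B r| ≤ C ∧ |B r| ≤ C * r ∧ |B1 r| ≤ C ∧ |h1 r| ≤ C) →
  ∫ x, (B1 ‖x‖ * ‖dr G x‖ ^ 2 + B ‖x‖ / ‖x‖ * (g2 G x - ‖dr G x‖ ^ 2)) =
    1 / 2 * (∫ x, B ‖x‖ / ‖x‖ ^ 2 * ‖u x‖ ^ 2) - (∫ x, h1 ‖x‖ * ur u G x)
      - 1 / 2 * ∫ x, B ‖x‖ / ‖x‖ * ‖u x‖ ^ 2 * Zf u x

/-- the identity with weight `r^(2n)` -/
def T_kn : Prop := ∀ u lam G, IsSol u lam → IsH1 u G → Mom u G → ∀ n : ℕ, 1 ≤ n →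
  lam * (∫ x, ‖x‖ ^ (2 * n) * ‖u x‖ ^ 2) + 2 * n * ((∫ x, ‖x‖ ^ (2 * n) * ‖dr G x‖ ^ 2)
      - (n + 1 / 2) ^ 2 * ∫ x, ‖x‖ ^ (2 * n - 2) * ‖u x‖ ^ 2) =
    ∫ x, ‖x‖ ^ (2 * n) * (-1 / (2 * ‖x‖) + hartree u x - Zf u x / 2) * ‖u x‖ ^ 2

/-- compact support -/
def T_cpt : Prop := ∀ u lam G, IsSol u lam → IsH1 u G → Mom u G → 0 < lam →
  ∃ R, 0 < R ∧ ∀ᵐ x, R < ‖x‖ → u x = 0

/-- no solution with positive `lam` -/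
def T_pos3 : Prop := ∀ u lam, IsSol u lam → 0 < lam → mass u = 0

/-! ## The radial problem -/

/-- `J(r) = ∫_r^∞ (tc - S)/t²`. -/
noncomputable def Jf (s : ℝ → ℝ) (r : ℝ) : ℝ := ∫ t in Ioi r, (Mf s - Sf s t) / t ^ 2

/-- `a(r) = ∫_0^r 2 S/S'`. -/
noncomputable def af (s : ℝ → ℝ) (r : ℝ) : ℝ :=
  ∫ t in (0 : ℝ)..r, 2 * Sf s t / (4 * π * s t ^ 2)

/-- `Λ(t,r) = ∫_t^r S/σ²`. -/
noncomputable def Lam (s : ℝ → ℝ) (t r : ℝ) : ℝ := ∫ σ in t..r, Sf s σ / σ ^ 2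

/-- The kernel `k(r,t)`. -/
noncomputable def kf (s : ℝ → ℝ) (r t : ℝ) : ℝ :=
  Sf s r * Jf s t / Mf s - if t < r then Sf s r * (1 / t - 1 / r) - Lam s t r else 0

/-- facts on `J` and `a` -/
def T_ja : Prop := ∀ s s1, Ext 0 0 s s1 →
  (∀ r, 0 < r → IntegrableOn (fun t => (Mf s - Sf s t) / t ^ 2) (Ioi r)) ∧
  (∀ r, 0 < r → HasDerivAt (Jf s) (-((Mf s - Sf s r) / r ^ 2)) r) ∧
  (∀ r, 0 < r → 0 < Jf s r ∧ Jf s r ≤ (Mf s - Sf s r) / r) ∧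
  (∀ r, 0 < r → HasDerivAt (af s) (2 * Sf s r / (4 * π * s r ^ 2)) r) ∧
  ContinuousOn (af s) (Ici 0) ∧ (∀ r, 0 < r → 0 < af s r) ∧
  (∃ C, ∀ r ∈ Ioc (0 : ℝ) 1, 2 * Sf s r / (4 * π * s r ^ 2) ≤ C * r) ∧
  (∀ t r, 0 < t → t ≤ r → Jf s t - Jf s r = Mf s * (1 / t - 1 / r) - Lam s t r)

/-- facts on the kernel -/
def T_kf : Prop := ∀ s s1, Ext 0 0 s s1 →
  (∀ r t, 0 < r → 0 < t → 0 ≤ kf s r t ∧ kf s r t ≤ Sf s r * Jf s t / Mf s) ∧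
  (∀ t, 0 < t → AntitoneOn (fun r => kf s r t / Sf s r) (Ioi 0)) ∧
  (∀ t r, 0 < t → 0 < r → HasDerivAt (fun r => kf s r t)
    (4 * π * s r ^ 2 * (Jf s t / Mf s - if t < r then 1 / t - 1 / r else 0)) r) ∧
  ContinuousOn (fun p : ℝ × ℝ => kf s p.1 p.2) (Ioi 0 ×ˢ Ioi 0)

/-- the inequality for locally Lipschitz fluxes -/
def T_pw : Prop := ∀ ν tc κ, Feas ν tc κ → ∀ h h1 B B1, Mult h h1 → LFlux h h1 B B1 →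
  Integrable (Kf h h1 B B1) ν ∧ (∫ r, Kf h h1 B B1 r ∂ν) + κ * Dh h ν ≤ 0

/-- the multiplier `h` associated with the measure `ν` -/
structure HSol (s : ℝ → ℝ) (ν : Measure ℝ) (h h1 A η : ℝ → ℝ) : Prop where
  h0 : h 0 = 1
  cont : ContinuousOn h (Ici 0)
  mono : MonotoneOn h (Ici 0)
  der : ∀ r, 0 < r → HasDerivAt h (h1 r) r
  cont1 : ContinuousOn h1 (Ici 0)
  h10 : h1 0 = 0
  eq1 : ∀ r, 0 < r → h1 r = 2 * A r / (4 * π * s r ^ 2)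
  intJ : Integrable (fun t => Jf s t * h t) ν
  Adef : ∀ r, 0 < r → A r = ∫ t, kf s r t * h t ∂ν
  Ann : ∀ r, 0 < r → 0 ≤ A r
  Aanti : AntitoneOn (fun r => A r / Sf s r) (Ioi 0)
  Ader : ∀ r, 0 < r → HasDerivAt A (-(η r * (4 * π * s r ^ 2))) r
  etadef : ∀ r, 0 < r → η r = -(∫ t, Jf s t * h t ∂ν) / Mf s
    + ∫ t in Iio r, (1 / t - 1 / r) * h t ∂ν
  etacont : ContinuousOn η (Ioi 0)
  P1 : ∀ r, 0 < r → ∫ t in Iio r, Lam s t r * h t ∂ν = A r + η r * Sf s r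
  P2 : ∀ r, 0 < r → Jf s r * (∫ t in Iio r, h t ∂ν) + ∫ t in Ici r, Jf s t * h t ∂ν =
    A r - (Mf s - Sf s r) * η r

/-- monotone iteration -/
def T_hit : Prop := ∀ s s1, Ext 0 0 s s1 → ∀ (ν : Measure ℝ) (θ : ℝ), IsFiniteMeasure ν →
  (ν univ).toReal = Mf s → ν (Iic 0) = 0 → Integrable (fun r : ℝ => 1 / r) ν → θ < 1 →
  (∀ r, 0 < r → af s r * Jf s r ≤ θ) → ∃ (h : ℝ → ℝ) (C : ℝ), 0 ≤ C ∧ h 0 = 1 ∧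
    Measurable h ∧ (∀ r, 0 ≤ r → 1 ≤ h r ∧ h r ≤ 1 + C * af s r) ∧
    Integrable (fun t => Jf s t * h t) ν ∧
    ∀ r, 0 < r → h r = 1 + ∫ σ in (0 : ℝ)..r, 2 / (4 * π * s σ ^ 2) * ∫ t, kf s σ t * h t ∂ν

/-- existence of the multiplier -/
def T_hex : Prop := ∀ s s1, Ext 0 0 s s1 → ∀ (ν : Measure ℝ) (θ : ℝ), IsFiniteMeasure ν →
  (ν univ).toReal = Mf s → ν (Iic 0) = 0 → Integrable (fun r : ℝ => 1 / r) ν → θ < 1 →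
  (∀ r, 0 < r → af s r * Jf s r ≤ θ) → ∃ h h1 A η, HSol s ν h h1 A η

/-- numerical fact: `sup a J < 1` -/
def T_theta : Prop := ∀ s s1, Ext 0 0 s s1 → ∃ θ, θ < 1 ∧ ∀ r, 0 < r → af s r * Jf s r ≤ θ

/-- first point where `r h'/h` reaches `3` -/
def T_up : Prop := ∀ s s1, Ext 0 0 s s1 → ∀ ν h h1 A η, HSol s ν h h1 A η →
  (¬ ∀ r, 0 < r → r * h1 r ≤ 3 * h r) → ∃ r1, 0 < r1 ∧ r1 * h1 r1 = 3 * h r1 ∧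
    (∀ r, 0 < r → r ≤ r1 → r * h1 r ≤ 3 * h r) ∧
    2 * r1 ^ 2 * η r1 ≤ 3 * (-2 - 2 * r1 * s1 r1 / s r1) * h r1

/-- numerical fact: there is no contact point for feasible measures -/
def T_contact : Prop := ∀ s s1, Ext 0 0 s s1 → ∀ ν κ h h1 A η, 1 < κ → Feas ν (Mf s) κ →
  HSol s ν h h1 A η → ∀ r1, 0 < r1 → r1 * h1 r1 = 3 * h r1 →
    (∀ r, 0 < r → r ≤ r1 → r * h1 r ≤ 3 * h r) →
    2 * r1 ^ 2 * η r1 ≤ 3 * (-2 - 2 * r1 * s1 r1 / s r1) * h r1 → False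

/-- final contradiction -/
def T_finr : Prop := ∀ s s1, Ext 0 0 s s1 → ∀ ν κ h h1 A η, 1 < κ → Feas ν (Mf s) κ →
  HSol s ν h h1 A η → (∀ r, 0 < r → r * h1 r ≤ 3 * h r) → False

/-- the radial theorem -/
def T_rad : Prop := ∀ s s1, Ext 0 0 s s1 → ∀ ν κ, 1 < κ → ¬ Feas ν (Mf s) κ

/-- the final theorem -/
def T_full : Prop := ∀ (u : E3 → ℂ) (lam : ℝ), IsSol u lam →
  (∃ t, mass u ≤ t ∧ 0 < t ∧ Attained t) ∧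
  ∀ tc : ℝ, (∀ t, 0 < t → (Attained t ↔ t ≤ tc)) → mass u ≤ tc

end Pool.Agent.H99.HN
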