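import Pool.Agent.H99.HN.EncC

/-!
# Enclosures of `σ` and `ω`
-/

namespace Pool.Agent.H99.HN.Enc

open Pool.Agent.H99.HM Pool.Agent.H99.HN Pool.Agent.H99.PC
open Pool.Agent.H97.TR (zf p nl n1 ny sl DD Lin Sin Ain phin Lxin)
open MeasureTheory Set Filter Topology Real

/-! ### the state at `r = 48` -/

theorem z48 : zf 48 = 192 / 227 := Pool.Agent.H97.TR.zf_48

theorem sgh48_chk : pchk (.sub (.mul (.C (10 ^ 13 * C0)) (.mul (.L [0, 0, 0, 1, -2, 1]) (.L p)))
    (.mul (.C 54373) tl)) 400 192 192 227 = true ∧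
    pchk (.sub (.mul (.C 54375) tl)
      (.mul (.C (10 ^ 13 * C0)) (.mul (.L [0, 0, 0, 1, -2, 1]) (.L p)))) 400 192 192 227 = true := by
  constructor <;> decide +kernel

theorem sgh48 : 54373 / 10 ^ 4 ≤ sgh 48 ∧ sgh 48 ≤ 54375 / 10 ^ 4 := by
  have h1 := pchk_sound (by norm_num) sgh48_chk.1 (x := 192 / 227) (by norm_num) (by norm_num)
  have h2 := pchk_sound (by norm_num) sgh48_chk.2 (x := 192 / 227) (by norm_num) (by norm_num)
  have ht := tl_pos (z := 192 / 227) (by norm_num) le_rfl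
  rw [sgh_z (by norm_num) le_rfl, z48]
  simp only [PE.ev, ev] at h1 h2
  push_cast at h1 h2
  constructor
  · rw [div_le_div_iff₀ (by norm_num) ht]
    linarith
  · rw [div_le_div_iff₀ ht (by norm_num)]
    linarith

theorem omh48_chk : pchk (.sub (.mul (.C (10 ^ 4 * 360360)) (.mul (.L [1, -1]) tl))
    (.mul (.C 69523) ul)) 400 192 192 227 = true ∧
    pchk (.sub (.mul (.C 69525) ul)
      (.mul (.C (10 ^ 4 * 360360)) (.mul (.L [1, -1]) tl))) 400 192 192 227 = true := by
  constructor <;> decide +kernel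

theorem omh48 : 69523 / 10 ^ 4 ≤ omh 48 ∧ omh 48 ≤ 69525 / 10 ^ 4 := by
  have h1 := pchk_sound (by norm_num) omh48_chk.1 (x := 192 / 227) (by norm_num) (by norm_num)
  have h2 := pchk_sound (by norm_num) omh48_chk.2 (x := 192 / 227) (by norm_num) (by norm_num)
  have ht := ul_pos (z := 192 / 227) (by norm_num) le_rfl
  rw [omh_z (by norm_num) le_rfl, z48]
  simp only [PE.ev, ev] at h1 h2
  push_cast at h1 h2
  constructor
  · rw [div_le_div_iff₀ (by norm_num) ht]
    linarith
  · rw [div_le_div_iff₀ ht (by norm_num)]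
    linarith

theorem chh48_chk : pchk (.sub (.mul (.C 35) (.L s3))
    (.mul (.C (10 ^ 4 * C0)) (.mul (.L [1, -2, 1]) (.L p)))) 400 192 192 227 = true := by
  decide +kernel

theorem chh48 : chh 48 ≤ 35 / 10 ^ 4 := by
  have h1 := pchk_sound (by norm_num) chh48_chk (x := 192 / 227) (by norm_num) (by norm_num)
  have ht := s3_pos (z := 192 / 227) (by norm_num) le_rfl
  rw [chh_z (by norm_num) le_rfl, z48]
  simp only [PE.ev, ev] at h1
  push_cast at h1
  rw [div_le_div_iff₀ ht (by norm_num)]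
  linarith

/-- structural facts for `r ≥ 48` -/
theorem str48 {s s1 : ℝ → ℝ} (hE : Ext 0 0 s s1) :
    (∀ r, 48 ≤ r → 29 / 10 ≤ Lw s s1 r) ∧
    (∀ r, 48 ≤ r → 2 * Lw s s1 r - 1 / 2 ≤ sgw s r ∧ sgw s r ≤ 2 * Lw s s1 r - 7 / 20) ∧
    (∀ r, 48 ≤ r → sgw s r + 1 + 38 / 100 ≤ omw s r ∧ omw s r ≤ sgw s r + 1 + 65 / 100) := by
  have hY6 := Y6 hE
  have hmono := L_mono hE (a := 6) (by norm_num) hY6
  have hT48 := (et s s1 hE).2 48 (by norm_num) le_rfl
  have hL48 := Pool.Agent.H97.TR.L48.1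
  have hLw48 : 291 / 100 ≤ Lw s s1 48 := by
    have h1 := (abs_le.mp hT48).1
    unfold eTb at h1
    norm_num at h1 hL48
    linarith
  have hL : ∀ r, 48 ≤ r → 29 / 10 ≤ Lw s s1 r := by
    intro r hr
    have h1 := hmono (a := 48) (b := r) (by simp; norm_num) (by simp; linarith) hr
    linarith
  have hF : ∀ r, 48 ≤ r → 0 ≤ Lw s s1 r ^ 2 + Lw s s1 r / 2 - Yw s r := fun r hr =>
    Lx_ge hE (by norm_num) hY6 (by linarith)
  have hsg : ∀ r, 48 ≤ r → 2 * Lw s s1 r - 1 / 2 ≤ sgw s r := fun r hr =>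
    sg_ge hE (a := 48) (by norm_num) (fun r hr => ⟨by linarith [hL r hr], hF r hr⟩) hr
  -- r τ is decreasing
  have hrt : AntitoneOn (fun r => r * tw s r) (Ici 48) := by
    refine anti_of_der (f1 := fun r => tw s r * (1 - sgw s r)) ?_ ?_
    · intro r hr
      have hr0 : 0 < r := by linarith
      refine ((hasDerivAt_id' r).fun_mul (dt hE hr0)).congr_deriv ?_
      have ht := tw_pos hE hr0.le
      unfold sgw
      field_simp
      ring
    · intro r hr
      have hr0 : 0 < r := by linarith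
      have ht := tw_pos hE hr0.le
      have h1 := hsg r hr
      have h2 := hL r hr
      exact mul_nonpos_of_nonneg_of_nonpos ht.le (by linarith)
  have hM2 : Mf s < 2 := Main.BL 0 0 s s1 hE
  have h48t : 48 * tw s 48 ≤ 1 / 4 := by
    have hc := ((ec s s1 hE).2 48 (by norm_num) le_rfl)
    have hc1 := (abs_le.mp hc).2
    have hc2 := chh48
    have hch : chw s 48 ≤ 1 / 100 := by
      unfold eCb at hc1
      norm_num at hc1 hc2
      linarith
    have hS := Sf_pos hE (r := 48) (by norm_num)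
    have ht := tw_pos hE (r := 48) (by norm_num)
    have h1 := hsg 48 le_rfl
    have h2 := hL 48 le_rfl
    have hX1 : Xw s 48 = chw s 48 * Sf s 48 := by
      unfold chw
      rw [div_mul_cancel₀ _ hS.ne']
    have hX2 : Xw s 48 = sgw s 48 * tw s 48 := by
      unfold sgw
      rw [div_mul_cancel₀ _ ht.ne']
    have hSM : Sf s 48 ≤ 2 := by
      unfold tw at ht
      linarith
    have hX3 : Xw s 48 ≤ 1 / 100 * 2 := by
      rw [hX1]
      exact mul_le_mul hch hSM hS.le (by norm_num)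
    have hX4 : 53 / 10 * tw s 48 ≤ Xw s 48 := by
      rw [hX2]
      exact mul_le_mul_of_nonneg_right (by linarith) ht.le
    linarith
  have hV : ∀ r, 48 ≤ r → Vw s r ≤ Lw s s1 r / 4 + 3 / 8 := by
    intro r hr
    have hr0 : 0 < r := by linarith
    have h1 := Vw_le hE hr0
    have h2 := hrt (a := 48) (b := r) (by simp) (by simpa using hr) hr
    simp only at h2
    have := hL r hr
    linarith
  have hF2 : ∀ r, 48 ≤ r → Lw s s1 r ^ 2 + Lw s s1 r / 2 - Yw s r ≤ 1 / 4 := fun r hr =>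
    Lx_le hE (a := 48) (by norm_num) hV hr
  have hsg2 : ∀ r, 48 ≤ r → sgw s r ≤ 2 * Lw s s1 r - 7 / 20 := fun r hr =>
    sg_le hE (a := 48) (by norm_num) (fun r hr => ⟨by linarith [hL r hr], hF2 r hr⟩) hr
  refine ⟨hL, fun r hr => ⟨hsg r hr, hsg2 r hr⟩, fun r hr => ⟨?_, ?_⟩⟩
  · refine om_ge hE (a := 48) (by norm_num) (δ := 38 / 100) (by norm_num) (fun r hr => ?_) hr
    have h1 := hsg r hr
    have h2 := hL r hr
    nlinarith
  · refine om_le hE (a := 48) (by norm_num) (δ := 65 / 100) (by norm_num) (fun r hr => ?_) hr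
    have h1 := hsg r hr
    have h2 := hL r hr
    have h3 := hsg2 r hr
    nlinarith

/-! ### the polynomial error bounds in `z` -/

def sn : List ℤ := [4915200, -921600, -41702400, 81484800, -58752000, 15093649]
def sx : List ℤ := [0, 23654400, -87091200, 119347200, -72038400, 16716245]
def on : List ℤ := [6553600, -4096000, -40371200, 80153600, -55577600, 13724161]
def ox : List ℤ := [0, 28672000, -97126400, 119347200, -62003200, 13043205]

/-- `r` times the derivative of `eS` -/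
noncomputable def eSx (r : ℝ) : ℝ :=
  (33 / 10 * r + 3 / 25 * r ^ 2 + 14 / 10 ^ 6 * r ^ 5) / 10 ^ 4

/-- `r` times the derivative of `eO` -/
noncomputable def eOx (r : ℝ) : ℝ :=
  (4 * r + 7 / 25 * r ^ 2 + 46 / 10 ^ 6 * r ^ 5) / 10 ^ 4

theorem eS_z {z : ℝ} (hz : 1 - z ≠ 0) : eS (35 * z / (4 * (1 - z))) =
    ev sn z / (819200 * (1 - z) ^ 5) / 10 ^ 4 := by
  unfold eS
  simp only [sn, ev]
  push_cast
  field_simp
  ring

theorem eSx_z {z : ℝ} (hz : 1 - z ≠ 0) : eSx (35 * z / (4 * (1 - z))) =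
    ev sx z / (819200 * (1 - z) ^ 5) / 10 ^ 4 := by
  unfold eSx
  simp only [sx, ev]
  push_cast
  field_simp
  ring

theorem eO_z {z : ℝ} (hz : 1 - z ≠ 0) : eO (35 * z / (4 * (1 - z))) =
    ev on z / (819200 * (1 - z) ^ 5) / 10 ^ 4 := by
  unfold eO
  simp only [on, ev]
  push_cast
  field_simp
  ring

theorem eOx_z {z : ℝ} (hz : 1 - z ≠ 0) : eOx (35 * z / (4 * (1 - z))) =
    ev ox z / (819200 * (1 - z) ^ 5) / 10 ^ 4 := by
  unfold eOx
  simp only [ox, ev]
  push_cast
  field_simp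
  ring

/-- powers of `1 - z` -/
def up (n : ℕ) : PE := .L (pw [1, -1] n)

theorem up_ev (n : ℕ) (z : ℝ) : (up n).ev z = (1 - z) ^ n := by
  simp only [up, PE.ev, ev_pw, ev]
  push_cast
  ring

/-- `z³ (1-z)²` -/
def z3u2 : PE := .L [0, 0, 0, 1, -2, 1]

theorem z3u2_ev (z : ℝ) : z3u2.ev z = z ^ 3 * (1 - z) ^ 2 := by
  simp only [z3u2, PE.ev, ev]
  push_cast
  ring

def sq : PE := .sub (.sub (.add
  (.mul (.mul (.C (10 ^ 4 * 800 * 819200)) (up 5)) (.mul (.mul (.L sn) (.sub (.L p) (.L nl))) tl))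
  (.mul (.mul (.C (2 * 10 ^ 9 * C0)) z3u2) (.mul (.mul (.L p) (.L p))
    (.sub (.mul (.C (10 ^ 4 * 800 * 819200)) (.mul (up 5) (.L sn)))
      (.mul (.C (10 ^ 4 * 819200 ^ 2)) (.mul (up 8) (.L dn)))))))
  (.mul (.mul (.C (10 ^ 4 * 800 * 819200)) (up 5)) (.mul (.mul (.L sx) (.L p)) tl)))
  (.mul (.mul (.L sn) (.mul (.L p) tl)) (.add (.mul (.C (2 * 819200)) (.mul (up 3) (.L dn)))
    (.mul (.C 800) (.L sn))))

def oq : PE := .sub (.sub
  (.sub (.mul (.mul (.C (2 * 360360 * 10 ^ 4 * 819200 ^ 2)) (up 6)) (.mul (.L on) (.mul tl tl)))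
    (.add (.mul (.mul (.C (10 ^ 4 * 819200 ^ 2)) (up 5)) (.mul (.L on) (.mul ul tl)))
      (.mul (.mul (.C (10 ^ 13 * C0 * 819200 ^ 2)) (.mul z3u2 (up 5)))
        (.mul (.L p) (.mul (.L on) ul)))))
  (.mul (.mul (.C 819200) (.mul ul tl)) (.mul (.L on) (.add (.L on) (.L sn)))))
  (.add (.mul (.mul (.C (360360 * 10 ^ 4 * 819200 ^ 2)) (up 6)) (.mul (.L sn) (.mul tl tl)))
    (.mul (.mul (.C (10 ^ 4 * 819200 ^ 2)) (up 5)) (.mul (.L ox) (.mul ul tl))))

theorem sq_chk : pchkL (.sub sq (.C 1)) 900 2043 [454, 600, 800, 1000, 1200, 1400, 1550, 1650, 1728]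
    = true := by decide +kernel

theorem oq_chk : pchkL (.sub oq (.C 1)) 1200 2043 [454, 600, 800, 1000, 1200, 1400, 1550, 1650, 1728]
    = true := by decide +kernel

section ineq

variable {r : ℝ}

theorem Sb_ineq (h1 : 5 / 2 ≤ r) (h2 : r ≤ 48) :
    0 < eS r * (1 - 2 * Lin r - 2 * eTb r + 2 * sgh r - eS r) - 2 * sgh r * eTb r - eSx r := by
  have hr : 0 < r := by linarith
  have hz0 := Pool.Agent.H97.TR.zf_pos hr
  have hz1 := Pool.Agent.H97.TR.zf_lt_one hr
  have hu : 0 < 1 - zf r := by linarith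
  have hzu := z_u hr
  have hlo : 454 / 2043 ≤ zf r := by
    have := zf_mono (by norm_num) h1
    rwa [zf_at (5 / 2) (b := 454 / 2043) (by norm_num)] at this
  have hhi : zf r ≤ 1728 / 2043 := by
    have := Pool.Agent.H97.TR.zf_le48 hr h2
    linarith
  have hp := Pool.Agent.H97.TR.p_pos hz0.le (Pool.Agent.H97.TR.zf_le48 hr h2)
  have ht := tl_pos hz0.le (Pool.Agent.H97.TR.zf_le48 hr h2)
  have hc := pchkL_sound (by norm_num) _ _ _ 1728 sq_chk rfl (zf r) (by push_cast; linarith)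
    (by push_cast; linarith)
  simp only [PE.ev] at hc
  push_cast at hc
  have hc' : 0 < sq.ev (zf r) := by linarith
  have he : eTb r = ev dn (zf r) / (800 * (1 - zf r) ^ 2) / 10 ^ 4 := by
    rw [← eTb_z hu.ne', ← hzu]
  have he2 : eS r = ev sn (zf r) / (819200 * (1 - zf r) ^ 5) / 10 ^ 4 := by
    rw [← eS_z hu.ne', ← hzu]
  have he3 : eSx r = ev sx (zf r) / (819200 * (1 - zf r) ^ 5) / 10 ^ 4 := by
    rw [← eSx_z hu.ne', ← hzu]
  have key : eS r * (1 - 2 * Lin r - 2 * eTb r + 2 * sgh r - eS r) - 2 * sgh r * eTb r - eSx r =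
      sq.ev (zf r) / (10 ^ 4 * 819200 * (1 - zf r) ^ 5 *
        (10 ^ 4 * 800 * 819200 * (1 - zf r) ^ 5 * ev p (zf r) * tl.ev (zf r))) := by
    rw [sgh_z hr h2, he, he2, he3]
    unfold Lin
    simp only [sq, PE.ev, up_ev, z3u2_ev]
    generalize tl.ev (zf r) = t at *
    generalize ev p (zf r) = b at *
    generalize ev nl (zf r) = n at *
    generalize ev dn (zf r) = d at *
    generalize ev sn (zf r) = s at *
    generalize ev sx (zf r) = x at *
    generalize C0 = c0 at *
    generalize zf r = z at *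
    push_cast
    field_simp
    ring
  rw [key]
  positivity

theorem Ob_ineq (h1 : 5 / 2 ≤ r) (h2 : r ≤ 48) :
    0 < eO r * (2 * omh r - eO r - 1 - sgh r - eS r) - omh r * eS r - eOx r := by
  have hr : 0 < r := by linarith
  have hz0 := Pool.Agent.H97.TR.zf_pos hr
  have hz1 := Pool.Agent.H97.TR.zf_lt_one hr
  have hu : 0 < 1 - zf r := by linarith
  have hzu := z_u hr
  have hlo : 454 / 2043 ≤ zf r := by
    have := zf_mono (by norm_num) h1
    rwa [zf_at (5 / 2) (b := 454 / 2043) (by norm_num)] at this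
  have hhi : zf r ≤ 1728 / 2043 := by
    have := Pool.Agent.H97.TR.zf_le48 hr h2
    linarith
  have ht := tl_pos hz0.le (Pool.Agent.H97.TR.zf_le48 hr h2)
  have hw := ul_pos hz0.le (Pool.Agent.H97.TR.zf_le48 hr h2)
  have hc := pchkL_sound (by norm_num) _ _ _ 1728 oq_chk rfl (zf r) (by push_cast; linarith)
    (by push_cast; linarith)
  simp only [PE.ev] at hc
  push_cast at hc
  have hc' : 0 < oq.ev (zf r) := by linarith
  have he2 : eS r = ev sn (zf r) / (819200 * (1 - zf r) ^ 5) / 10 ^ 4 := by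
    rw [← eS_z hu.ne', ← hzu]
  have he3 : eO r = ev on (zf r) / (819200 * (1 - zf r) ^ 5) / 10 ^ 4 := by
    rw [← eO_z hu.ne', ← hzu]
  have he4 : eOx r = ev ox (zf r) / (819200 * (1 - zf r) ^ 5) / 10 ^ 4 := by
    rw [← eOx_z hu.ne', ← hzu]
  have key : eO r * (2 * omh r - eO r - 1 - sgh r - eS r) - omh r * eS r - eOx r =
      oq.ev (zf r) / (10 ^ 4 * 819200 * (1 - zf r) ^ 5 *
        (10 ^ 4 * 819200 ^ 2 * (1 - zf r) ^ 5 * ul.ev (zf r) * tl.ev (zf r))) := by
    rw [sgh_z hr h2, omh_z hr h2, he2, he3, he4]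
    simp only [oq, PE.ev, up_ev, z3u2_ev]
    generalize tl.ev (zf r) = t at *
    generalize ul.ev (zf r) = w at *
    generalize ev p (zf r) = b at *
    generalize ev sn (zf r) = s at *
    generalize ev on (zf r) = o at *
    generalize ev ox (zf r) = y at *
    generalize C0 = c0 at *
    generalize zf r = z at *
    push_cast
    field_simp
    ring
  rw [key]
  positivity

end ineq

theorem sgh_pos {r : ℝ} (hr : 0 < r) (h : r ≤ 48) : 0 < sgh r :=
  div_pos (mul_pos hr (Pool.Agent.H97.TR.Ain_pos hr h)) (tauh_pos hr h)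

theorem omh_pos {r : ℝ} (hr : 0 < r) (h : r ≤ 48) : 0 < omh r :=
  div_pos (tauh_pos hr h) (mul_pos hr (Jh_pos hr h))

/-- the enclosure of `σ` -/
theorem es : ES := by
  intro s s1 hE
  obtain ⟨hTf, hTb⟩ := et s s1 hE
  obtain ⟨-, hs48, -⟩ := str48 hE
  have hder : ∀ r : ℝ, 0 < r → r ≤ 48 → HasDerivAt (fun r => sgw s r - sgh r)
      (((sgw s r - sgh r) * (1 - 2 * Lw s s1 r + sgw s r + sgh r) -
        2 * sgh r * (Lw s s1 r - Lin r)) / r) r := by
    intro r hr h
    refine ((dsg (s1 := s1) hE hr).fun_sub (dsgh hr h)).congr_deriv ?_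
    ring
  have hend : |sgw s 48 - sgh 48| < eS 48 := by
    have h1 := abs_le.mp (hTb 48 (by norm_num) le_rfl)
    have h2 := hs48 48 le_rfl
    have h3 := Pool.Agent.H97.TR.L48
    have h4 := sgh48
    have h5 : eTb 48 = 10108 / 10 ^ 6 := by unfold eTb; norm_num
    have h6 : 1016 / 10 ^ 4 ≤ eS 48 := by unfold eS; norm_num
    rw [h5] at h1
    norm_num at h1 h3 h4 h6
    rw [abs_lt]
    constructor
    · linarith
    · linarith
  have key : ∀ τ : ℝ, (τ = 1 ∨ τ = -1) → ∀ r ∈ Icc (5 / 2 : ℝ) 48,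
      τ * (sgw s r - sgh r) - eS r < 0 := by
    intro τ hτ
    have hτ1 : |τ| = 1 := by rcases hτ with h | h <;> rw [h] <;> norm_num
    have hτ2 : τ * τ = 1 := by rcases hτ with h | h <;> rw [h] <;> norm_num
    have hτle : -1 ≤ τ ∧ τ ≤ 1 := abs_le.mp hτ1.le
    refine bwd (f := fun r => τ * (sgw s r - sgh r) - eS r)
      (f1 := fun r => (τ * ((sgw s r - sgh r) * (1 - 2 * Lw s s1 r + sgw s r + sgh r) -
        2 * sgh r * (Lw s s1 r - Lin r)) - eSx r) / r) ?_ ?_ ?_
    · intro r hr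
      have hr0 : 0 < r := by linarith [hr.1]
      have h2 : HasDerivAt eS ((33 / 10 + 3 / 25 * r + 14 / 10 ^ 6 * r ^ 4) / 10 ^ 4) r := by
        unfold eS
        have := (((((hasDerivAt_id' r).const_mul (33 / 10)).const_add 6).fun_add
          (((hasDerivAt_id' r).fun_pow 2).const_mul (3 / 50))).fun_add
          (((hasDerivAt_id' r).fun_pow 5).const_mul (28 / 10 ^ 7))).div_const (10 ^ 4)
        refine this.congr_deriv ?_
        push_cast
        ring
      refine (((hder r hr0 hr.2).const_mul τ).fun_sub h2).congr_deriv ?_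
      unfold eSx
      field_simp
    · have h1 : τ * (sgw s 48 - sgh 48) ≤ |sgw s 48 - sgh 48| := by
        calc τ * (sgw s 48 - sgh 48) ≤ |τ * (sgw s 48 - sgh 48)| := le_abs_self _
          _ = |sgw s 48 - sgh 48| := by rw [abs_mul, hτ1, one_mul]
      linarith
    · intro r hr hf
      have hr0 : 0 < r := by linarith [hr.1]
      have hT := hTb r hr.1 hr.2
      have hin := Sb_ineq hr.1 hr.2
      have heS : 0 < eS r := by unfold eS; positivity
      have heT : 0 < eTb r := by unfold eTb; positivity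
      have hch := sgh_pos hr0 hr.2
      have hZ : sgw s r - sgh r = τ * eS r := by
        have : τ * (sgw s r - sgh r) = eS r := by linarith
        calc sgw s r - sgh r = τ * τ * (sgw s r - sgh r) := by rw [hτ2, one_mul]
          _ = τ * (τ * (sgw s r - sgh r)) := by ring
          _ = τ * eS r := by rw [this]
      have hc : sgw s r = sgh r + τ * eS r := by linarith
      refine div_pos ?_ hr0
      rw [hZ, hc]
      have e : τ * (τ * eS r * (1 - 2 * Lw s s1 r + (sgh r + τ * eS r) + sgh r) -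
          2 * sgh r * (Lw s s1 r - Lin r)) =
          τ * τ * (eS r * (1 - 2 * Lw s s1 r + (sgh r + τ * eS r) + sgh r)) -
          2 * sgh r * (τ * (Lw s s1 r - Lin r)) := by ring
      rw [e, hτ2, one_mul]
      have hTa : |τ * (Lw s s1 r - Lin r)| ≤ eTb r := by rw [abs_mul, hτ1, one_mul]; exact hT
      have hT1 := (abs_le.mp hTa).2
      have hT2 := abs_le.mp hT
      have b1 : eS r * (1 - 2 * Lin r - 2 * eTb r + 2 * sgh r - eS r) ≤
          eS r * (1 - 2 * Lw s s1 r + (sgh r + τ * eS r) + sgh r) := by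
        refine mul_le_mul_of_nonneg_left ?_ heS.le
        nlinarith [hτle.1]
      have b2 : 2 * sgh r * (τ * (Lw s s1 r - Lin r)) ≤ 2 * sgh r * eTb r := by nlinarith
      linarith
  intro r h1 h2
  have h3 := key 1 (Or.inl rfl) r ⟨h1, h2⟩
  have h4 := key (-1) (Or.inr rfl) r ⟨h1, h2⟩
  rw [abs_le]
  constructor <;> linarith

/-- the enclosure of `ω` -/
theorem eo : EO := by
  intro s s1 hE
  obtain ⟨hTf, hTb⟩ := et s s1 hE
  obtain ⟨-, hs48, ho48⟩ := str48 hE
  have hS := es s s1 hE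
  have hder : ∀ r : ℝ, 0 < r → r ≤ 48 → HasDerivAt (fun r => omw s r - omh r)
      (((omw s r - omh r) * (omw s r + omh r - 1 - sgw s r) -
        omh r * (sgw s r - sgh r)) / r) r := by
    intro r hr h
    refine ((dom hE hr).fun_sub (domh hr h)).congr_deriv ?_
    ring
  have hend : |omw s 48 - omh 48| < eO 48 := by
    have h1 := abs_le.mp (hTb 48 (by norm_num) le_rfl)
    have h2 := hs48 48 le_rfl
    have h2' := ho48 48 le_rfl
    have h3 := Pool.Agent.H97.TR.L48
    have h4 := omh48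
    have h5 : eTb 48 = 10108 / 10 ^ 6 := by unfold eTb; norm_num
    have h6 : 2866 / 10 ^ 4 ≤ eO 48 := by unfold eO; norm_num
    rw [h5] at h1
    norm_num at h1 h3 h4 h6
    rw [abs_lt]
    constructor
    · linarith
    · linarith
  have key : ∀ τ : ℝ, (τ = 1 ∨ τ = -1) → ∀ r ∈ Icc (5 / 2 : ℝ) 48,
      τ * (omw s r - omh r) - eO r < 0 := by
    intro τ hτ
    have hτ1 : |τ| = 1 := by rcases hτ with h | h <;> rw [h] <;> norm_num
    have hτ2 : τ * τ = 1 := by rcases hτ with h | h <;> rw [h] <;> norm_num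
    have hτle : -1 ≤ τ ∧ τ ≤ 1 := abs_le.mp hτ1.le
    refine bwd (f := fun r => τ * (omw s r - omh r) - eO r)
      (f1 := fun r => (τ * ((omw s r - omh r) * (omw s r + omh r - 1 - sgw s r) -
        omh r * (sgw s r - sgh r)) - eOx r) / r) ?_ ?_ ?_
    · intro r hr
      have hr0 : 0 < r := by linarith [hr.1]
      have h2 : HasDerivAt eO ((4 + 7 / 25 * r + 46 / 10 ^ 6 * r ^ 4) / 10 ^ 4) r := by
        unfold eO
        have := (((((hasDerivAt_id' r).const_mul 4).const_add 8).fun_add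
          (((hasDerivAt_id' r).fun_pow 2).const_mul (7 / 50))).fun_add
          (((hasDerivAt_id' r).fun_pow 5).const_mul (92 / 10 ^ 7))).div_const (10 ^ 4)
        refine this.congr_deriv ?_
        push_cast
        ring
      refine (((hder r hr0 hr.2).const_mul τ).fun_sub h2).congr_deriv ?_
      unfold eOx
      field_simp
    · have h1 : τ * (omw s 48 - omh 48) ≤ |omw s 48 - omh 48| := by
        calc τ * (omw s 48 - omh 48) ≤ |τ * (omw s 48 - omh 48)| := le_abs_self _
          _ = |omw s 48 - omh 48| := by rw [abs_mul, hτ1, one_mul]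
      linarith
    · intro r hr hf
      have hr0 : 0 < r := by linarith [hr.1]
      have hSr := hS r hr.1 hr.2
      have hin := Ob_ineq hr.1 hr.2
      have heO : 0 < eO r := by unfold eO; positivity
      have hoh := omh_pos hr0 hr.2
      have hZ : omw s r - omh r = τ * eO r := by
        have : τ * (omw s r - omh r) = eO r := by linarith
        calc omw s r - omh r = τ * τ * (omw s r - omh r) := by rw [hτ2, one_mul]
          _ = τ * (τ * (omw s r - omh r)) := by ring
          _ = τ * eO r := by rw [this]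
      have hc : omw s r = omh r + τ * eO r := by linarith
      refine div_pos ?_ hr0
      rw [hZ, hc]
      have e : τ * (τ * eO r * ((omh r + τ * eO r) + omh r - 1 - sgw s r) -
          omh r * (sgw s r - sgh r)) =
          τ * τ * (eO r * ((omh r + τ * eO r) + omh r - 1 - sgw s r)) -
          omh r * (τ * (sgw s r - sgh r)) := by ring
      rw [e, hτ2, one_mul]
      have hTa : |τ * (sgw s r - sgh r)| ≤ eS r := by rw [abs_mul, hτ1, one_mul]; exact hSr
      have hT1 := (abs_le.mp hTa).2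
      have hT2 := abs_le.mp hSr
      have b1 : eO r * (2 * omh r - eO r - 1 - sgh r - eS r) ≤
          eO r * ((omh r + τ * eO r) + omh r - 1 - sgw s r) := by
        refine mul_le_mul_of_nonneg_left ?_ heO.le
        nlinarith [hτle.1]
      have b2 : omh r * (τ * (sgw s r - sgh r)) ≤ omh r * eS r := by nlinarith
      linarith
  intro r h1 h2
  have h3 := key 1 (Or.inl rfl) r ⟨h1, h2⟩
  have h4 := key (-1) (Or.inr rfl) r ⟨h1, h2⟩
  rw [abs_le]
  constructor <;> linarith

end Pool.Agent.H99.HN.Enc
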