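import Pool.Agent.H99.HN.Targets
import Pool.Agent.H99.HM.Main

/-! Assembly of the final theorem. -/

namespace Pool.Agent.H99.HN

open Pool.Agent.H99.HM

theorem full (h1 : T_rad) (h2 : T_feas) (h3 : T_pos3) : T_full := by
  intro u lam hu
  obtain ⟨w, w1, hw0, -⟩ := Main.ex0 0 le_rfl
  have hw1 : 1 < Mf w := Main.gt1 0 w w1 hw0
  have hatt : Attained (Mf w) := Main.att w w1 hw0
  have key : mass u ≤ Mf w := by
    rcases le_or_gt lam 0 with hl | hl
    · by_contra hcon
      push Not at hcon
      have hF := h2 u lam (Mf w) hu hl hw1 hcon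
      refine h1 w w1 hw0 _ (mass u / Mf w) ?_ hF
      rw [lt_div_iff₀ (by linarith)]
      linarith
    · rw [h3 u lam hu hl]
      linarith
  refine ⟨⟨Mf w, key, by linarith, hatt⟩, fun tc htc => ?_⟩
  exact key.trans ((htc (Mf w) (by linarith)).1 hatt)

end Pool.Agent.H99.HN
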