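import Pool.Agent.H99.HN.Targets

/-! Assembly of the radial theorem. -/

namespace Pool.Agent.H99.HN

open Pool.Agent.H99.HM

theorem rad (h1 : T_theta) (h2 : T_hex) (h3 : T_up) (h4 : T_contact) (h5 : T_finr) : T_rad := by
  intro s s1 hE ν κ hκ hF
  obtain ⟨θ, hθ, hb⟩ := h1 s s1 hE
  obtain ⟨h, h', A, η, hS⟩ := h2 s s1 hE ν θ hF.fin hF.mass hF.supp hF.inv hθ hb
  by_cases hc : ∀ r, 0 < r → r * h' r ≤ 3 * h r
  · exact h5 s s1 hE ν κ h h' A η hκ hF hS hc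
  · obtain ⟨r1, hr1, heq, hle, hη⟩ := h3 s s1 hE ν h h' A η hS hc
    exact h4 s s1 hE ν κ h h' A η hκ hF hS r1 hr1 heq hle hη

end Pool.Agent.H99.HN
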