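import Pool.Agent.H99.HN.Targets
import Pool.Agent.H99.HM.Main

/-! `a J ≤ θ` follows from the pointwise bound `2 κ² S ≤ θ r S_x τ`, `κ = r² J`, `S_x = r S'`. -/

namespace Pool.Agent.H99.HN

open Pool.Agent.H99.HM
open MeasureTheory Set Filter Topology Real

/-- numerical fact (W1) -/
def T_w1 : Prop := ∀ s s1, Ext 0 0 s s1 → ∃ θ, 0 < θ ∧ θ < 1 ∧ ∀ r, 0 < r →
  2 * (r ^ 2 * Jf s r) ^ 2 * Sf s r ≤ θ * (r * (r * (4 * π * s r ^ 2)) * (Mf s - Sf s r))

theorem theta (hJ : T_ja) (h1 : T_w1) : T_theta := by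
  intro s s1 hE
  obtain ⟨θ, hθ0, hθ1, hB⟩ := h1 s s1 hE
  refine ⟨θ, hθ1, ?_⟩
  obtain ⟨-, hJd, hJb, had, hac, hapos, ⟨C, hC⟩, -⟩ := hJ s s1 hE
  have hF := Main.facts 0 0 s s1 hE
  set y : ℝ → ℝ := fun r => af s r * Jf s r with hy
  have hyd : ∀ r, 0 < r → HasDerivAt y (2 * Sf s r / (4 * π * s r ^ 2) * Jf s r +
      af s r * (-((Mf s - Sf s r) / r ^ 2))) r := fun r hr => (had r hr).mul (hJd r hr)
  have hyc : ContinuousOn y (Ioi 0) := fun r hr => (hyd r hr).continuousAt.continuousWithinAt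
  -- small values of y
  have hsmall : ∀ r ∈ Ioc (0 : ℝ) 1, y r ≤ |C| * r * Mf s := by
    intro r hr
    have ha : af s r ≤ |C| * r * r := by
      have h2 : ∀ t ∈ Ioc (0 : ℝ) r, 2 * Sf s t / (4 * π * s t ^ 2) ≤ |C| * r := by
        intro t ht
        refine (hC t ⟨ht.1, ht.2.trans hr.2⟩).trans ?_
        exact mul_le_mul (le_abs_self C) ht.2 ht.1.le (abs_nonneg C)
      have hsub : ‖∫ t in (0 : ℝ)..r, 2 * Sf s t / (4 * π * s t ^ 2)‖ ≤ (|C| * r) * |r - 0| := by
        refine intervalIntegral.norm_integral_le_of_norm_le_const fun t ht => ?_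
        rw [uIoc_of_le hr.1.le] at ht
        rw [Real.norm_eq_abs, abs_of_nonneg]
        · exact h2 t ht
        · have := hF.Spos t ht.1
          positivity
      rw [sub_zero, abs_of_pos hr.1] at hsub
      exact (le_abs_self _).trans (by simpa [af] using hsub)
    have hJr : Jf s r ≤ Mf s / r := by
      refine (hJb r hr.1).2.trans ?_
      have := hF.Spos r hr.1
      exact div_le_div_of_nonneg_right (by linarith) hr.1.le
    calc y r = af s r * Jf s r := rfl
      _ ≤ (|C| * r * r) * (Mf s / r) := by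
          refine mul_le_mul ha hJr (hJb r hr.1).1.le ?_
          have := hr.1
          positivity
      _ = |C| * r * Mf s := by field_simp
  intro r0 hr0
  by_contra hcon
  push Not at hcon
  -- find a small point where y ≤ θ
  have hM := hF.mpos
  obtain ⟨e, he0, he1, hey⟩ : ∃ e, 0 < e ∧ e < r0 ∧ y e ≤ θ := by
    refine ⟨min (min 1 (r0 / 2)) (θ / (|C| * Mf s + 1)), ?_, ?_, ?_⟩
    · have : 0 < |C| * Mf s + 1 := by positivity
      positivity
    · exact ((min_le_left _ _).trans (min_le_right _ _)).trans_lt (by linarith)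
    · set e := min (min 1 (r0 / 2)) (θ / (|C| * Mf s + 1)) with he
      have hpos : 0 < |C| * Mf s + 1 := by positivity
      have he0 : 0 < e := by positivity
      have h3 : e ≤ θ / (|C| * Mf s + 1) := min_le_right _ _
      refine (hsmall e ⟨he0, (min_le_left _ _).trans (min_le_left _ _)⟩).trans ?_
      rw [le_div_iff₀ hpos] at h3
      nlinarith
  -- last point with y ≤ θ
  set K : Set ℝ := {r | r ∈ Icc e r0 ∧ y r ≤ θ} with hK
  have hKne : K.Nonempty := ⟨e, ⟨le_rfl, he1.le⟩, hey⟩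
  have hcl : IsClosed K := by
    have hc : ContinuousOn y (Icc e r0) := hyc.mono fun r hr => lt_of_lt_of_le he0 hr.1
    exact hc.preimage_isClosed_of_isClosed isClosed_Icc isClosed_Iic
  have hKb : BddAbove K := ⟨r0, fun r hr => hr.1.2⟩
  set r2 := sSup K with hr2
  have hr2K : r2 ∈ K := hcl.csSup_mem hKne hKb
  have hr2pos : 0 < r2 := lt_of_lt_of_le he0 hr2K.1.1
  have hlt : r2 < r0 := by
    refine lt_of_le_of_ne hr2K.1.2 fun heq => ?_
    have := hr2K.2
    rw [heq] at this
    exact absurd this (not_le.mpr hcon)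
  have habove : ∀ r ∈ Ioc r2 r0, θ < y r := by
    intro r hr
    by_contra hle
    push Not at hle
    have : r ∈ K := ⟨⟨hr2K.1.1.trans hr.1.le, hr.2⟩, hle⟩
    exact absurd (le_csSup hKb this) (not_le.mpr hr.1)
  have hanti : AntitoneOn y (Icc r2 r0) := by
    refine antitoneOn_of_deriv_nonpos (convex_Icc _ _)
      (hyc.mono fun r hr => lt_of_lt_of_le hr2pos hr.1) ?_ ?_
    · intro r hr
      rw [interior_Icc] at hr
      exact (hyd r (hr2pos.trans hr.1)).differentiableAt.differentiableWithinAt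
    · intro r hr
      rw [interior_Icc] at hr
      have hrp : 0 < r := hr2pos.trans hr.1
      rw [(hyd r hrp).deriv]
      have hy2 := habove r ⟨hr.1, hr.2.le⟩
      have hb := hB r hrp
      have hs : 0 < s r := hE.pos r hrp
      have hJp := (hJb r hrp).1
      have hτ : 0 < Mf s - Sf s r := by
        have := hF.Slt r hrp.le
        linarith
      have hS := hF.Spos r hrp
      -- a J > θ,  2 r⁴ J² S ≤ θ r² S' τ
      have hS' : 0 < 4 * π * s r ^ 2 := by positivity
      have h4 : 2 * Sf s r * Jf s r * (r ^ 2 * Jf s r) ≤ θ * ((4 * π * s r ^ 2) * (Mf s - Sf s r)) := by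
        have h5 : r ^ 2 * (2 * Sf s r * Jf s r * (r ^ 2 * Jf s r)) ≤
            r ^ 2 * (θ * ((4 * π * s r ^ 2) * (Mf s - Sf s r))) := by nlinarith [hb]
        exact le_of_mul_le_mul_left h5 (by positivity)
      have h6 : θ * ((4 * π * s r ^ 2) * (Mf s - Sf s r)) ≤
          (af s r * Jf s r) * ((4 * π * s r ^ 2) * (Mf s - Sf s r)) :=
        mul_le_mul_of_nonneg_right hy2.le (by positivity)
      have h7 : 2 * Sf s r * (r ^ 2 * Jf s r) ≤ af s r * ((4 * π * s r ^ 2) * (Mf s - Sf s r)) := by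
        have h8 : Jf s r * (2 * Sf s r * (r ^ 2 * Jf s r)) ≤
            Jf s r * (af s r * ((4 * π * s r ^ 2) * (Mf s - Sf s r))) := by nlinarith [h4, h6]
        exact le_of_mul_le_mul_left h8 hJp
      have h9 : 2 * Sf s r / (4 * π * s r ^ 2) * Jf s r ≤ af s r * ((Mf s - Sf s r) / r ^ 2) := by
        rw [div_mul_eq_mul_div, ← mul_div_assoc, div_le_div_iff₀ hS' (by positivity)]
        nlinarith [h7]
      linarith
  have := hanti ⟨le_rfl, hlt.le⟩ ⟨hlt.le, le_rfl⟩ hlt.le
  have h10 := hr2K.2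
  linarith

end Pool.Agent.H99.HN
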