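import Pool.Agent.H92.HN.Cpt
import Pool.Agent.H56.HN.DENS2
import Pool.Agent.H92.HN.Div
import Pool.Agent.H29.HN.DIVZ
import Pool.Agent.H94.HN.DTE
import Pool.Agent.H29.HN.EH
import Pool.Agent.H29.HN.EHP
import Pool.Agent.H76.HN.FEAS
import Pool.Agent.H10.HN.FINR
import Pool.Agent.H99.HN.Full
import Pool.Agent.H54.HN.Fund
import Pool.Agent.H76.HN.H1C
import Pool.Agent.H76.HN.HARDY
import Pool.Agent.H76.HN.HB
import Pool.Agent.H66.HN.HEX
import Pool.Agent.H66.HN.HIT
import Pool.Agent.H15.HN.Ibb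
import Pool.Agent.H29.HN.IBH
import Pool.Agent.H15.HN.Ibp
import Pool.Agent.H62.HN.Ja
import Pool.Agent.H62.HN.Kf
import Pool.Agent.H92.HN.Kin
import Pool.Agent.H92.HN.Kn
import Pool.Agent.H62.HN.Leg
import Pool.Agent.H42.HN.MOMN
import Pool.Agent.H15.HN.Momp
import Pool.Agent.H76.HN.MP
import Pool.Agent.H56.HN.MPT
import Pool.Agent.H29.HN.MUL
import Pool.Agent.H54.HN.Newt2
import Pool.Agent.H29.HN.NU
import Pool.Agent.H46.HN.Pb
import Pool.Agent.H92.HN.Pint
import Pool.Agent.H66.HN.POIN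
import Pool.Agent.H54.HN.Pot
import Pool.Agent.H96.HN.PW
import Pool.Agent.H99.HN.Rad
import Pool.Agent.H46.HN.Rel
import Pool.Agent.H94.HN.RELT
import Pool.Agent.H46.HN.Rsb
import Pool.Agent.H46.HN.Rsp
import Pool.Agent.H94.HN.SPHC
import Pool.Agent.H15.HN.Sym
import Pool.Agent.H99.HN.Theta
import Pool.Agent.H94.HN.TRUNC
import Pool.Agent.H42.HN.UBAR
import Pool.Agent.H62.HN.Up
import Pool.Agent.H76.HN.WF
import Pool.Agent.H62.HN.Wirt
import Pool.Agent.H29.HN.ZF
import Pool.Agent.H85.HN.Final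

/-!
# The Coulomb Hartree equation, non-radial solutions: assembly of the modules
-/

namespace Pool.Agent.H99.HN.Main

open Pool.Agent.H99.HM Pool.Agent.H99.HN
open Pool.Agent

theorem hardy : T_hardy := H76.HN.hardy
theorem hb : T_hb := H76.HN.hb hardy
theorem pint : T_pint := H92.HN.t_pint hardy hb
theorem mul : T_mul := H29.HN.mul H76.HN.h1c H29.HN.ibh
theorem wf : T_wf := H76.HN.wf hardy hb
theorem eh : T_eh := H29.HN.eh mul wf
theorem ehp : T_ehp := H29.HN.ehp eh pint hb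
theorem divz : T_divz := H29.HN.divz H94.HN.dte hardy
theorem div : T_div := H92.HN.t_div divz pint
theorem kin : T_kin := H92.HN.t_kin div pint
theorem zf : T_zf := H29.HN.zf hardy mul
theorem momn : T_momn := H42.HN.momn eh hb
theorem poin : T_poin := H66.HN.poin H94.HN.sphc H62.HN.leg1 H62.HN.leg2 H62.HN.wirt
theorem pot : T_pot := H54.HN.pot H54.HN.fund
theorem mpt : T_mpt := H56.HN.mpt pot H42.HN.ubar H54.HN.newt2 poin
theorem mp : T_mp := H76.HN.mp mpt H94.HN.trunc hb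
theorem feas : T_feas := H76.HN.feas H29.HN.nu' momn ehp mp kin pint H94.HN.trunc hb
theorem rel : T_rel := H46.HN.rel H56.HN.dens2 H94.HN.relt
theorem rsb : T_rsb := H46.HN.rsb rel hardy hb
theorem rsp : T_rsp := H46.HN.rsp rsb pint hb
theorem ibb : T_ibb := H15.HN.ibb divz hardy hb
theorem ibp : T_ibp := H15.HN.ibp ibb pint hb zf
theorem kn : T_kn := H92.HN.t_kn ehp div rsp ibp pint hb zf
theorem cpt : T_cpt := H92.HN.t_cpt kn kin div hb zf pint
theorem pb : T_pb := H46.HN.pb rsb eh divz ibb hb hardy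
theorem momp : T_momp := H15.HN.momp pb (H15.HN.sym hardy) eh hb
theorem pos3 : T_pos3 := H92.HN.t_pos3 momp cpt kn kin hb zf pint div
theorem ja : T_ja := H62.HN.ja
theorem kf : T_kf := H62.HN.kfact
theorem hit : T_hit := H66.HN.hit ja kf
theorem hex : T_hex := H66.HN.hex ja kf hit
theorem finr : T_finr := H10.HN.FINR ja kf H94.HN.trunc
theorem pw : T_pw := H96.HN.pw H94.HN.trunc

open H85.HN in
theorem full (h0 : T_w0) (h1 : T_w1) (h2 : T_w2) (h3a : T_w3a) (h3b : T_w3b) (h4 : T_w4)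
    (h5 : T_w5) : T_full :=
  H99.HN.full (H99.HN.rad (H99.HN.theta ja h1) hex H62.HN.up
    (H85.HN.contact pw ja h0 h2 h3a h3b h4 h5) finr) feas pos3

end Pool.Agent.H99.HN.Main
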