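import Pool.Agent.H99.HN.Enc

/-!
# Enclosure of `L`
-/

namespace Pool.Agent.H99.HN.Enc

open Pool.Agent.H99.HM Pool.Agent.H99.HN Pool.Agent.H99.PC
open Pool.Agent.H97.TR (zf p nl n1 ny sl DD Lin Sin Ain phin Lxin)
open MeasureTheory Set Filter Topology Real

/-- comparison of `L` with a trial function at large radius -/
theorem V3b {s s1 Sh Ah Lh ph rho : ℝ → ℝ} {K : Finset ℝ} {eps : ℝ} (hE : Ext 0 0 s s1)
    (hT : Trial Sh Ah Lh ph rho K eps) {R ℓ C : ℝ} (hR : 1 ≤ R)
    (hℓ : ∀ r, R ≤ r → ℓ ≤ Lw s s1 r + Lh r) (hC0 : 0 ≤ C) (hC : 1 ≤ C * (ℓ - 1 / 2)) :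
    ∀ r, R ≤ r → |Lw s s1 r - Lh r| ≤ C * eps * (r * √r) := by
  have hR0 : 0 < R := by linarith
  have heps := hT.eps0
  set Q : ℝ → ℝ := fun r => √(Aw s r * Ah r) with hQ
  have hAA : ∀ r, 0 < r → 0 < Aw s r * Ah r := fun r hr => mul_pos (Aw_pos hE hr) (hT.Apos r hr)
  have hQpos : ∀ r, 0 < r → 0 < Q r := fun r hr => Real.sqrt_pos.mpr (hAA r hr)
  have hQd : ∀ r, 0 < r → HasDerivAt Q (-((Lw s s1 r + Lh r) / r) * Q r) r := by
    intro r hr
    have h1 := ((derAw (s1 := s1) hE hr).fun_mul (hT.derA r hr)).sqrt (hAA r hr).ne'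
    refine h1.congr_deriv ?_
    have hq := hQpos r hr
    have hqq : Aw s r * Ah r = Q r * Q r := (Real.mul_self_sqrt (hAA r hr).le).symm
    have e : -(2 * Lw s s1 r / r * Aw s r) * Ah r + Aw s r * -(2 * Lh r / r * Ah r) =
        -(2 * (Lw s s1 r + Lh r) / r) * (Aw s r * Ah r) := by ring
    rw [e, hqq]
    have e2 : √(Q r * Q r) = Q r := Real.sqrt_mul_self hq.le
    rw [e2]
    field_simp
  -- the product
  set P : ℝ → ℝ := fun r => qf s s1 Lh r * Q r with hP
  have hPd : ∀ r, 0 < r → HasDerivAt P ((phi 0 s r - ph r) * Q r) r := by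
    intro r hr
    refine ((derq hE hT hr).fun_mul (hQd r hr)).congr_deriv ?_
    ring
  set G : ℝ → ℝ := fun r => C * eps * √r * Q r with hG
  have hGd : ∀ r, 0 < r → HasDerivAt G (-(C * (Lw s s1 r + Lh r - 1 / 2)) * (eps / √r) * Q r) r := by
    intro r hr
    have hs : 0 < √r := Real.sqrt_pos.mpr hr
    have hss : √r ^ 2 = r := Real.sq_sqrt hr.le
    refine (((Real.hasDerivAt_sqrt hr.ne').const_mul (C * eps)).fun_mul (hQd r hr)).congr_deriv ?_
    have hr' : (Lw s s1 r + Lh r) / r = (Lw s s1 r + Lh r) / √r ^ 2 := by rw [hss]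
    rw [hr']
    field_simp
    ring
  have hbd : ∀ r, R ≤ r → |(phi 0 s r - ph r) * Q r| ≤ eps / √r * Q r := by
    intro r hr
    have hr0 : 0 < r := lt_of_lt_of_le hR0 hr
    rw [abs_mul, abs_of_pos (hQpos r hr0)]
    exact mul_le_mul_of_nonneg_right (phib hE hT hr0) (hQpos r hr0).le
  have hGle : ∀ r, R ≤ r → -(C * (Lw s s1 r + Lh r - 1 / 2)) * (eps / √r) * Q r ≤
      -(eps / √r * Q r) := by
    intro r hr
    have hr0 : 0 < r := lt_of_lt_of_le hR0 hr
    have hs : 0 < √r := Real.sqrt_pos.mpr hr0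
    have h1 : 1 ≤ C * (Lw s s1 r + Lh r - 1 / 2) :=
      hC.trans (mul_le_mul_of_nonneg_left (by linarith [hℓ r hr]) hC0)
    have h2 : 0 ≤ eps / √r * Q r := mul_nonneg (by positivity) (hQpos r hr0).le
    nlinarith
  obtain ⟨T, hT0, hTt, hX⟩ := seqX hE
  obtain ⟨C1, hC1, hw⟩ := bdiw hE
  obtain ⟨C2, ht⟩ := hT.bdi
  -- limits along the sequence
  have hlimA : Tendsto (fun n => Xw s (T n) * Ah (T n)) atTop (𝓝 0) := by
    simpa using hX.mul (hT.limA.comp hTt)
  have hlimG : Tendsto (fun n => G (T n)) atTop (𝓝 0) := by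
    have h1 : Tendsto (fun n => C * eps * √(Xw s (T n) * Ah (T n))) atTop (𝓝 0) := by
      have := (Real.continuous_sqrt.tendsto 0).comp hlimA
      rw [Real.sqrt_zero] at this
      simpa using this.const_mul (C * eps)
    refine h1.congr fun n => ?_
    have hn := hT0 n
    simp only [hG, hQ, Xw]
    rw [mul_assoc, mul_assoc (T n), Real.sqrt_mul hn.le]
    ring
  have hlimP : Tendsto (fun n => P (T n)) atTop (𝓝 0) := by
    have h1 : Tendsto (fun n => (C1 + |C2|) * √(Xw s (T n) * Ah (T n))) atTop (𝓝 0) := by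
      have := (Real.continuous_sqrt.tendsto 0).comp hlimA
      rw [Real.sqrt_zero] at this
      simpa using this.const_mul (C1 + |C2|)
    refine squeeze_zero_norm' ?_ h1
    filter_upwards [hTt.eventually (eventually_ge_atTop 1)] with n hn
    have hn0 := hT0 n
    have hA := hAA (T n) hn0
    have hq : |qf s s1 Lh (T n)| ≤ C1 + |C2| := by
      unfold qf
      rw [abs_div, abs_of_pos hn0, div_le_iff₀ hn0]
      refine (abs_sub _ _).trans ?_
      have h2 := (hw (T n) hn).1
      have h3 := (ht (T n) hn).1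
      have h4 : C2 * T n ≤ |C2| * T n := mul_le_mul_of_nonneg_right (le_abs_self _) hn0.le
      linarith
    simp only [hP, hQ, Xw]
    rw [Real.norm_eq_abs, abs_mul, abs_of_nonneg (Real.sqrt_nonneg _)]
    refine mul_le_mul hq (Real.sqrt_le_sqrt ?_) (Real.sqrt_nonneg _) (by positivity)
    nlinarith
  -- conclusion
  have key : ∀ σ : ℝ, (σ = 1 ∨ σ = -1) → ∀ r, R ≤ r → 0 ≤ G r + σ * P r := by
    intro σ hσ
    have hanti := anti_of_der (f := fun r => G r + σ * P r)
      (fun r hr => (hGd r (lt_of_lt_of_le hR0 hr)).fun_add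
        ((hPd r (lt_of_lt_of_le hR0 hr)).const_mul σ)) (a := R) (fun r hr => by
        have h1 := hGle r hr
        have h2 := abs_le.mp (hbd r hr)
        rcases hσ with h | h
        · rw [h]; linarith [h2.2]
        · rw [h]; linarith [h2.1])
    have hlim : Tendsto (fun n => G (T n) + σ * P (T n)) atTop (𝓝 0) := by
      simpa using hlimG.add (hlimP.const_mul σ)
    exact nonneg_of_anti hanti T hTt hlim
  intro r hr
  have hr0 : 0 < r := lt_of_lt_of_le hR0 hr
  have hq := hQpos r hr0
  have h1 := key 1 (Or.inl rfl) r hr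
  have h2 := key (-1) (Or.inr rfl) r hr
  have h3 : |P r| ≤ G r := by
    rw [abs_le]
    constructor <;> linarith
  simp only [hP, hG] at h3
  rw [abs_mul, abs_of_pos hq] at h3
  have h4 : |qf s s1 Lh r| ≤ C * eps * √r := le_of_mul_le_mul_right h3 hq
  unfold qf at h4
  rw [abs_div, abs_of_pos hr0, div_le_iff₀ hr0] at h4
  linarith

section interior

variable {r : ℝ}

theorem z_u (hr : 0 < r) : r = 35 * zf r / (4 * (1 - zf r)) := by
  have h1 := Pool.Agent.H97.TR.r_eq hr
  have h2 := Pool.Agent.H97.TR.zf_lt_one hr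
  have h3 : 0 < 1 - zf r := by linarith
  rw [eq_div_iff (by positivity)]
  linarith

theorem Yh_eq (hr : 0 < r) : Yh r = ev ny (zf r) / (4 * ev p (zf r) ^ 2) := by
  unfold Yh phin
  field_simp

theorem dLin (hr : 0 < r) (h : r ≤ 48) :
    HasDerivAt Lin ((Lin r ^ 2 + Lin r - Yh r) / r) r := by
  refine (Pool.Agent.H97.TR.derLin hr h).congr_deriv ?_
  have := Pool.Agent.H97.TR.phin_eq hr h
  unfold Yh
  rw [this]
  ring

theorem zf_mono {a b : ℝ} (ha : 0 < a) (h : a ≤ b) : zf a ≤ zf b := Pool.Agent.H97.TR.zf_le ha h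

theorem zf_at (a : ℝ) {b : ℝ} (h : a / (a + 35 / 4) = b) : zf a = b := h

/-- `Y(6) > 0` -/
theorem Y6 {s s1 : ℝ → ℝ} (hE : Ext 0 0 s s1) : 0 < Yw s 6 := by
  have h := (EY hE (r := 6) (by norm_num) (by norm_num)).2
  have hz : zf 6 = 24 / 59 := by unfold Pool.Agent.H97.TR.zf; norm_num
  have hp := Pool.Agent.H97.TR.p_pos (z := 24 / 59) (by norm_num) (by norm_num)
  have hc : pchk (.sub (.L ny) (.mul (.L p) (.L p))) 400 24 24 59 = true := by decide +kernel
  have h1 := pchk_sound (by norm_num) hc (x := 24 / 59) (by norm_num) (by norm_num)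
  simp only [PE.ev] at h1
  have h2 : 1 / 4 ≤ Yh 6 := by
    rw [Yh_eq (by norm_num), hz, div_le_div_iff₀ (by norm_num) (by positivity)]
    nlinarith
  have h3 := (abs_le.mp h).1
  unfold eY at h3
  norm_num at h3
  linarith

/-- numerator of `eTb` in the variable `z` -/
def dn : List ℤ := [5600, -4200, -175]

theorem eTb_z {z : ℝ} (hz : 1 - z ≠ 0) : eTb (35 * z / (4 * (1 - z))) =
    ev dn z / (800 * (1 - z) ^ 2) / 10 ^ 4 := by
  unfold eTb
  simp only [dn, ev]
  push_cast
  field_simp
  ring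

/-- the check for the backward barrier -/
def qb : PE := .sub
  (.mul (.C (3 * 10 ^ 4)) (.mul (.L dn) (.mul (.L [800, -1600, 800]) (.add (.L nl) (.L p)))))
  (.add (.mul (.C 3) (.mul (.L p) (.mul (.L dn) (.L dn))))
    (.mul (.C (10 ^ 4)) (.mul (.L p)
      (.mul (.L [1, -2, 1]) (.mul (.L [0, 1]) (.L [42000000, -11620000]))))))

theorem qb_chk : pchkL (.sub qb (.C 1)) 500 2043 [454, 800, 1200, 1500, 1728] = true := by
  decide +kernel

theorem Tb_ineq (h1 : 5 / 2 ≤ r) (h2 : r ≤ 48) :
    0 < eTb r * (2 * Lin r + 1 - eTb r) - eY r - (r + r ^ 2 / 25) / 10 ^ 4 := by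
  have hr : 0 < r := by linarith
  have hz0 := Pool.Agent.H97.TR.zf_pos hr
  have hz1 := Pool.Agent.H97.TR.zf_lt_one hr
  have hu : 0 < 1 - zf r := by linarith
  have hzu := z_u hr
  have hlo : 454 / 2043 ≤ zf r := by
    have := zf_mono (by norm_num) h1
    rwa [zf_at (5 / 2) (b := 454 / 2043) (by norm_num)] at this
  have hhi : zf r ≤ 1728 / 2043 := by
    have := Pool.Agent.H97.TR.zf_le48 hr h2
    linarith
  have hp := Pool.Agent.H97.TR.p_pos hz0.le (Pool.Agent.H97.TR.zf_le48 hr h2)
  have hc := pchkL_sound (by norm_num) _ _ _ 1728 qb_chk rfl (zf r) (by push_cast; linarith)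
    (by push_cast; linarith)
  have he : eTb r = ev dn (zf r) / (800 * (1 - zf r) ^ 2) / 10 ^ 4 := by
    rw [← eTb_z hu.ne', ← hzu]
  have key : eTb r * (2 * Lin r + 1 - eTb r) - eY r - (r + r ^ 2 / 25) / 10 ^ 4 =
      qb.ev (zf r) / (3 * 10 ^ 8 * ev p (zf r) * (800 * (1 - zf r) ^ 2) ^ 2) := by
    rw [he]
    unfold eY Lin
    generalize zf r = z at *
    subst hzu
    simp only [qb, PE.ev, ev]
    generalize ev p z = b at *
    generalize ev dn z = d at *
    generalize ev nl z = n at *
    push_cast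
    field_simp
    ring
  rw [key]
  simp only [PE.ev] at hc
  push_cast at hc
  have : 0 < qb.ev (zf r) := by linarith
  positivity

/-- the check for the forward barrier -/
def qfw : PE := .sub (.sub
  (.mul (.C (10 ^ 4)) (.mul (.L p) (.mul (.L [1, -2, 1]) (.L [-96, 3176]))))
  (.mul (.C (48 * 10 ^ 4)) (.mul (.L [4, 31]) (.mul (.L [1, -2, 1]) (.add (.L nl) (.L p))))))
  (.mul (.L [0, 105]) (.mul (.L p) (.mul (.L [4, 31]) (.L [4, 31]))))

theorem qfw_chk : pchkL qfw 500 9 [0, 1, 2] = true := by decide +kernel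

theorem Tf_ineq (hr : 0 < r) (h2 : r ≤ 5 / 2) :
    eTf r * (2 * Lin r + 1 + eTf r) + eY r ≤ (r + 2 * r ^ 2) / 10 ^ 4 := by
  have h48 : r ≤ 48 := by linarith
  have hz0 := Pool.Agent.H97.TR.zf_pos hr
  have hz1 := Pool.Agent.H97.TR.zf_lt_one hr
  have hu : 0 < 1 - zf r := by linarith
  have hzu := z_u hr
  have hhi : zf r ≤ 2 / 9 := by
    have := zf_mono hr h2
    rwa [zf_at (5 / 2) (b := 2 / 9) (by norm_num)] at this
  have hp := Pool.Agent.H97.TR.p_pos hz0.le (Pool.Agent.H97.TR.zf_le48 hr h48)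
  have hc := pchkL_sound (by norm_num) _ _ _ 2 qfw_chk rfl (zf r)
    (by push_cast; simpa using hz0.le) (by push_cast; linarith)
  rw [← sub_nonneg]
  have key : (r + 2 * r ^ 2) / 10 ^ 4 - (eTf r * (2 * Lin r + 1 + eTf r) + eY r) =
      r * (qfw.ev (zf r) / (3 * 10 ^ 8 * ev p (zf r) * (64 * (1 - zf r) ^ 3))) := by
    unfold eY eTf Lin
    generalize zf r = z at *
    subst hzu
    simp only [qfw, PE.ev, ev]
    generalize ev p z = b at *
    generalize ev nl z = n at *
    push_cast
    field_simp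
    ring
  rw [key]
  positivity

end interior

/-- the enclosure of `L` -/
theorem et : ET := by
  intro s s1 hE
  have hr48 : ∀ r : ℝ, 0 < r → r ≤ 48 → HasDerivAt (fun r => Lw s s1 r - Lin r)
      (((Lw s s1 r - Lin r) * (Lw s s1 r + Lin r + 1) - (Yw s r - Yh r)) / r) r := by
    intro r hr h
    refine ((dL hE hr).fun_sub (dLin hr h)).congr_deriv ?_
    ring
  constructor
  · -- forward
    obtain ⟨C1, hC1, hw⟩ := bd0w hE
    obtain ⟨C2, ht⟩ := Pool.Agent.H97.TR.trial.bd0
    have key : ∀ τ : ℝ, (τ = 1 ∨ τ = -1) → ∀ r ∈ Ioc (0 : ℝ) (5 / 2),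
        τ * (Lw s s1 r - Lin r) - eTf r ≤ 0 := by
      intro τ hτ
      have hτ1 : |τ| = 1 := by rcases hτ with h | h <;> rw [h] <;> norm_num
      have hτ2 : τ * τ = 1 := by rcases hτ with h | h <;> rw [h] <;> norm_num
      set δ : ℝ := min 1 (1 / (4 * (C1 + |C2| + 1))) with hδ
      have hC : 0 < C1 + |C2| + 1 := by positivity
      have hδ0 : 0 < δ := by positivity
      have hnear : ∀ r ∈ Ioc 0 δ, |Lw s s1 r + 1| ≤ 1 / 4 ∧ |Lin r + 1| ≤ 1 / 4 := by
        intro r hr
        have hr1 : r ≤ 1 := hr.2.trans (min_le_left _ _)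
        have h1 := (hw r ⟨hr.1, hr1⟩).1
        have h2 := (ht r ⟨hr.1, hr1⟩).1
        rw [Pool.Agent.H97.TR.Lh_eq (by linarith)] at h2
        have h3 : r ≤ 1 / (4 * (C1 + |C2| + 1)) := hr.2.trans (min_le_right _ _)
        rw [le_div_iff₀ (by positivity)] at h3
        have h4 : C2 * r ≤ |C2| * r := mul_le_mul_of_nonneg_right (le_abs_self _) hr.1.le
        have h5 := abs_nonneg C2
        have h6 := hr.1
        constructor <;> nlinarith
      refine fwd0 (f := fun r => τ * (Lw s s1 r - Lin r) - eTf r)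
        (f1 := fun r => (τ * ((Lw s s1 r - Lin r) * (Lw s s1 r + Lin r + 1) - (Yw s r - Yh r)) -
          (r + 2 * r ^ 2) / 10 ^ 4) / r) (b := 5 / 2) (C := 1) hδ0 ?_ ?_ ?_ ?_
      · intro r hr
        have h1 := (hr48 r hr.1 (by linarith [hr.2])).const_mul τ
        have h2 : HasDerivAt eTf ((1 + 2 * r) / 10 ^ 4) r := by
          unfold eTf
          have := ((hasDerivAt_id' r).fun_add ((hasDerivAt_id' r).fun_pow 2)).div_const (10 ^ 4)
          refine this.congr_deriv ?_
          push_cast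
          ring
        refine (h1.fun_sub h2).congr_deriv ?_
        have := hr.1
        field_simp
      · intro r hr
        obtain ⟨h1, h2⟩ := hnear r hr
        have h3 : |τ * (Lw s s1 r - Lin r)| ≤ 1 / 2 := by
          rw [abs_mul, hτ1, one_mul]
          have : Lw s s1 r - Lin r = (Lw s s1 r + 1) - (Lin r + 1) := by ring
          rw [this]
          refine (abs_sub _ _).trans ?_
          linarith
        have h4 : 0 ≤ eTf r := by
          unfold eTf
          have := hr.1
          positivity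
        have := (abs_le.mp h3).2
        linarith
      · intro r hr hf
        obtain ⟨h1, h2⟩ := hnear r hr
        have hr0 := hr.1
        have hr1 : r ≤ 1 := hr.2.trans (min_le_left _ _)
        have hY := (EY hE hr0 (by linarith)).1
        have hs1 : √r ≤ 1 := Real.sqrt_le_one.mpr hr1
        have h3 := (abs_le.mp h1).2
        have h4 := (abs_le.mp h2).2
        have heT : 0 ≤ eTf r := by unfold eTf; positivity
        rw [mul_div_cancel₀ _ hr0.ne']
        have h5 : 0 < τ * (Lw s s1 r - Lin r) := by linarith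
        have h6 : τ * ((Lw s s1 r - Lin r) * (Lw s s1 r + Lin r + 1)) ≤
            -(τ * (Lw s s1 r - Lin r)) / 2 := by nlinarith
        have h7 : -(τ * (Yw s r - Yh r)) ≤ r * √r / 10 ^ 4 := by
          have : |τ * (Yw s r - Yh r)| ≤ r * √r / 10 ^ 4 := by
            rw [abs_mul, hτ1, one_mul]
            exact hY
          linarith [(abs_le.mp this).1]
        have h8 : r * √r ≤ r * 1 := mul_le_mul_of_nonneg_left hs1 hr0.le
        have h9 : r * √r / 10 ^ 4 ≤ (r + 2 * r ^ 2) / 10 ^ 4 :=
          div_le_div_of_nonneg_right (by nlinarith) (by positivity)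
        linarith
      · intro r hr hf
        have hr0 := hr.1
        have hY := (EY hE hr0 (by linarith [hr.2])).1
        have hin := Tf_ineq hr0 hr.2
        have heT : 0 < eTf r := by unfold eTf; positivity
        have hs : 0 < √r := Real.sqrt_pos.mpr hr0
        have hss : √r * √r = r := Real.mul_self_sqrt hr0.le
        have hlt : r * √r / 10 ^ 4 < eY r := by
          unfold eY
          refine div_lt_div_of_pos_right ?_ (by positivity)
          have : √r ≠ 3 := by
            intro h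
            rw [h] at hss
            linarith [hr.2]
          have h3 : 0 < (√r - 3) ^ 2 := by
            have : √r - 3 ≠ 0 := sub_ne_zero.mpr this
            positivity
          nlinarith
        have hZ : Lw s s1 r - Lin r = τ * eTf r := by
          have : τ * (Lw s s1 r - Lin r) = eTf r := by linarith
          calc Lw s s1 r - Lin r = τ * τ * (Lw s s1 r - Lin r) := by rw [hτ2, one_mul]
            _ = τ * (τ * (Lw s s1 r - Lin r)) := by ring
            _ = τ * eTf r := by rw [this]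
        have hL : Lw s s1 r + Lin r + 1 = 2 * Lin r + 1 + τ * eTf r := by linarith
        have h7 : -(τ * (Yw s r - Yh r)) ≤ r * √r / 10 ^ 4 := by
          have : |τ * (Yw s r - Yh r)| ≤ r * √r / 10 ^ 4 := by
            rw [abs_mul, hτ1, one_mul]
            exact hY
          linarith [(abs_le.mp this).1]
        have hτle : τ ≤ 1 := by rcases hτ with h | h <;> rw [h] <;> norm_num
        refine div_neg_of_neg_of_pos ?_ hr0
        rw [hZ, hL]
        have h8 : τ * (τ * eTf r * (2 * Lin r + 1 + τ * eTf r) - (Yw s r - Yh r)) =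
            eTf r * (2 * Lin r + 1 + τ * eTf r) * (τ * τ) - τ * (Yw s r - Yh r) := by ring
        rw [h8, hτ2, mul_one]
        have h9 : eTf r * (2 * Lin r + 1 + τ * eTf r) ≤ eTf r * (2 * Lin r + 1 + eTf r) := by
          have : τ * eTf r ≤ 1 * eTf r := mul_le_mul_of_nonneg_right hτle heT.le
          exact mul_le_mul_of_nonneg_left (by linarith) heT.le
        linarith
    intro r hr h2
    have h3 := key 1 (Or.inl rfl) r ⟨hr, h2⟩
    have h4 := key (-1) (Or.inr rfl) r ⟨hr, h2⟩
    rw [abs_le]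
    constructor <;> linarith
  · -- backward
    have hY6 := Y6 hE
    have hLpos : ∀ r, 6 ≤ r → 0 < Lw s s1 r := fun r hr => L_pos hE (by norm_num) hY6 hr
    have hmono := L_mono hE (a := 6) (by norm_num) hY6
    have hLh : ∀ r, 48 ≤ r → 29 / 10 ≤ Pool.Agent.H97.TR.Lh r := by
      intro r hr
      rcases hr.lt_or_eq with h | h
      · rw [Pool.Agent.H97.TR.Lh_eq' h]
        exact Pool.Agent.H97.TR.Lout_ge hr
      · rw [← h, Pool.Agent.H97.TR.Lh_eq le_rfl]
        have := Pool.Agent.H97.TR.L48.1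
        linarith
    have hs48 : √48 ≤ 7 := by
      rw [show (7 : ℝ) = √(7 ^ 2) by rw [Real.sqrt_sq (by norm_num)]]
      exact Real.sqrt_le_sqrt (by norm_num)
    have hL48 := Pool.Agent.H97.TR.L48.1
    have hL48' := Pool.Agent.H97.TR.Lh_eq (r := 48) le_rfl
    have st1 := V3b hE Pool.Agent.H97.TR.trial (R := 48) (ℓ := 29 / 10) (C := 42 / 100)
      (by norm_num) (fun r hr => by linarith [hLpos r (by linarith), hLh r hr]) (by norm_num)
      (by norm_num) 48 le_rfl
    rw [hL48'] at st1
    have hL48w : 29 / 10 + 1 / 100 ≤ Lw s s1 48 := by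
      have h1 := (abs_le.mp st1).1
      have h2 : 42 / 100 * (1 / 10000) * (48 * √48) ≤ 42 / 100 * (1 / 10000) * (48 * 7) := by
        gcongr
      norm_num at h2 hL48
      linarith
    have st2 := V3b hE Pool.Agent.H97.TR.trial (R := 48) (ℓ := 581 / 100) (C := 19 / 100)
      (by norm_num) (fun r hr => by
        have h1 := hmono (a := 48) (b := r) (by simp; norm_num) (by simp; linarith) hr
        linarith [hLh r hr]) (by norm_num)
      (by norm_num) 48 le_rfl
    rw [hL48'] at st2
    have hend : |Lw s s1 48 - Lin 48| < eTb 48 := by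
      refine st2.trans_lt ?_
      have h2 : 19 / 100 * (1 / 10000) * (48 * √48) ≤ 19 / 100 * (1 / 10000) * (48 * 7) := by
        gcongr
      refine h2.trans_lt ?_
      unfold eTb
      norm_num
    have key : ∀ τ : ℝ, (τ = 1 ∨ τ = -1) → ∀ r ∈ Icc (5 / 2 : ℝ) 48,
        τ * (Lw s s1 r - Lin r) - eTb r < 0 := by
      intro τ hτ
      have hτ1 : |τ| = 1 := by rcases hτ with h | h <;> rw [h] <;> norm_num
      have hτ2 : τ * τ = 1 := by rcases hτ with h | h <;> rw [h] <;> norm_num
      refine bwd (f := fun r => τ * (Lw s s1 r - Lin r) - eTb r)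
        (f1 := fun r => (τ * ((Lw s s1 r - Lin r) * (Lw s s1 r + Lin r + 1) - (Yw s r - Yh r)) -
          (r + r ^ 2 / 25) / 10 ^ 4) / r) ?_ ?_ ?_
      · intro r hr
        have hr0 : 0 < r := by linarith [hr.1]
        have h1 := (hr48 r hr0 hr.2).const_mul τ
        have h2 : HasDerivAt eTb ((1 + r / 25) / 10 ^ 4) r := by
          unfold eTb
          have := (((hasDerivAt_id' r).const_add 7).fun_add
            (((hasDerivAt_id' r).fun_pow 2).div_const 50)).div_const (10 ^ 4)
          refine this.congr_deriv ?_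
          push_cast
          ring
        refine (h1.fun_sub h2).congr_deriv ?_
        field_simp
      · have h1 : τ * (Lw s s1 48 - Lin 48) ≤ |Lw s s1 48 - Lin 48| := by
          calc τ * (Lw s s1 48 - Lin 48) ≤ |τ * (Lw s s1 48 - Lin 48)| := le_abs_self _
            _ = |Lw s s1 48 - Lin 48| := by rw [abs_mul, hτ1, one_mul]
        linarith
      · intro r hr hf
        have hr0 : 0 < r := by linarith [hr.1]
        have hY := (EY hE hr0 hr.2).2
        have hin := Tb_ineq hr.1 hr.2
        have heT : 0 < eTb r := by unfold eTb; positivity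
        have hZ : Lw s s1 r - Lin r = τ * eTb r := by
          have : τ * (Lw s s1 r - Lin r) = eTb r := by linarith
          calc Lw s s1 r - Lin r = τ * τ * (Lw s s1 r - Lin r) := by rw [hτ2, one_mul]
            _ = τ * (τ * (Lw s s1 r - Lin r)) := by ring
            _ = τ * eTb r := by rw [this]
        have hL : Lw s s1 r + Lin r + 1 = 2 * Lin r + 1 + τ * eTb r := by linarith
        have h7 : τ * (Yw s r - Yh r) ≤ eY r := by
          have : |τ * (Yw s r - Yh r)| ≤ eY r := by
            rw [abs_mul, hτ1, one_mul]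
            exact hY
          exact (abs_le.mp this).2
        have hτle : -1 ≤ τ := by rcases hτ with h | h <;> rw [h] <;> norm_num
        refine div_pos ?_ hr0
        rw [hZ, hL]
        have h8 : τ * (τ * eTb r * (2 * Lin r + 1 + τ * eTb r) - (Yw s r - Yh r)) =
            eTb r * (2 * Lin r + 1 + τ * eTb r) * (τ * τ) - τ * (Yw s r - Yh r) := by ring
        rw [h8, hτ2, mul_one]
        have h9 : eTb r * (2 * Lin r + 1 - eTb r) ≤ eTb r * (2 * Lin r + 1 + τ * eTb r) := by
          have : (-1) * eTb r ≤ τ * eTb r := mul_le_mul_of_nonneg_right hτle heT.le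
          exact mul_le_mul_of_nonneg_left (by linarith) heT.le
        linarith
    intro r hr h2
    have h3 := key 1 (Or.inl rfl) r ⟨hr, h2⟩
    have h4 := key (-1) (Or.inr rfl) r ⟨hr, h2⟩
    rw [abs_le]
    constructor <;> linarith

end Pool.Agent.H99.HN.Enc
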