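import Pool.Agent.H99.HN.Trial

/-!
# The convexity inequality and the pointwise bound for the potential
-/

namespace Pool.Agent.H99.HN

open Pool.Agent.H99.HM
open MeasureTheory Set Filter Topology Real

section compare

variable {s s1 Sh Ah Lh ph rho : ℝ → ℝ} {K : Finset ℝ} {eps : ℝ}

theorem F_lim0 (hE : Ext 0 0 s s1) (hT : Trial Sh Ah Lh ph rho K eps) :
    Tendsto (Ff s s1 Sh Ah Lh ph) (𝓝[>] 0) (𝓝 0) := by
  obtain ⟨C, hC, hw⟩ := bd0w hE
  obtain ⟨D0, ht0⟩ := hT.bd0
  set D := max D0 0 with hD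
  have hD0 : 0 ≤ D := le_max_right _ _
  have ht : ∀ r ∈ Ioc (0 : ℝ) 1,
      |Lh r + 1| ≤ D * r ∧ Ah r ≤ D * r ^ 2 ∧ |Sh r| ≤ D * r ^ 3 ∧ |ph r| ≤ D / r := by
    intro r hr
    obtain ⟨h1, h2, h3, h4⟩ := ht0 r hr
    have hr0 := hr.1
    have hle : D0 ≤ D := le_max_left _ _
    refine ⟨h1.trans ?_, h2.trans ?_, h3.trans ?_, h4.trans ?_⟩
    · gcongr
    · gcongr
    · gcongr
    · gcongr
  have hbd : ∀ r ∈ Ioc (0 : ℝ) 1, |Ff s s1 Sh Ah Lh ph r| ≤ 2 * (C + D) ^ 2 * r ^ 2 := by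
    intro r hr
    obtain ⟨w1, w2, w3, w4⟩ := hw r hr
    obtain ⟨t1, t2, t3, t4⟩ := ht r hr
    have hr0 := hr.1
    have hA : 0 < Ah r := hT.Apos r hr0
    have ha : 0 < Aw s r := Aw_pos hE hr0
    have e1 : |Ah r - Aw s r| ≤ (C + D) * r ^ 2 := by
      rw [abs_le]; constructor <;> nlinarith
    have e2 : |qf s s1 Lh r| ≤ C + D := by
      unfold qf
      rw [abs_div, abs_of_pos hr0, div_le_iff₀ hr0]
      have : Lw s s1 r - Lh r = (Lw s s1 r + 1) - (Lh r + 1) := by ring
      rw [this]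
      refine (abs_sub _ _).trans ?_
      nlinarith
    have e3 : |Sh r - Sf s r| ≤ (C + D) * r ^ 3 := by
      refine (abs_sub _ _).trans ?_
      nlinarith
    have e4 : |phi 0 s r - ph r| ≤ (C + D) / r := by
      refine (abs_sub _ _).trans ?_
      rw [add_div]
      exact add_le_add w4 t4
    have hCD : 0 < C + D := by positivity
    unfold Ff
    refine (abs_sub _ _).trans ?_
    rw [abs_mul, abs_mul]
    have f1 : |Ah r - Aw s r| * |qf s s1 Lh r| ≤ ((C + D) * r ^ 2) * (C + D) :=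
      mul_le_mul e1 e2 (abs_nonneg _) (by positivity)
    have f2 : |Sh r - Sf s r| * |phi 0 s r - ph r| ≤ ((C + D) * r ^ 3) * ((C + D) / r) :=
      mul_le_mul e3 e4 (abs_nonneg _) (by positivity)
    have f3 : ((C + D) * r ^ 3) * ((C + D) / r) = (C + D) ^ 2 * r ^ 2 := by
      field_simp
    rw [f3] at f2
    linarith
  have hg : Tendsto (fun r : ℝ => 2 * (C + D) ^ 2 * r ^ 2) (𝓝[>] 0) (𝓝 0) := by
    have : Tendsto (fun r : ℝ => 2 * (C + D) ^ 2 * r ^ 2) (𝓝 0) (𝓝 (2 * (C + D) ^ 2 * 0 ^ 2)) :=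
      (continuous_const.mul (continuous_pow 2)).tendsto 0
    simpa using this.mono_left nhdsWithin_le_nhds
  refine squeeze_zero_norm' ?_ hg
  have hm : Ioc (0 : ℝ) 1 ∈ 𝓝[>] (0 : ℝ) := Ioc_mem_nhdsGT one_pos
  filter_upwards [hm] with r hr
  exact hbd r hr

theorem F_limi (hE : Ext 0 0 s s1) (hT : Trial Sh Ah Lh ph rho K eps) :
    Tendsto (Ff s s1 Sh Ah Lh ph) atTop (𝓝 0) := by
  have hF := Main.facts 0 0 s s1 hE
  obtain ⟨C, hC, hw⟩ := bdiw hE
  obtain ⟨D, ht⟩ := hT.bdi
  have hA : Tendsto (fun r => Ah r - Aw s r) atTop (𝓝 0) := by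
    have h1 : Tendsto (Aw s) atTop (𝓝 (4 * π * 0 ^ 2)) := (hF.slim.pow 2).const_mul _
    simpa using hT.limA.sub h1
  have hp : Tendsto (fun r => phi 0 s r - ph r) atTop (𝓝 0) := by
    simpa using hF.phiLim.sub hT.limp
  have hq : ∀ r, 1 ≤ r → |qf s s1 Lh r| ≤ C + |D| := by
    intro r hr
    have hr0 : 0 < r := by linarith
    unfold qf
    rw [abs_div, abs_of_pos hr0, div_le_iff₀ hr0]
    refine (abs_sub _ _).trans ?_
    have := (hw r hr).1
    have := (ht r hr).1
    nlinarith [le_abs_self D]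
  have hd : ∀ r, 1 ≤ r → |Sh r - Sf s r| ≤ C + |D| := by
    intro r hr
    refine (abs_sub _ _).trans ?_
    have := (hw r hr).2
    have := (ht r hr).2
    linarith [le_abs_self D]
  have hb : ∀ᶠ r : ℝ in atTop, 1 ≤ r := eventually_ge_atTop 1
  have l1 : Tendsto (fun r => (Ah r - Aw s r) * qf s s1 Lh r) atTop (𝓝 0) := by
    refine squeeze_zero_norm' (a := fun r => |Ah r - Aw s r| * (C + |D|)) ?_ ?_
    · filter_upwards [hb] with r hr
      rw [Real.norm_eq_abs, abs_mul]
      exact mul_le_mul_of_nonneg_left (hq r hr) (abs_nonneg _)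
    · simpa using (hA.abs).mul_const (C + |D|)
  have l2 : Tendsto (fun r => (Sh r - Sf s r) * (phi 0 s r - ph r)) atTop (𝓝 0) := by
    refine squeeze_zero_norm' (a := fun r => (C + |D|) * |phi 0 s r - ph r|) ?_ ?_
    · filter_upwards [hb] with r hr
      rw [Real.norm_eq_abs, abs_mul]
      exact mul_le_mul_of_nonneg_right (hd r hr) (abs_nonneg _)
    · simpa using (hp.abs).const_mul (C + |D|)
  have l3 := l1.sub l2
  rw [sub_zero] at l3
  exact l3

/-- square integrability of `δ/r` -/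
theorem intd (hE : Ext 0 0 s s1) (hT : Trial Sh Ah Lh ph rho K eps) :
    IntegrableOn (fun r => (Sh r - Sf s r) ^ 2 / r ^ 2) (Ioi 0) := by
  obtain ⟨C, hC, hw⟩ := bd0w hE
  obtain ⟨D, ht⟩ := hT.bd0
  obtain ⟨C', hC', hw'⟩ := bdiw hE
  obtain ⟨D', ht'⟩ := hT.bdi
  have hcont : ContinuousOn (fun r => (Sh r - Sf s r) ^ 2 / r ^ 2) (Ioi 0) := by
    intro r hr
    have hr : 0 < r := hr
    exact (((hT.derS r hr).continuousAt.sub (derSw hE hr).continuousAt).pow 2 |>.div
      (continuousAt_id.pow 2) (pow_ne_zero 2 hr.ne')).continuousWithinAt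
  have hsplit : Ioi (0 : ℝ) = Ioc 0 1 ∪ Ioi 1 := (Ioc_union_Ioi_eq_Ioi zero_le_one).symm
  rw [hsplit]
  refine IntegrableOn.union ?_ ?_
  · have hi0 : IntegrableOn (fun _ : ℝ => (C + |D|) ^ 2) (Ioc 0 1) :=
      continuous_const.integrableOn_Ioc
    refine hi0.mono' ((hcont.mono Ioc_subset_Ioi_self).aestronglyMeasurable measurableSet_Ioc) ?_
    refine (ae_restrict_iff' measurableSet_Ioc).mpr (Eventually.of_forall fun r hr => ?_)
    have hr0 := hr.1
    have e3 : |Sh r - Sf s r| ≤ (C + |D|) * r := by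
      refine (abs_sub _ _).trans ?_
      have h1 := (hw r hr).2.2.1
      have h2 := (ht r hr).2.2.1
      have h3 : r ^ 3 ≤ r := by nlinarith [hr.2, mul_pos hr0 hr0]
      nlinarith [le_abs_self D, abs_nonneg D, pow_pos hr0 3]
    rw [Real.norm_eq_abs, abs_of_nonneg (by positivity), div_le_iff₀ (by positivity), ← mul_pow,
      ← sq_abs]
    exact pow_le_pow_left₀ (abs_nonneg _) e3 2
  · have hi : IntegrableOn (fun r : ℝ => (C' + |D'|) ^ 2 * r ^ (-2 : ℝ)) (Ioi 1) :=
      (integrableOn_Ioi_rpow_of_lt (by norm_num) one_pos).const_mul _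
    refine hi.mono' ((hcont.mono (Ioi_subset_Ioi zero_le_one)).aestronglyMeasurable
      measurableSet_Ioi) ?_
    refine (ae_restrict_iff' measurableSet_Ioi).mpr (Eventually.of_forall fun r hr => ?_)
    have hr1 : 1 ≤ r := le_of_lt hr
    have hr0 : 0 < r := by linarith
    have e3 : |Sh r - Sf s r| ≤ C' + |D'| := by
      refine (abs_sub _ _).trans ?_
      have h1 := (hw' r hr1).2
      have h2 := (ht' r hr1).2
      linarith [le_abs_self D']
    rw [Real.norm_eq_abs, abs_of_nonneg (by positivity), Real.rpow_neg hr0.le, div_eq_mul_inv]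
    have : r ^ (2 : ℝ) = r ^ 2 := by norm_cast
    rw [this]
    refine mul_le_mul_of_nonneg_right ?_ (by positivity)
    rw [← sq_abs]
    exact pow_le_pow_left₀ (abs_nonneg _) e3 2

theorem contd (hE : Ext 0 0 s s1) (hT : Trial Sh Ah Lh ph rho K eps) :
    ContinuousOn (fun r => (Sh r - Sf s r) / r) (Ioi 0) := by
  intro r hr
  have hr : 0 < r := hr
  exact (((hT.derS r hr).continuousAt.sub (derSw hE hr).continuousAt).div continuousAt_id
    hr.ne').continuousWithinAt

theorem intdr (hE : Ext 0 0 s s1) (hT : Trial Sh Ah Lh ph rho K eps) :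
    IntegrableOn (fun r => (Sh r - Sf s r) * rho r / r ^ 2) (Ioi 0) := by
  have h1 := intd hE hT
  have h2 := hT.rint
  refine (h1.add h2).mono' ?_ ?_
  · have m1 : AEStronglyMeasurable (fun r : ℝ => (Sh r - Sf s r) / r) (volume.restrict (Ioi 0)) :=
      (contd hE hT).aestronglyMeasurable measurableSet_Ioi
    have m2 : AEStronglyMeasurable (fun r : ℝ => rho r * r⁻¹) (volume.restrict (Ioi 0)) :=
      hT.meas.mul (measurable_id.inv.aestronglyMeasurable)
    refine (m1.mul m2).congr (Eventually.of_forall fun r => ?_)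
    simp only [Pi.mul_apply]
    ring
  · refine (ae_restrict_iff' measurableSet_Ioi).mpr (Eventually.of_forall fun r hr => ?_)
    have hr : 0 < r := hr
    rw [Real.norm_eq_abs, abs_div, abs_of_pos (by positivity : (0 : ℝ) < r ^ 2), Pi.add_apply,
      ← add_div]
    refine div_le_div_of_nonneg_right ?_ (by positivity)
    rw [abs_mul]
    nlinarith [sq_nonneg (|Sh r - Sf s r| - |rho r|), sq_abs (Sh r - Sf s r), sq_abs (rho r),
      abs_nonneg (Sh r - Sf s r), abs_nonneg (rho r)]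

/-- the fundamental theorem of calculus for `F` -/
theorem ftcF (hE : Ext 0 0 s s1) (hT : Trial Sh Ah Lh ph rho K eps) {a b : ℝ} (ha : 0 < a)
    (hab : a ≤ b) : IntervalIntegrable (Ff1 s s1 Sh Ah Lh rho) volume a b ∧
    ∫ r in a..b, Ff1 s s1 Sh Ah Lh rho r = Ff s s1 Sh Ah Lh ph b - Ff s s1 Sh Ah Lh ph a := by
  have hsub : Icc a b ⊆ Ioi 0 := fun r hr => lt_of_lt_of_le ha hr.1
  have hint : IntervalIntegrable (Ff1 s s1 Sh Ah Lh rho) volume a b := by
    have c1 : ContinuousOn (fun r => (Ah r + Aw s r) * qf s s1 Lh r ^ 2) (Icc a b) := by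
      intro r hr
      have hr : 0 < r := hsub hr
      exact (((hT.derA r hr).continuousAt.add (derAw hE hr).continuousAt).mul
        ((derq hE hT hr).continuousAt.pow 2)).continuousWithinAt
    have i1 : IntervalIntegrable (fun r => (Ah r + Aw s r) * qf s s1 Lh r ^ 2) volume a b := by
      refine ContinuousOn.intervalIntegrable ?_
      rwa [uIcc_of_le hab]
    have i2 : IntegrableOn (fun r => (Sh r - Sf s r) ^ 2 / r ^ 2 +
        (Sh r - Sf s r) * rho r / r ^ 2) (Ioi 0) := (intd hE hT).add (intdr hE hT)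
    have i3 : IntervalIntegrable (fun r => (Sh r - Sf s r) ^ 2 / r ^ 2 +
        (Sh r - Sf s r) * rho r / r ^ 2) volume a b := by
      rw [intervalIntegrable_iff_integrableOn_Ioc_of_le hab]
      exact i2.mono_set fun r hr => ha.trans hr.1
    refine (i1.add i3).congr ?_
    intro r _
    unfold Ff1
    ring
  refine ⟨hint, ?_⟩
  refine integral_eq_of_hasDerivAt_off_countable_of_le _ _ hab (s := (K : Set ℝ))
    K.countable_toSet ((contF hE hT).mono hsub) ?_ hint
  intro r hr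
  exact derF hE hT (ha.trans hr.1.1) hr.2

/-- the convexity inequality -/
theorem conv (hE : Ext 0 0 s s1) (hT : Trial Sh Ah Lh ph rho K eps) :
    (∫ r in Ioi (0 : ℝ), (Sh r - Sf s r) ^ 2 / r ^ 2) +
      (∫ r in Ioi (0 : ℝ), (Sh r - Sf s r) * rho r / r ^ 2) ≤ 0 := by
  have i1 := intd hE hT
  have i2 := intdr hE hT
  rw [← integral_add i1 i2]
  set g : ℝ → ℝ := fun r => (Sh r - Sf s r) ^ 2 / r ^ 2 + (Sh r - Sf s r) * rho r / r ^ 2 with hg
  have ig : IntegrableOn g (Ioi 0) := i1.add i2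
  have key : ∀ a b : ℝ, 0 < a → a ≤ b →
      ∫ r in a..b, g r ≤ Ff s s1 Sh Ah Lh ph b - Ff s s1 Sh Ah Lh ph a := by
    intro a b ha hab
    obtain ⟨h1, h2⟩ := ftcF hE hT ha hab
    rw [← h2]
    refine intervalIntegral.integral_mono_on hab ?_ h1 ?_
    · rw [intervalIntegrable_iff_integrableOn_Ioc_of_le hab]
      exact ig.mono_set fun r hr => ha.trans hr.1
    · intro r hr
      have hr0 : 0 < r := lt_of_lt_of_le ha hr.1
      have := hT.Apos r hr0
      have := Aw_pos hE hr0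
      have h3 : 0 ≤ (Ah r + Aw s r) * qf s s1 Lh r ^ 2 := by positivity
      simp only [hg, Ff1, add_div]
      linarith
  -- let a → 0 and b → ∞
  have lim1 : Tendsto (fun n : ℕ => ∫ r in (1 / ((n : ℝ) + 1))..((n : ℝ) + 1), g r) atTop
      (𝓝 (∫ r in Ioi (0 : ℝ), g r)) := by
    have ha : Tendsto (fun n : ℕ => 1 / ((n : ℝ) + 1)) atTop (𝓝 0) :=
      tendsto_one_div_add_atTop_nhds_zero_nat
    have hb : Tendsto (fun n : ℕ => (n : ℝ) + 1) atTop atTop :=
      tendsto_atTop_add_const_right _ _ tendsto_natCast_atTop_atTop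
    have hcov : AECover (volume.restrict (Ioi (0 : ℝ))) atTop
        (fun n : ℕ => Ioc (1 / ((n : ℝ) + 1)) ((n : ℝ) + 1)) :=
      (aecover_Ioi_of_Ioi ha).inter (aecover_Iic hb)
    have := hcov.integral_tendsto_of_countably_generated ig
    refine this.congr fun n => ?_
    have hn : (1 : ℝ) / ((n : ℝ) + 1) ≤ (n : ℝ) + 1 := by
      have : (0 : ℝ) ≤ n := n.cast_nonneg
      rw [div_le_iff₀ (by positivity)]
      nlinarith
    rw [intervalIntegral.integral_of_le hn, Measure.restrict_restrict measurableSet_Ioc,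
      Set.inter_eq_left.mpr]
    intro r hr
    have : (0 : ℝ) < 1 / ((n : ℝ) + 1) := by positivity
    exact this.trans hr.1
  have lim2 : Tendsto (fun n : ℕ => Ff s s1 Sh Ah Lh ph ((n : ℝ) + 1)
      - Ff s s1 Sh Ah Lh ph (1 / ((n : ℝ) + 1))) atTop (𝓝 0) := by
    have hb : Tendsto (fun n : ℕ => (n : ℝ) + 1) atTop atTop :=
      tendsto_atTop_add_const_right _ _ tendsto_natCast_atTop_atTop
    have ha : Tendsto (fun n : ℕ => 1 / ((n : ℝ) + 1)) atTop (𝓝[>] 0) := by
      refine tendsto_nhdsWithin_iff.mpr ⟨tendsto_one_div_add_atTop_nhds_zero_nat,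
        Eventually.of_forall fun n => ?_⟩
      have : (0 : ℝ) < (n : ℝ) + 1 := by positivity
      exact div_pos one_pos this
    simpa using ((F_limi hE hT).comp hb).sub ((F_lim0 hE hT).comp ha)
  refine le_of_tendsto_of_tendsto' lim1 lim2 fun n => ?_
  have : (0 : ℝ) ≤ n := n.cast_nonneg
  refine key _ _ (by positivity) ?_
  rw [div_le_iff₀ (by positivity)]
  nlinarith

/-- `∫ δ²/r² ≤ ε²` -/
theorem conv1 (hE : Ext 0 0 s s1) (hT : Trial Sh Ah Lh ph rho K eps) :
    ∫ r in Ioi (0 : ℝ), (Sh r - Sf s r) ^ 2 / r ^ 2 ≤ eps ^ 2 := by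
  have h := conv hE hT
  have i1 := intd hE hT
  have i2 := intdr hE hT
  have i3 := hT.rint
  have h1 : 0 ≤ ∫ r in Ioi (0 : ℝ), ((Sh r - Sf s r) ^ 2 / r ^ 2 +
      2 * ((Sh r - Sf s r) * rho r / r ^ 2) + rho r ^ 2 / r ^ 2) := by
    refine setIntegral_nonneg measurableSet_Ioi fun r hr => ?_
    have hr : 0 < r := hr
    have : (Sh r - Sf s r) ^ 2 / r ^ 2 + 2 * ((Sh r - Sf s r) * rho r / r ^ 2)
        + rho r ^ 2 / r ^ 2 = ((Sh r - Sf s r + rho r) / r) ^ 2 := by
      field_simp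
      ring
    rw [this]
    positivity
  have h2 : ∫ r in Ioi (0 : ℝ), ((Sh r - Sf s r) ^ 2 / r ^ 2 +
      2 * ((Sh r - Sf s r) * rho r / r ^ 2) + rho r ^ 2 / r ^ 2) =
      (∫ r in Ioi (0 : ℝ), (Sh r - Sf s r) ^ 2 / r ^ 2) +
      2 * (∫ r in Ioi (0 : ℝ), (Sh r - Sf s r) * rho r / r ^ 2) +
      ∫ r in Ioi (0 : ℝ), rho r ^ 2 / r ^ 2 := by
    have e1 := integral_add (i1.add (i2.const_mul 2)) i3
    have e2 := integral_add i1 (i2.const_mul 2)
    have e3 : ∫ r in Ioi (0 : ℝ), 2 * ((Sh r - Sf s r) * rho r / r ^ 2) =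
      2 * ∫ r in Ioi (0 : ℝ), (Sh r - Sf s r) * rho r / r ^ 2 := integral_const_mul _ _
    simp only [Pi.add_apply] at e1 e2
    rw [e1, e2, e3]
  have := hT.rbd
  linarith

/-- `∫ (δ+ρ)²/r² ≤ ε²` -/
theorem conv2 (hE : Ext 0 0 s s1) (hT : Trial Sh Ah Lh ph rho K eps) :
    IntegrableOn (fun r => (Sh r - Sf s r + rho r) ^ 2 / r ^ 2) (Ioi 0) ∧
    ∫ r in Ioi (0 : ℝ), (Sh r - Sf s r + rho r) ^ 2 / r ^ 2 ≤ eps ^ 2 := by
  have h := conv hE hT
  have i1 := intd hE hT
  have i2 := intdr hE hT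
  have i3 := hT.rint
  have i4 : IntegrableOn (fun r => (Sh r - Sf s r) ^ 2 / r ^ 2 +
      2 * ((Sh r - Sf s r) * rho r / r ^ 2) + rho r ^ 2 / r ^ 2) (Ioi 0) :=
    (i1.add (i2.const_mul 2)).add i3
  have he : EqOn (fun r => (Sh r - Sf s r) ^ 2 / r ^ 2 +
      2 * ((Sh r - Sf s r) * rho r / r ^ 2) + rho r ^ 2 / r ^ 2)
      (fun r => (Sh r - Sf s r + rho r) ^ 2 / r ^ 2) (Ioi 0) := by
    intro r hr
    simp only
    ring
  refine ⟨i4.congr_fun he measurableSet_Ioi, ?_⟩
  have e1 := integral_add (i1.add (i2.const_mul 2)) i3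
  have e2 := integral_add i1 (i2.const_mul 2)
  have e3 : ∫ r in Ioi (0 : ℝ), 2 * ((Sh r - Sf s r) * rho r / r ^ 2) =
    2 * ∫ r in Ioi (0 : ℝ), (Sh r - Sf s r) * rho r / r ^ 2 := integral_const_mul _ _
  simp only [Pi.add_apply] at e1 e2
  rw [← setIntegral_congr_fun measurableSet_Ioi he, e1, e2, e3]
  have h1 : 0 ≤ ∫ r in Ioi (0 : ℝ), (Sh r - Sf s r) ^ 2 / r ^ 2 :=
    setIntegral_nonneg measurableSet_Ioi fun r _ => by positivity
  have := hT.rbd
  linarith

/-- the pointwise bound for the potential -/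
theorem phib (hE : Ext 0 0 s s1) (hT : Trial Sh Ah Lh ph rho K eps) {r : ℝ} (hr : 0 < r) :
    |phi 0 s r - ph r| ≤ eps / √r := by
  obtain ⟨hi, hb⟩ := conv2 hE hT
  have hF := Main.facts 0 0 s s1 hE
  have heps := hT.eps0
  -- ∫_r^b (δ+ρ)/t² = (φ - ph)(r) - (φ - ph)(b)
  set lam : ℝ := 1 / (eps * √r) with hlam
  have hsq : 0 < √r := Real.sqrt_pos.mpr hr
  have hlam0 : 0 < lam := by positivity
  have hcont : ContinuousOn (fun t => phi 0 s t - ph t) (Ioi 0) := fun t ht =>
    ((derphi hE ht).continuousAt.continuousWithinAt).sub (hT.contp t ht)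
  have hmeas : AEStronglyMeasurable (fun t => (Sh t - Sf s t + rho t) / t ^ 2)
      (volume.restrict (Ioi 0)) := by
    have m1 : AEStronglyMeasurable (fun t : ℝ => (Sh t - Sf s t) / t) (volume.restrict (Ioi 0)) :=
      (contd hE hT).aestronglyMeasurable measurableSet_Ioi
    have m3 : AEStronglyMeasurable (fun t : ℝ => t⁻¹) (volume.restrict (Ioi 0)) :=
      measurable_id.inv.aestronglyMeasurable
    have m2 : AEStronglyMeasurable (fun t : ℝ => rho t * t⁻¹) (volume.restrict (Ioi 0)) :=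
      hT.meas.mul m3
    refine ((m1.add m2).mul m3).congr (Eventually.of_forall fun t => ?_)
    simp only [Pi.add_apply, Pi.mul_apply]
    ring
  have hpt : ∀ t, 0 < t → |(Sh t - Sf s t + rho t) / t ^ 2| ≤
      (lam * ((Sh t - Sf s t + rho t) ^ 2 / t ^ 2) + 1 / lam * (1 / t ^ 2)) / 2 := by
    intro t ht
    have h1 : (Sh t - Sf s t + rho t) / t ^ 2 = ((Sh t - Sf s t + rho t) / t) * (1 / t) := by
      field_simp
    have h2 : (Sh t - Sf s t + rho t) ^ 2 / t ^ 2 = ((Sh t - Sf s t + rho t) / t) ^ 2 := by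
      field_simp
    have h3 : 1 / t ^ 2 = (1 / t) ^ 2 := by field_simp
    rw [h1, h2, h3, abs_mul]
    set x := |(Sh t - Sf s t + rho t) / t| with hx
    set y := |1 / t| with hy
    have hx2 : ((Sh t - Sf s t + rho t) / t) ^ 2 = x ^ 2 := (sq_abs _).symm
    have hy2 : (1 / t) ^ 2 = y ^ 2 := (sq_abs _).symm
    rw [hx2, hy2, le_div_iff₀ two_pos]
    have h4 : lam * x ^ 2 + 1 / lam * y ^ 2 - x * y * 2 = (lam * x - y) ^ 2 / lam := by
      field_simp
      ring
    have h5 : 0 ≤ (lam * x - y) ^ 2 / lam := by positivity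
    linarith
  have hgi : ∀ b, r ≤ b → IntervalIntegrable (fun t => (Sh t - Sf s t + rho t) / t ^ 2)
      volume r b := by
    intro b hb'
    rw [intervalIntegrable_iff_integrableOn_Ioc_of_le hb']
    have hsub : Ioc r b ⊆ Ioi 0 := fun t ht => hr.trans ht.1
    have j1 : IntegrableOn (fun t => (Sh t - Sf s t + rho t) ^ 2 / t ^ 2) (Ioc r b) :=
      hi.mono_set hsub
    have j2 : IntegrableOn (fun t : ℝ => 1 / t ^ 2) (Ioc r b) := by
      have : ContinuousOn (fun t : ℝ => 1 / t ^ 2) (Icc r b) := by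
        intro t ht
        have : 0 < t := lt_of_lt_of_le hr ht.1
        exact (continuousAt_const.div (continuousAt_id.pow 2)
          (pow_ne_zero 2 this.ne')).continuousWithinAt
      exact this.integrableOn_Icc.mono_set Ioc_subset_Icc_self
    refine ((((j1.const_mul lam).add (j2.const_mul (1 / lam))).div_const 2)).mono'
      (hmeas.mono_measure (Measure.restrict_mono hsub le_rfl)) ?_
    refine (ae_restrict_iff' measurableSet_Ioc).mpr (Eventually.of_forall fun t ht => ?_)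
    exact hpt t (hr.trans ht.1)
  have hftc : ∀ b, r ≤ b → ∫ t in r..b, (Sh t - Sf s t + rho t) / t ^ 2 =
      (phi 0 s r - ph r) - (phi 0 s b - ph b) := by
    intro b hb'
    have hsub : Icc r b ⊆ Ioi 0 := fun t ht => lt_of_lt_of_le hr ht.1
    have := integral_eq_of_hasDerivAt_off_countable_of_le (fun t => phi 0 s t - ph t)
      (fun t => -((Sh t - Sf s t + rho t) / t ^ 2)) hb' (s := (K : Set ℝ)) K.countable_toSet
      (hcont.mono hsub) ?_ (hgi b hb').neg
    · rw [intervalIntegral.integral_neg] at this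
      linarith
    · intro t ht
      have ht0 : 0 < t := hr.trans ht.1.1
      refine ((derphi hE ht0).sub (hT.derp t ht0 ht.2)).congr_deriv ?_
      ring
  have hbound : ∀ b, r ≤ b → |(phi 0 s r - ph r) - (phi 0 s b - ph b)| ≤ eps / √r := by
    intro b hb'
    rw [← hftc b hb']
    have hsub : Ioc r b ⊆ Ioi 0 := fun t ht => hr.trans ht.1
    have j1 : IntegrableOn (fun t => (Sh t - Sf s t + rho t) ^ 2 / t ^ 2) (Ioc r b) :=
      hi.mono_set hsub
    have hcinv : ContinuousOn (fun t : ℝ => 1 / t ^ 2) (Icc r b) := by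
      intro t ht
      have : 0 < t := lt_of_lt_of_le hr ht.1
      exact (continuousAt_const.div (continuousAt_id.pow 2)
        (pow_ne_zero 2 this.ne')).continuousWithinAt
    have j2 : IntegrableOn (fun t : ℝ => 1 / t ^ 2) (Ioc r b) :=
      hcinv.integrableOn_Icc.mono_set Ioc_subset_Icc_self
    have k1 : ∫ t in r..b, (Sh t - Sf s t + rho t) ^ 2 / t ^ 2 ≤ eps ^ 2 := by
      rw [intervalIntegral.integral_of_le hb']
      refine (setIntegral_mono_set hi ?_ hsub.eventuallyLE).trans hb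
      exact (ae_restrict_iff' measurableSet_Ioi).mpr (Eventually.of_forall fun t _ => by positivity)
    have k2 : ∫ t in r..b, 1 / t ^ 2 ≤ 1 / r := by
      have hd : ∀ t ∈ Ioo r b, HasDerivAt (fun t : ℝ => -(1 / t)) (1 / t ^ 2) t := by
        intro t ht
        have ht0 : t ≠ 0 := (hr.trans ht.1).ne'
        have h0 : HasDerivAt (fun t : ℝ => -(t⁻¹)) (-(-(t ^ 2)⁻¹)) t := (hasDerivAt_inv ht0).neg
        have h00 : (fun t : ℝ => -(1 / t)) = fun t : ℝ => -(t⁻¹) := by
          funext t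
          rw [one_div]
        rw [h00, one_div]
        rwa [neg_neg] at h0
      have hc : ContinuousOn (fun t : ℝ => -(1 / t)) (Icc r b) := by
        intro t ht
        have : 0 < t := lt_of_lt_of_le hr ht.1
        exact (continuousAt_const.div continuousAt_id this.ne').neg.continuousWithinAt
      have := intervalIntegral.integral_eq_sub_of_hasDerivAt_of_le hb' hc hd (by
        refine ContinuousOn.intervalIntegrable ?_
        rwa [uIcc_of_le hb'])
      rw [this]
      have hb0 : 0 < b := lt_of_lt_of_le hr hb'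
      have : 0 < 1 / b := by positivity
      linarith
    have i1 : IntervalIntegrable (fun t => (Sh t - Sf s t + rho t) ^ 2 / t ^ 2) volume r b :=
      (intervalIntegrable_iff_integrableOn_Ioc_of_le hb').mpr j1
    have i2 : IntervalIntegrable (fun t : ℝ => 1 / t ^ 2) volume r b :=
      (intervalIntegrable_iff_integrableOn_Ioc_of_le hb').mpr j2
    calc |∫ t in r..b, (Sh t - Sf s t + rho t) / t ^ 2|
        ≤ ∫ t in r..b, |(Sh t - Sf s t + rho t) / t ^ 2| :=
          intervalIntegral.abs_integral_le_integral_abs hb'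
      _ ≤ ∫ t in r..b, (lam * ((Sh t - Sf s t + rho t) ^ 2 / t ^ 2) + 1 / lam * (1 / t ^ 2)) / 2 := by
          refine intervalIntegral.integral_mono_on hb' (hgi b hb').abs
            (((i1.const_mul lam).add (i2.const_mul (1 / lam))).div_const 2) ?_
          intro t ht
          exact hpt t (lt_of_lt_of_le hr ht.1)
      _ = (lam * (∫ t in r..b, (Sh t - Sf s t + rho t) ^ 2 / t ^ 2)
            + 1 / lam * ∫ t in r..b, 1 / t ^ 2) / 2 := by
          rw [intervalIntegral.integral_div, intervalIntegral.integral_add (i1.const_mul lam)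
            (i2.const_mul (1 / lam)), intervalIntegral.integral_const_mul,
            intervalIntegral.integral_const_mul]
      _ ≤ (lam * eps ^ 2 + 1 / lam * (1 / r)) / 2 := by gcongr
      _ = eps / √r := by
          have hr2 : r = √r * √r := (Real.mul_self_sqrt hr.le).symm
          rw [hlam]
          nth_rewrite 3 [hr2]
          field_simp
          ring
  have hlim : Tendsto (fun b => |(phi 0 s r - ph r) - (phi 0 s b - ph b)|) atTop
      (𝓝 |(phi 0 s r - ph r) - (0 - 0)|) :=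
    (tendsto_const_nhds.sub (hF.phiLim.sub hT.limp)).abs
  rw [sub_zero, sub_zero] at hlim
  exact le_of_tendsto hlim ((eventually_ge_atTop r).mono hbound)

end compare

end Pool.Agent.H99.HN
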