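import Mathlib

/-!
# Barrier lemmas on `(0,∞)`
-/

namespace Pool.Agent.H99.HN

open Set Filter Topology

/-- backward barrier: `f < 0` at the right end and `f' > 0` wherever `f = 0` -/
theorem bwd {f f1 : ℝ → ℝ} {a b : ℝ} (hd : ∀ r ∈ Icc a b, HasDerivAt f (f1 r) r) (hb : f b < 0)
    (hz : ∀ r ∈ Icc a b, f r = 0 → 0 < f1 r) : ∀ r ∈ Icc a b, f r < 0 := by
  intro r0 hr0
  by_contra hcon
  push Not at hcon
  have hcont : ContinuousOn f (Icc a b) := fun r hr => (hd r hr).continuousAt.continuousWithinAt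
  -- last point with f ≥ 0
  set K : Set ℝ := {r | r ∈ Icc r0 b ∧ 0 ≤ f r} with hK
  have hKne : K.Nonempty := ⟨r0, ⟨le_rfl, hr0.2⟩, hcon⟩
  have hcl : IsClosed K :=
    (hcont.mono (Icc_subset_Icc_left hr0.1)).preimage_isClosed_of_isClosed isClosed_Icc isClosed_Ici
  have hKb : BddAbove K := ⟨b, fun r hr => hr.1.2⟩
  set c := sSup K with hc
  have hcK : c ∈ K := hcl.csSup_mem hKne hKb
  have hcb : c < b := by
    refine lt_of_le_of_ne hcK.1.2 fun h => ?_
    have := hcK.2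
    rw [h] at this
    linarith
  have hcab : c ∈ Icc a b := ⟨hr0.1.trans hcK.1.1, hcK.1.2⟩
  have hneg : ∀ r, c < r → r ≤ b → f r < 0 := by
    intro r h1 h2
    by_contra h
    push Not at h
    have : r ≤ c := le_csSup hKb ⟨⟨hcK.1.1.trans h1.le, h2⟩, h⟩
    linarith
  have hc0 : f c = 0 := by
    refine le_antisymm ?_ hcK.2
    -- limit from the right
    have h1 : Tendsto f (𝓝[>] c) (𝓝 (f c)) :=
      (hd c hcab).continuousAt.continuousWithinAt.tendsto
    refine le_of_tendsto h1 ?_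
    filter_upwards [Ioc_mem_nhdsGT hcb] with r hr
    exact (hneg r hr.1 hr.2).le
  have hpos := hz c hcab hc0
  -- f > 0 just after c
  have h2 : Tendsto (slope f c) (𝓝[>] c) (𝓝 (f1 c)) :=
    ((hasDerivAt_iff_tendsto_slope.mp (hd c hcab)).mono_left
      (nhdsWithin_mono c fun x hx => ne_of_gt hx))
  have h3 : ∀ᶠ r in 𝓝[>] c, 0 < slope f c r := h2.eventually (lt_mem_nhds hpos)
  obtain ⟨r, hr1, hr2⟩ := (h3.and (Ioc_mem_nhdsGT hcb)).exists
  have h4 := hneg r hr2.1 hr2.2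
  rw [slope_def_field, hc0, sub_zero] at hr1
  have h5 : 0 < r - c := sub_pos.mpr hr2.1
  have h6 : f r / (r - c) < 0 := div_neg_of_neg_of_pos h4 h5
  linarith

/-- forward barrier: `f < 0` at the left end and `f' < 0` wherever `f = 0` -/
theorem fwd {f f1 : ℝ → ℝ} {a b : ℝ} (hd : ∀ r ∈ Icc a b, HasDerivAt f (f1 r) r) (ha : f a < 0)
    (hz : ∀ r ∈ Icc a b, f r = 0 → f1 r < 0) : ∀ r ∈ Icc a b, f r < 0 := by
  intro r hr
  have h := bwd (f := fun t => f (-t)) (f1 := fun t => -(f1 (-t))) (a := -b) (b := -a)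
    (fun t ht => by
      have hm : -t ∈ Icc a b := ⟨by linarith [ht.2], by linarith [ht.1]⟩
      have h1 := (hd (-t) hm).comp t (hasDerivAt_neg t)
      refine h1.congr_deriv (by ring))
    (by simpa using ha)
    (fun t ht h0 => by
      have hm : -t ∈ Icc a b := ⟨by linarith [ht.2], by linarith [ht.1]⟩
      have := hz (-t) hm h0
      linarith)
    (-r) ⟨by linarith [hr.2], by linarith [hr.1]⟩
  simpa using h

/-- forward barrier from zero: `f` bounded above near zero, `r f' ≤ - f/2` where `f > 0` near zero,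
`f' < 0` where `f = 0` -/
theorem fwd0 {f f1 : ℝ → ℝ} {b C δ : ℝ} (hδ : 0 < δ)
    (hd : ∀ r ∈ Ioc 0 b, HasDerivAt f (f1 r) r)
    (hbd : ∀ r ∈ Ioc 0 δ, f r ≤ C)
    (hnear : ∀ r ∈ Ioc 0 δ, 0 < f r → r * f1 r ≤ -(f r / 2))
    (hz : ∀ r ∈ Ioc 0 b, f r = 0 → f1 r < 0) : ∀ r ∈ Ioc 0 b, f r ≤ 0 := by
  intro r0 hr0
  by_contra hcon
  push Not at hcon
  -- f > 0 on (0, r0]
  have hpos : ∀ r ∈ Ioc 0 r0, 0 < f r := by
    intro r hr
    by_contra h
    push Not at h
    rcases h.lt_or_eq with h1 | h1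
    · have := fwd (f := f) (f1 := f1) (a := r) (b := r0)
        (fun t ht => hd t ⟨lt_of_lt_of_le hr.1 ht.1, ht.2.trans hr0.2⟩) h1
        (fun t ht => hz t ⟨lt_of_lt_of_le hr.1 ht.1, ht.2.trans hr0.2⟩) r0 ⟨hr.2, le_rfl⟩
      linarith
    · -- f r = 0, then f < 0 just after r
      have hrb : r ∈ Ioc 0 b := ⟨hr.1, hr.2.trans hr0.2⟩
      have hneg := hz r hrb h1
      have hrr : r < r0 := by
        refine lt_of_le_of_ne hr.2 fun h' => ?_
        rw [h'] at h1
        linarith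
      have h2 : Tendsto (slope f r) (𝓝[>] r) (𝓝 (f1 r)) :=
        ((hasDerivAt_iff_tendsto_slope.mp (hd r hrb)).mono_left
          (nhdsWithin_mono r fun x hx => ne_of_gt hx))
      have h3 : ∀ᶠ t in 𝓝[>] r, slope f r t < 0 := h2.eventually (gt_mem_nhds hneg)
      obtain ⟨t, ht1, ht2⟩ := (h3.and (Ioc_mem_nhdsGT hrr)).exists
      rw [slope_def_field, h1, sub_zero] at ht1
      have h5 : 0 < t - r := sub_pos.mpr ht2.1
      have h6 : f t < 0 := by
        by_contra h7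
        push Not at h7
        have : 0 ≤ f t / (t - r) := div_nonneg h7 h5.le
        linarith
      have := fwd (f := f) (f1 := f1) (a := t) (b := r0)
        (fun t' ht' => hd t' ⟨lt_of_lt_of_le (hr.1.trans ht2.1) ht'.1, ht'.2.trans hr0.2⟩) h6
        (fun t' ht' => hz t' ⟨lt_of_lt_of_le (hr.1.trans ht2.1) ht'.1, ht'.2.trans hr0.2⟩) r0
        ⟨ht2.2, le_rfl⟩
      linarith
  -- r f² is antitone on (0, d]
  set d := min δ r0 with hdd
  have hd0 : 0 < d := lt_min hδ hr0.1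
  have hanti : AntitoneOn (fun r => r * f r ^ 2) (Ioc 0 d) := by
    refine antitoneOn_of_deriv_nonpos (convex_Ioc 0 d) ?_ ?_ ?_
    · intro r hr
      have hrb : r ∈ Ioc 0 b := ⟨hr.1, (hr.2.trans (min_le_right _ _)).trans hr0.2⟩
      exact ((hasDerivAt_id' r).mul ((hd r hrb).pow 2)).continuousAt.continuousWithinAt
    · intro r hr
      rw [interior_Ioc] at hr
      have hrb : r ∈ Ioc 0 b := ⟨hr.1, (hr.2.le.trans (min_le_right _ _)).trans hr0.2⟩
      exact ((hasDerivAt_id' r).mul ((hd r hrb).pow 2)).differentiableAt.differentiableWithinAt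
    · intro r hr
      rw [interior_Ioc] at hr
      have hrb : r ∈ Ioc 0 b := ⟨hr.1, (hr.2.le.trans (min_le_right _ _)).trans hr0.2⟩
      have hp := hpos r ⟨hr.1, hr.2.le.trans (min_le_right _ _)⟩
      have hn := hnear r ⟨hr.1, hr.2.le.trans (min_le_left _ _)⟩ hp
      have hder : HasDerivAt (fun r => r * f r ^ 2) (f r ^ 2 + 2 * f r * (r * f1 r)) r := by
        have := (hasDerivAt_id' r).fun_mul ((hd r hrb).fun_pow 2)
        refine this.congr_deriv ?_
        push_cast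
        ring
      rw [hder.deriv]
      nlinarith
  -- contradiction as r → 0
  have hfd : 0 < d * f d ^ 2 := by
    have := hpos d ⟨hd0, min_le_right _ _⟩
    positivity
  have hC : 0 < C := lt_of_lt_of_le (hpos d ⟨hd0, min_le_right _ _⟩)
    (hbd d ⟨hd0, min_le_left _ _⟩)
  set r := min d (d * f d ^ 2 / (2 * C ^ 2)) with hr
  have hr0' : 0 < r := lt_min hd0 (by positivity)
  have hrd : r ≤ d := min_le_left _ _
  have h1 := hanti ⟨hr0', hrd⟩ ⟨hd0, le_rfl⟩ hrd
  simp only at h1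
  have h2 := hbd r ⟨hr0', hrd.trans (min_le_left _ _)⟩
  have h3 := hpos r ⟨hr0', hrd.trans (min_le_right _ _)⟩
  have h4 : f r ^ 2 ≤ C ^ 2 := pow_le_pow_left₀ h3.le h2 2
  have h5 : r ≤ d * f d ^ 2 / (2 * C ^ 2) := min_le_right _ _
  have h6 : r * f r ^ 2 ≤ d * f d ^ 2 / (2 * C ^ 2) * C ^ 2 := by gcongr
  have h7 : d * f d ^ 2 / (2 * C ^ 2) * C ^ 2 = d * f d ^ 2 / 2 := by
    field_simp
  linarith

/-- a function that is antitone on `[a,∞)` and has a sequence of values tending to a nonnegative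
limit is nonnegative -/
theorem nonneg_of_anti {f : ℝ → ℝ} {a : ℝ} (h : AntitoneOn f (Ici a)) (T : ℕ → ℝ)
    (hT : Tendsto T atTop atTop) (hf : Tendsto (fun n => f (T n)) atTop (𝓝 0)) :
    ∀ r, a ≤ r → 0 ≤ f r := by
  intro r hr
  refine le_of_tendsto hf ?_
  filter_upwards [hT.eventually (eventually_ge_atTop r)] with n hn
  exact h hr (hr.trans hn) hn

theorem anti_of_der {f f1 : ℝ → ℝ} {a : ℝ} (hd : ∀ r, a ≤ r → HasDerivAt f (f1 r) r)
    (hn : ∀ r, a ≤ r → f1 r ≤ 0) : AntitoneOn f (Ici a) := by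
  refine antitoneOn_of_deriv_nonpos (convex_Ici a) ?_ ?_ ?_
  · exact fun r hr => (hd r hr).continuousAt.continuousWithinAt
  · intro r hr
    rw [interior_Ici] at hr
    exact (hd r (le_of_lt hr)).differentiableAt.differentiableWithinAt
  · intro r hr
    rw [interior_Ici] at hr
    have hr' : a ≤ r := le_of_lt hr
    rw [(hd r hr').deriv]
    exact hn r hr'

end Pool.Agent.H99.HN
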