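import Pool.Agent.H99.PC.Kro

/-!
# The trial function on `(0, 60]`

`z = r/(9+r)`, `d Sh/dz = z² B(z)`, `B = ev Bl / 10^7`.  All functions are rational in `z`.
-/

namespace Pool.Agent.H99.HN.Dat

open Pool.Agent.H99.PC
open Set

/-- `10^7 B` -/
def Bl : List ℤ := [1821234479, -9106172395, 16043476580, 2829469744, -69373757272, 144975833355,
  -115481055716, -97558427834, 384817269619, -506053718194, 372071182625, -152013010132,
  27028014086]

/-- `360360 · 10^7 Sh` -/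
def Sl : List ℤ := [0, 0, 0, 218766685617480, -820375071065550, 1156285444073760, 169937952824640,
  -3571361024362560, 6530436413475975, -4623861470868640, -3515615505426024, 12606613752718440,
  -15196793157365820, 10313813182365000, -3912814880797680, 649321010402064]

/-- `N = 4 B - (1-z) B'` -/
def Nl : List ℤ := sub (smul 4 Bl) (mul [1, -1] (dv Bl))

/-- `W = z N² - 2 N B - 2 (1-z) ((z N)' B - z N B')` -/
def Wl : List ℤ := sub (sub (0 :: mul Nl Nl) (smul 2 (mul Nl Bl)))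
  (smul 2 (mul [1, -1] (sub (mul (dv (0 :: Nl)) Bl) (mul (0 :: Nl) (dv Bl)))))

/-- `V = 2 W B - (1-z) (W B + z (W' B - 2 W B'))` -/
def Vp : PE := .sub (.mul (.C 2) (.mul (.L Wl) (.L Bl))) (.mul (.L [1, -1])
  (.add (.mul (.L Wl) (.L Bl)) (.mul (.L [0, 1])
    (.sub (.mul (.L (dv Wl)) (.L Bl)) (.mul (.C 2) (.mul (.L Wl) (.L (dv Bl))))))))

/-- `z = r/(9+r)` -/
noncomputable def zf (r : ℝ) : ℝ := r / (9 + r)

/-- `Sh` as a function of `z` -/
noncomputable def Sz (z : ℝ) : ℝ := ev Sl z / (360360 * 10 ^ 7)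

/-- `1 + Lh` as a function of `z` -/
noncomputable def Tz (z : ℝ) : ℝ := z * ev Nl z / (2 * ev Bl z)

/-- `- r² ph` as a function of `z` -/
noncomputable def Yz (z : ℝ) : ℝ := z * ev Wl z / (4 * ev Bl z ^ 2)

/-- the residual as a function of `z` -/
noncomputable def rz (z : ℝ) : ℝ := 1 - Sz z + (1 - z) * Vp.ev z / (36 * ev Bl z ^ 3)

noncomputable def Sh (r : ℝ) : ℝ := Sz (zf r)
noncomputable def Ah (r : ℝ) : ℝ := zf r ^ 2 * (ev Bl (zf r) / 10 ^ 7) * (9 / (9 + r) ^ 2)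
noncomputable def Lh (r : ℝ) : ℝ := Tz (zf r) - 1
noncomputable def ph (r : ℝ) : ℝ := -(Yz (zf r) / r ^ 2)
noncomputable def rho (r : ℝ) : ℝ := rz (zf r)

theorem zf_pos {r : ℝ} (hr : 0 < r) : 0 < zf r := by unfold zf; positivity

theorem zf_lt_one {r : ℝ} (hr : 0 < r) : zf r < 1 := by
  unfold zf
  rw [div_lt_one (by linarith)]
  linarith

theorem zf_le {r : ℝ} (hr : 0 < r) (h : r ≤ 60) : zf r ≤ 20 / 23 := by
  unfold zf
  rw [div_le_div_iff₀ (by linarith) (by norm_num)]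
  linarith

theorem r_eq {r : ℝ} (hr : 0 < r) : r = 9 * zf r / (1 - zf r) := by
  unfold zf
  have : (0 : ℝ) < 9 + r := by linarith
  have h : 1 - r / (9 + r) = 9 / (9 + r) := by field_simp; ring
  rw [h]
  field_simp

theorem derz {r : ℝ} (hr : 0 < r) : HasDerivAt zf (zf r * (1 - zf r) / r) r := by
  have h0 : (9 : ℝ) + r ≠ 0 := by linarith
  have h := (hasDerivAt_id' r).fun_div ((hasDerivAt_id' r).const_add 9) h0
  refine h.congr_deriv ?_
  unfold zf
  field_simp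

/-- derivative of a function of `z` -/
theorem derF {F : ℝ → ℝ} {F1 r : ℝ} (hr : 0 < r) (h : HasDerivAt F F1 (zf r)) :
    HasDerivAt (fun r => F (zf r)) (F1 * (zf r * (1 - zf r)) / r) r := by
  refine (h.comp r (derz hr)).congr_deriv ?_
  ring

theorem Bpos {z : ℝ} (h0 : 0 ≤ z) (h1 : z ≤ 20 / 23) : 100000 < ev Bl z := by
  have hc : pchkL (.sub (.L Bl) (.C 100001)) 400 23 [0, 20] = true := by decide +kernel
  have := pchkL_sound (by norm_num) _ _ _ 20 hc rfl z (by push_cast; linarith)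
    (by push_cast; linarith)
  simp only [PE.ev] at this
  push_cast at this
  linarith

theorem derSz (z : ℝ) : HasDerivAt Sz (z ^ 2 * (ev Bl z / 10 ^ 7)) z := by
  unfold Sz
  refine ((hasDerivAt_ev Sl z).div_const _).congr_deriv ?_
  have : ev (dv Sl) z = 360360 * (z ^ 2 * ev Bl z) := by
    simp only [Sl, Bl, dv, add, ev]
    push_cast
    ring
  rw [this]
  ring

theorem evN (z : ℝ) : ev Nl z = 4 * ev Bl z - (1 - z) * ev (dv Bl) z := by
  simp only [Nl, ev_sub, ev_smul, ev_mul, ev]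
  push_cast
  ring

theorem evzN (z : ℝ) : ev (dv (0 :: Nl)) z = ev Nl z + z * ev (dv Nl) z := by
  simp only [dv, ev_add, ev]
  push_cast
  ring

theorem evW (z : ℝ) : ev Wl z = z * ev Nl z ^ 2 - 2 * ev Nl z * ev Bl z -
    2 * (1 - z) * ((ev Nl z + z * ev (dv Nl) z) * ev Bl z - z * ev Nl z * ev (dv Bl) z) := by
  have h := evzN z
  simp only [Wl, ev_sub, ev_smul, ev_mul, h, ev]
  push_cast
  ring

theorem evV (z : ℝ) : Vp.ev z = 2 * ev Wl z * ev Bl z - (1 - z) * (ev Wl z * ev Bl z +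
    z * (ev (dv Wl) z * ev Bl z - 2 * ev Wl z * ev (dv Bl) z)) := by
  simp only [Vp, PE.ev, ev]
  push_cast
  ring

/-- derivative of `Tz` -/
noncomputable def T1z (z : ℝ) : ℝ :=
  ((ev Nl z + z * ev (dv Nl) z) * ev Bl z - z * ev Nl z * ev (dv Bl) z) / (2 * ev Bl z ^ 2)

theorem derTz {z : ℝ} (hb : ev Bl z ≠ 0) : HasDerivAt Tz (T1z z) z := by
  unfold Tz
  have h := ((hasDerivAt_id' z).fun_mul (hasDerivAt_ev Nl z)).fun_div
    ((hasDerivAt_ev Bl z).const_mul 2) (mul_ne_zero two_ne_zero hb)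
  refine h.congr_deriv ?_
  unfold T1z
  field_simp

theorem Yz_eq {z : ℝ} (hb : ev Bl z ≠ 0) :
    Yz z = Tz z ^ 2 - Tz z - z * (1 - z) * T1z z := by
  unfold Yz Tz T1z
  rw [evW]
  field_simp
  ring

/-- derivative of `Yz` -/
noncomputable def Y1z (z : ℝ) : ℝ :=
  ((ev Wl z + z * ev (dv Wl) z) * ev Bl z - 2 * (z * ev Wl z) * ev (dv Bl) z) / (4 * ev Bl z ^ 3)

theorem derYz {z : ℝ} (hb : ev Bl z ≠ 0) : HasDerivAt Yz (Y1z z) z := by
  unfold Yz
  have h := ((hasDerivAt_id' z).fun_mul (hasDerivAt_ev Wl z)).fun_div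
    (((hasDerivAt_ev Bl z).fun_pow 2).const_mul 4) (mul_ne_zero four_ne_zero (pow_ne_zero 2 hb))
  refine h.congr_deriv ?_
  unfold Y1z
  push_cast
  field_simp

theorem rz_eq {z r : ℝ} (hz : z ≠ 0) (hb : ev Bl z ≠ 0)
    (hr : r = 9 * z / (1 - z)) :
    rz z = 1 - Sz z + (2 * Yz z - z * (1 - z) * Y1z z) / r := by
  unfold rz Yz Y1z
  rw [evV, hr]
  field_simp
  ring

/-- `3·9·36·360360·10^7 z B³` -/
def Rp : PE := .mul (.L [0, 3 * 9 * 36 * 360360 * 10 ^ 7]) (.mul (.L Bl) (.mul (.L Bl) (.L Bl)))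

/-- `400000 (1-z) · 36·360360·10^7·B³ ρ` -/
def Rq : PE := .mul (.L [400000, -400000])
  (.add (.mul (.C 36) (.mul (.mul (.L Bl) (.mul (.L Bl) (.L Bl)))
      (.sub (.C (360360 * 10 ^ 7)) (.L Sl))))
    (.mul (.L [360360 * 10 ^ 7, -(360360 * 10 ^ 7)]) Vp))

theorem Rchk : pchkL (.sub Rp Rq) 1100 920 [0, 100, 300, 500, 650, 800] = true ∧
    pchkL (.add Rp Rq) 1100 920 [0, 100, 300, 500, 650, 800] = true := by
  constructor <;> decide +kernel

section interior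

variable {r : ℝ}

theorem bne (hr : 0 < r) (h : r ≤ 60) : ev Bl (zf r) ≠ 0 := by
  have := Bpos (zf_pos hr).le (zf_le hr h)
  linarith

theorem Ah_pos (hr : 0 < r) (h : r ≤ 60) : 0 < Ah r := by
  have := Bpos (zf_pos hr).le (zf_le hr h)
  have hz := zf_pos hr
  unfold Ah
  have : 0 < ev Bl (zf r) := by linarith
  positivity

theorem derSh (hr : 0 < r) : HasDerivAt Sh (Ah r) r := by
  refine (derF hr (derSz (zf r))).congr_deriv ?_
  unfold Ah zf
  have : (9 : ℝ) + r ≠ 0 := by linarith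
  field_simp
  ring

theorem derAh (hr : 0 < r) (h : r ≤ 60) : HasDerivAt Ah (-(2 * Lh r / r * Ah r)) r := by
  have h9 : (9 : ℝ) + r ≠ 0 := by linarith
  have hb := bne hr h
  have e1 := ((derz hr).fun_pow 2).fun_mul ((derF hr (hasDerivAt_ev Bl (zf r))).div_const (10 ^ 7))
  have e2 := (hasDerivAt_const r (9 : ℝ)).fun_div (((hasDerivAt_id' r).const_add 9).fun_pow 2)
    (pow_ne_zero 2 h9)
  have e3 := e1.fun_mul e2
  refine e3.congr_deriv ?_
  unfold Lh Tz Ah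
  rw [evN]
  have hz : (9 : ℝ) + r = 9 / (1 - zf r) := by
    unfold zf
    field_simp
    ring
  have hz1 : 1 - zf r ≠ 0 := by
    have := zf_lt_one hr
    linarith
  have hz0 : zf r ≠ 0 := (zf_pos hr).ne'
  have hrr : r = 9 * zf r / (1 - zf r) := r_eq hr
  push_cast
  clear e1 e2 e3 h
  generalize ev Bl (zf r) = b at *
  generalize ev (dv Bl) (zf r) = b1 at *
  rw [hz]
  generalize zf r = z at *
  subst hrr
  field_simp
  ring

theorem derLh (hr : 0 < r) (h : r ≤ 60) :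
    HasDerivAt Lh ((Lh r ^ 2 + Lh r + r ^ 2 * ph r) / r) r := by
  have hb := bne hr h
  refine ((derF hr (derTz hb)).sub_const 1).congr_deriv ?_
  unfold Lh ph
  rw [Yz_eq hb]
  field_simp
  ring

theorem derph (hr : 0 < r) (h : r ≤ 60) :
    HasDerivAt ph ((rho r - 1 + Sh r) / r ^ 2) r := by
  have hb := bne hr h
  have h1 := ((derF hr (derYz hb)).fun_div ((hasDerivAt_id' r).fun_pow 2) (pow_ne_zero 2 hr.ne')).fun_neg
  refine h1.congr_deriv ?_
  unfold rho Sh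
  push_cast
  have hz1 : 1 - zf r ≠ 0 := by
    have := zf_lt_one hr
    linarith
  rw [rz_eq (zf_pos hr).ne' hb (r_eq hr)]
  field_simp
  ring

theorem rho_bd (hr : 0 < r) (h : r ≤ 60) : |rho r| ≤ 3 / 400000 * r := by
  have hz := zf_pos hr
  have hz1 := zf_lt_one hr
  have hb0 := Bpos hz.le (zf_le hr h)
  have hb : 0 < ev Bl (zf r) := by linarith
  have hrr := r_eq hr
  have hle := zf_le hr h
  unfold rho rz Sz
  generalize zf r = z at *
  rw [hrr]
  have h1z : 0 < 1 - z := by linarith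
  have d1 := pchkL_sound (by norm_num) _ _ _ 800 Rchk.1 rfl z (by push_cast; linarith)
    (by push_cast; linarith)
  have d2 := pchkL_sound (by norm_num) _ _ _ 800 Rchk.2 rfl z (by push_cast; linarith)
    (by push_cast; linarith)
  simp only [PE.ev, Rp, Rq, ev] at d1 d2
  push_cast at d1 d2
  have key : 1 - ev Sl z / (360360 * 10 ^ 7) + (1 - z) * Vp.ev z / (36 * ev Bl z ^ 3) =
      (36 * ev Bl z ^ 3 * (360360 * 10 ^ 7 - ev Sl z) + 360360 * 10 ^ 7 * ((1 - z) * Vp.ev z)) /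
      (360360 * 10 ^ 7 * (36 * ev Bl z ^ 3)) := by
    field_simp
  rw [key, abs_le]
  constructor
  · rw [le_div_iff₀ (by positivity), ← sub_nonneg]
    have : 36 * ev Bl z ^ 3 * (360360 * 10 ^ 7 - ev Sl z) + 360360 * 10 ^ 7 * ((1 - z) * Vp.ev z) -
        -(3 / 400000 * (9 * z / (1 - z))) * (360360 * 10 ^ 7 * (36 * ev Bl z ^ 3)) =
        (400000 * ((1 - z) * (36 * ev Bl z ^ 3 * (360360 * 10 ^ 7 - ev Sl z) +
          360360 * 10 ^ 7 * ((1 - z) * Vp.ev z))) +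
          3 * 9 * 36 * 360360 * 10 ^ 7 * (z * ev Bl z ^ 3)) / (400000 * (1 - z)) := by
      field_simp
      ring
    rw [this]
    refine div_nonneg ?_ (by positivity)
    linarith
  · rw [div_le_iff₀ (by positivity), ← sub_nonneg]
    have : (3 / 400000 * (9 * z / (1 - z))) * (360360 * 10 ^ 7 * (36 * ev Bl z ^ 3)) -
        (36 * ev Bl z ^ 3 * (360360 * 10 ^ 7 - ev Sl z) + 360360 * 10 ^ 7 * ((1 - z) * Vp.ev z)) =
        (3 * 9 * 36 * 360360 * 10 ^ 7 * (z * ev Bl z ^ 3) -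
          400000 * ((1 - z) * (36 * ev Bl z ^ 3 * (360360 * 10 ^ 7 - ev Sl z) +
          360360 * 10 ^ 7 * ((1 - z) * Vp.ev z)))) / (400000 * (1 - z)) := by
      field_simp
    rw [this]
    refine div_nonneg ?_ (by positivity)
    linarith

theorem abs_ev_le (l : List ℤ) {z : ℝ} (h0 : 0 ≤ z) (h1 : z ≤ 1) : |ev l z| ≤ (n1 l : ℝ) := by
  induction l with
  | nil => simp [ev, n1]
  | cons c l ih =>
    simp only [ev, n1]
    refine (abs_add_le _ _).trans ?_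
    rw [abs_mul, abs_of_nonneg h0]
    push_cast
    have h2 : |(c : ℝ)| = (c.natAbs : ℝ) := by
      rw [Nat.cast_natAbs]
      push_cast
      rfl
    have h3 : z * |ev l z| ≤ 1 * n1 l :=
      mul_le_mul h1 ih (abs_nonneg _) zero_le_one
    rw [h2]
    linarith

theorem zf_le_r (hr : 0 < r) : zf r ≤ r := by
  unfold zf
  rw [div_le_iff₀ (by linarith)]
  nlinarith

theorem bd0 : ∃ C, 0 < C ∧ ∀ r ∈ Ioc (0 : ℝ) 1,
    |Lh r + 1| ≤ C * r ∧ Ah r ≤ C * r ^ 2 ∧ |Sh r| ≤ C * r ^ 3 ∧ |ph r| ≤ C / r := by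
  refine ⟨n1 Nl + n1 Bl + n1 Sl + n1 Wl + 1, by positivity, ?_⟩
  intro r hr
  have hr0 := hr.1
  have hr60 : r ≤ 60 := hr.2.trans (by norm_num)
  have hz := zf_pos hr0
  have hz1 := zf_lt_one hr0
  have hzr := zf_le_r hr0
  have hb := Bpos hz.le (zf_le hr0 hr60)
  have aN := abs_ev_le Nl hz.le hz1.le
  have aB := abs_ev_le Bl hz.le hz1.le
  have aW := abs_ev_le Wl hz.le hz1.le
  have aS := abs_ev_le (Sl.drop 3) hz.le hz1.le
  have nN : (0 : ℝ) ≤ n1 Nl := Nat.cast_nonneg _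
  have nB : (0 : ℝ) ≤ n1 Bl := Nat.cast_nonneg _
  have nS : (0 : ℝ) ≤ n1 Sl := Nat.cast_nonneg _
  have nW : (0 : ℝ) ≤ n1 Wl := Nat.cast_nonneg _
  have hS3 : n1 (Sl.drop 3) = n1 Sl := by decide
  rw [hS3] at aS
  refine ⟨?_, ?_, ?_, ?_⟩
  · unfold Lh Tz
    rw [sub_add_cancel, abs_div, abs_mul, abs_of_pos hz, abs_of_pos (by linarith : 0 < 2 * ev Bl (zf r)),
      div_le_iff₀ (by linarith)]
    have h1 : zf r * |ev Nl (zf r)| ≤ r * n1 Nl := mul_le_mul hzr aN (abs_nonneg _) hr0.le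
    have h2 : r * n1 Nl ≤ (n1 Nl + n1 Bl + n1 Sl + n1 Wl + 1) * r * 1 := by nlinarith
    have h3 : ((n1 Nl : ℝ) + n1 Bl + n1 Sl + n1 Wl + 1) * r * 1 ≤
        (n1 Nl + n1 Bl + n1 Sl + n1 Wl + 1) * r * (2 * ev Bl (zf r)) :=
      mul_le_mul_of_nonneg_left (by linarith) (by positivity)
    linarith
  · unfold Ah
    have h1 : zf r ^ 2 ≤ r ^ 2 := pow_le_pow_left₀ hz.le hzr 2
    have h2 : ev Bl (zf r) / 10 ^ 7 ≤ n1 Bl := by
      rw [div_le_iff₀ (by norm_num)]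
      have := (abs_le.mp aB).2
      linarith
    have h3 : 9 / (9 + r) ^ 2 ≤ 1 := by
      rw [div_le_one (by positivity)]
      nlinarith
    have hb0 : 0 < ev Bl (zf r) / 10 ^ 7 := by
      have : 0 < ev Bl (zf r) := by linarith
      positivity
    have h4 : 0 < 9 / (9 + r) ^ 2 := by positivity
    calc zf r ^ 2 * (ev Bl (zf r) / 10 ^ 7) * (9 / (9 + r) ^ 2)
        ≤ r ^ 2 * n1 Bl * 1 := by gcongr
      _ ≤ (n1 Nl + n1 Bl + n1 Sl + n1 Wl + 1) * r ^ 2 := by nlinarith [pow_pos hr0 2]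
  · unfold Sh Sz
    have h1 : ev Sl (zf r) = zf r ^ 3 * ev (Sl.drop 3) (zf r) := by
      simp only [Sl, List.drop, ev]
      push_cast
      ring
    rw [h1, abs_div, abs_mul, abs_of_pos (pow_pos hz 3), abs_of_pos (by norm_num : (0 : ℝ) < 360360 * 10 ^ 7),
      div_le_iff₀ (by norm_num)]
    have h2 : zf r ^ 3 * |ev (Sl.drop 3) (zf r)| ≤ r ^ 3 * n1 Sl :=
      mul_le_mul (pow_le_pow_left₀ hz.le hzr 3) aS (abs_nonneg _) (by positivity)
    have h3 : 0 < r ^ 3 := by positivity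
    have h4 : r ^ 3 * n1 Sl ≤ (n1 Nl + n1 Bl + n1 Sl + n1 Wl + 1) * r ^ 3 * 1 := by nlinarith
    have h5 : ((n1 Nl : ℝ) + n1 Bl + n1 Sl + n1 Wl + 1) * r ^ 3 * 1 ≤
        (n1 Nl + n1 Bl + n1 Sl + n1 Wl + 1) * r ^ 3 * (360360 * 10 ^ 7) :=
      mul_le_mul_of_nonneg_left (by norm_num) (by positivity)
    linarith
  · unfold ph Yz
    rw [abs_neg, abs_div, abs_div, abs_mul, abs_of_pos hz, abs_of_pos (by positivity : 0 < r ^ 2)]
    have hb2 : (1 : ℝ) ≤ 4 * ev Bl (zf r) ^ 2 := by nlinarith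
    rw [abs_of_pos (by linarith : 0 < 4 * ev Bl (zf r) ^ 2), div_le_div_iff₀ (by positivity) hr0]
    have h1 : zf r * |ev Wl (zf r)| ≤ r * n1 Wl := mul_le_mul hzr aW (abs_nonneg _) hr0.le
    have h2 : zf r * |ev Wl (zf r)| / (4 * ev Bl (zf r) ^ 2) ≤ r * n1 Wl :=
      (div_le_self (by positivity) hb2).trans h1
    calc zf r * |ev Wl (zf r)| / (4 * ev Bl (zf r) ^ 2) * r ≤ (r * n1 Wl) * r := by gcongr
      _ ≤ (n1 Nl + n1 Bl + n1 Sl + n1 Wl + 1) * r ^ 2 := by nlinarith [pow_pos hr0 2]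

end interior

end Pool.Agent.H99.HN.Dat
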