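import Pool.Agent.H99.HM.Targets

/-!
# The Coulomb Hartree equation, non-radial solutions: definitions

`u` is a function on three-space with weak gradient `G`.  Radial multipliers are given by a profile
`h : ℝ → ℝ` with derivative `h1` on `(0,∞)`.
-/

namespace Pool.Agent.H99.HN

open Pool.Agent.H99.HM
open MeasureTheory Set Filter Topology Real
open scoped ContDiff

/-! ### Functions on three-space -/

/-- The radial derivative. -/
noncomputable def dr (G : Fin 3 → E3 → ℂ) (x : E3) : ℂ := ∑ i, ((x i / ‖x‖ : ℝ) : ℂ) * G i x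

/-- `|∇u|²`. -/
noncomputable def g2 (G : Fin 3 → E3 → ℂ) (x : E3) : ℝ := ∑ i, ‖G i x‖ ^ 2

/-- `Re (conj u ∂_r u)`. -/
noncomputable def ur (u : E3 → ℂ) (G : Fin 3 → E3 → ℂ) (x : E3) : ℝ :=
  (starRingEnd ℂ (u x) * dr G x).re

/-- All polynomial moments of `|u|²` and `|∇u|²` are finite. -/
def Mom (u : E3 → ℂ) (G : Fin 3 → E3 → ℂ) : Prop :=
  ∀ n : ℕ, Integrable (fun x => ‖x‖ ^ n * ‖u x‖ ^ 2) ∧ Integrable (fun x => ‖x‖ ^ n * g2 G x)

/-- The radial part `∫ |u(y)|² / max(r,|y|) dy` of the Hartree potential. -/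
noncomputable def Ub (u : E3 → ℂ) (r : ℝ) : ℝ := ∫ y, ‖u y‖ ^ 2 / max r ‖y‖

/-- The function `∫ |u(y)|² x·(x-y)/|x-y|³ dy = - x·∇(|u|² * |x|⁻¹)`. -/
noncomputable def Zf (u : E3 → ℂ) (x : E3) : ℝ :=
  ∫ y, ‖u y‖ ^ 2 * (inner ℝ x (x - y) / ‖x - y‖ ^ 3)

/-- The radial mass measure of `u`. -/
noncomputable def nu (u : E3 → ℂ) : Measure ℝ :=
  Measure.map (fun x : E3 => ‖x‖) (volume.withDensity (fun x => ENNReal.ofReal (‖u x‖ ^ 2)))

/-- Truncation of the radius. -/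
noncomputable def mR (R r : ℝ) : ℝ := R * r / (R + r)

/-- `h` is `C¹` on `(0,∞)` with derivative `h1`. -/
structure C1 (h h1 : ℝ → ℝ) : Prop where
  der : ∀ r, 0 < r → HasDerivAt h (h1 r) r
  cont : ContinuousOn h1 (Ioi 0)

/-- growth condition: bounded near zero, polynomially bounded at infinity -/
def Gr (h : ℝ → ℝ) : Prop := ∃ (C : ℝ) (n : ℕ), ∀ r, 0 < r → |h r| ≤ C * (1 + r ^ n)

/-- growth condition: `O(1/r)` near zero, polynomially bounded at infinity -/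
def Gr1 (h : ℝ → ℝ) : Prop := ∃ (C : ℝ) (n : ℕ), ∀ r, 0 < r → |h r| ≤ C * (1 / r + r ^ n)

/-- The class of multipliers: `h > 0`, `|r h'| ≤ 3 h`, `h'(0) = 0`. -/
structure Mult (h h1 : ℝ → ℝ) : Prop where
  pos : ∀ r, 0 < r → 0 < h r
  nn : 0 ≤ h 0
  cont : ContinuousOn h (Ici 0)
  cont1 : ContinuousOn h1 (Ici 0)
  der : ∀ r, 0 < r → HasDerivAt h (h1 r) r
  zero : h1 0 = 0
  b3 : ∀ r, 0 < r → |r * h1 r| ≤ 3 * h r

/-- A flux `B` for the multiplier `h`. -/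
structure Flux (h h1 B B1 : ℝ → ℝ) : Prop where
  c1 : C1 B B1
  gr : Gr B
  gr1 : Gr1 B1
  grq : Gr1 (fun r => (B r + h1 r / 2) ^ 2 / h r)

/-- A locally Lipschitz flux `B` for the multiplier `h`, differentiable off a finite set. -/
structure LFlux (h h1 B B1 : ℝ → ℝ) : Prop where
  der : ∃ K : Finset ℝ, ∀ r, 0 < r → r ∉ K → HasDerivAt B (B1 r) r
  meas : Measurable B1
  lip : ∃ (C : ℝ) (n : ℕ), ∀ a b, 0 < a → a ≤ b → b ≤ 2 * a →
    |B b - B a| ≤ C * (1 / a + a ^ n) * (b - a)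
  gr : Gr B
  grq : Gr1 (fun r => (B r + h1 r / 2) ^ 2 / h r)

/-- The one-body term: `B' + 2 B/r - (B + h'/2)²/h - h/r`. -/
noncomputable def Kf (h h1 B B1 : ℝ → ℝ) (r : ℝ) : ℝ :=
  B1 r + 2 * B r / r - (B r + h1 r / 2) ^ 2 / h r - h r / r

/-- The two-body term `∬ h(r)/max(r,t)`. -/
noncomputable def Dh (h : ℝ → ℝ) (ν : Measure ℝ) : ℝ := ∫ r, ∫ t, h r / max r t ∂ν ∂ν

/-- Feasible radial measures. -/
structure Feas (ν : Measure ℝ) (tc κ : ℝ) : Prop where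
  fin : IsFiniteMeasure ν
  mass : (ν univ).toReal = tc
  supp : ν (Iic 0) = 0
  na : ∀ r, ν {r} = 0
  inv : Integrable (fun r : ℝ => 1 / r) ν
  mom : ∀ n : ℕ, Integrable (fun r : ℝ => r ^ n) ν
  test : ∀ h h1 B B1, Mult h h1 → Flux h h1 B B1 →
    (∫ r, Kf h h1 B B1 r ∂ν) + κ * Dh h ν ≤ 0

end Pool.Agent.H99.HN
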