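import Pool.Agent.H99.HN.Wstr
import Pool.Agent.H99.PC.Kro
import Pool.Agent.H97.TR.Cert

/-!
# Enclosures of the extremal function on `(0, 48]`: definitions and targets

`chh`, `sgh`, `omh` are the rational functions corresponding to `χ = Sx/S`, `σ = Sx/τ`,
`ω = τ/(r J)` for the trial function.  All error bounds are polynomials in `r` times `10^(-4)`.
-/

namespace Pool.Agent.H99.HN.Enc

open Pool.Agent.H99.HM Pool.Agent.H99.HN Pool.Agent.H99.PC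
open Pool.Agent.H97.TR (zf p nl n1 ny sl DD Lin Sin Ain phin)
open MeasureTheory Set Filter Topology Real

/-- mass constant of the trial function -/
noncomputable def Mh : ℝ := 1207494866 / 10 ^ 9

/-- integration constant -/
noncomputable def C1 : ℝ := 4467500806 / 10 ^ 9

def g2 : ℕ → List ℤ → List ℤ
  | _, [] => []
  | k, c :: l => (c * (360360 / (k : ℤ))) :: g2 (k + 1) l

/-- `z ∫_0^z S/z²`, multiplied by `360360 DD` -/
def gl : List ℤ := 0 :: 0 :: g2 1 (sl.drop 2)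

/-- `-r² ph` -/
noncomputable def Yh (r : ℝ) : ℝ := -(r ^ 2 * phin r)

noncomputable def chh (r : ℝ) : ℝ := r * Ain r / Sin r
noncomputable def sgh (r : ℝ) : ℝ := r * Ain r / (Mh - Sin r)

noncomputable def Jh (r : ℝ) : ℝ :=
  4 / 35 * (Mh / zf r + ev gl (zf r) / (zf r * (360360 * DD)) - C1)

noncomputable def omh (r : ℝ) : ℝ := (Mh - Sin r) / (r * Jh r)

/-! ### error bounds -/

/-- bound for `|Y - Yh|` on `(0, 48]` -/
noncomputable def eY (r : ℝ) : ℝ := (3 / 2 * r + r ^ 2 / 6) / 10 ^ 4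
/-- bound for `|L - Lin|` on `(0, 5/2]` -/
noncomputable def eTf (r : ℝ) : ℝ := (r + r ^ 2) / 10 ^ 4
/-- bound for `|L - Lin|` on `[5/2, 48]` -/
noncomputable def eTb (r : ℝ) : ℝ := (7 + r + r ^ 2 / 50) / 10 ^ 4
/-- bound for `|χ - chh|` on `(0, 5/2]` -/
noncomputable def eCf (r : ℝ) : ℝ := (2 * r + 3 / 5 * r ^ 2) / 10 ^ 4
/-- bound for `|χ - chh|` on `[5/2, 48]` -/
noncomputable def eCb : ℝ := 15 / 10 ^ 4
/-- bound for `|σ - sgh|` on `[5/2, 48]` -/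
noncomputable def eS (r : ℝ) : ℝ :=
  (6 + 33 / 10 * r + 3 / 50 * r ^ 2 + 28 / 10 ^ 7 * r ^ 5) / 10 ^ 4
/-- bound for `|ω - omh|` on `[5/2, 48]` -/
noncomputable def eO (r : ℝ) : ℝ :=
  (8 + 4 * r + 7 / 50 * r ^ 2 + 92 / 10 ^ 7 * r ^ 5) / 10 ^ 4

/-! ### targets -/

/-- enclosure of `L` -/
def ET : Prop := ∀ s s1, Ext 0 0 s s1 →
  (∀ r, 0 < r → r ≤ 5 / 2 → |Lw s s1 r - Lin r| ≤ eTf r) ∧
  (∀ r, 5 / 2 ≤ r → r ≤ 48 → |Lw s s1 r - Lin r| ≤ eTb r)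

/-- enclosure of `χ` -/
def EC : Prop := ∀ s s1, Ext 0 0 s s1 →
  (∀ r, 0 < r → r ≤ 5 / 2 → |chw s r - chh r| ≤ eCf r) ∧
  (∀ r, 5 / 2 ≤ r → r ≤ 48 → |chw s r - chh r| ≤ eCb)

/-- enclosure of `σ` -/
def ES : Prop := ∀ s s1, Ext 0 0 s s1 → ∀ r, 5 / 2 ≤ r → r ≤ 48 → |sgw s r - sgh r| ≤ eS r

/-- enclosure of `ω` -/
def EO : Prop := ∀ s s1, Ext 0 0 s s1 → ∀ r, 5 / 2 ≤ r → r ≤ 48 → |omw s r - omh r| ≤ eO r

/-- enclosure of `Y` -/
theorem EY {s s1 : ℝ → ℝ} (hE : Ext 0 0 s s1) {r : ℝ} (hr : 0 < r) (h48 : r ≤ 48) :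
    |Yw s r - Yh r| ≤ r * √r / 10 ^ 4 ∧ |Yw s r - Yh r| ≤ eY r := by
  have h := phib hE Pool.Agent.H97.TR.trial hr
  rw [Pool.Agent.H97.TR.ph_eq h48] at h
  have hs : 0 < √r := Real.sqrt_pos.mpr hr
  have hss : √r * √r = r := Real.mul_self_sqrt hr.le
  have h1 : |Yw s r - Yh r| ≤ r * √r / 10 ^ 4 := by
    have e : Yw s r - Yh r = -(r ^ 2 * (phi 0 s r - phin r)) := by
      unfold Yw Yh
      ring
    rw [e, abs_neg, abs_mul, abs_of_pos (by positivity : 0 < r ^ 2)]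
    calc r ^ 2 * |phi 0 s r - phin r| ≤ r ^ 2 * (1 / 10000 / √r) := by gcongr
      _ = r * √r / 10 ^ 4 := by
          have : r ^ 2 = r * (√r * √r) := by rw [hss]; ring
          rw [this]
          field_simp
          norm_num
  refine ⟨h1, h1.trans ?_⟩
  unfold eY
  refine div_le_div_of_nonneg_right ?_ (by positivity)
  have : 0 ≤ (√r - 3) ^ 2 := sq_nonneg _
  nlinarith

/-- a priori bounds for the mass -/
def EM : Prop := ∀ s s1, Ext 0 0 s s1 → 1206 / 1000 ≤ Mf s ∧ Mf s ≤ 1209 / 1000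

end Pool.Agent.H99.HN.Enc
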