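import Pool.Agent.H99.HN.EncH

/-!
# Enclosure of `χ`
-/

namespace Pool.Agent.H99.HN.Enc

open Pool.Agent.H99.HM Pool.Agent.H99.HN Pool.Agent.H99.PC
open Pool.Agent.H97.TR (zf p nl n1 ny sl DD Lin Sin Ain phin Lxin)
open MeasureTheory Set Filter Topology Real

/-- `X/S → 3` at zero -/
theorem near3 {X S L : ℝ → ℝ} {C : ℝ} (hC : 0 < C)
    (hX : ∀ r ∈ Ioc (0 : ℝ) 1, HasDerivAt X ((1 - 2 * L r) * X r / r) r)
    (hS : ∀ r ∈ Ioc (0 : ℝ) 1, HasDerivAt S (X r / r) r)
    (hXp : ∀ r ∈ Ioc (0 : ℝ) 1, 0 < X r) (hSp : ∀ r ∈ Ioc (0 : ℝ) 1, 0 < S r)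
    (hL : ∀ r ∈ Ioc (0 : ℝ) 1, |L r + 1| ≤ C * r)
    (hXC : ∀ r ∈ Ioc (0 : ℝ) 1, X r ≤ C * r) (hSC : ∀ r ∈ Ioc (0 : ℝ) 1, S r ≤ C * r)
    {κ : ℝ} (hκ : 0 < κ) : ∃ δ, 0 < δ ∧ δ ≤ 1 ∧ ∀ r ∈ Ioc (0 : ℝ) δ, |X r / S r - 3| ≤ κ := by
  set δ : ℝ := min 1 (κ / (2 * C)) with hδ
  have hδ0 : 0 < δ := by positivity
  refine ⟨δ, hδ0, min_le_left _ _, ?_⟩
  have key : ∀ τ : ℝ, (τ = 1 ∨ τ = -1) → ∀ r ∈ Ioc (0 : ℝ) δ,
      0 ≤ κ * S r + τ * (X r - 3 * S r) := by
    intro τ hτ
    have hsub : ∀ r ∈ Ioc (0 : ℝ) δ, r ∈ Ioc (0 : ℝ) 1 := fun r hr =>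
      ⟨hr.1, hr.2.trans (min_le_left _ _)⟩
    have hd : ∀ r ∈ Ioc (0 : ℝ) δ, HasDerivAt (fun r => κ * S r + τ * (X r - 3 * S r))
        (X r / r * (κ + τ * (-2 * (L r + 1)))) r := by
      intro r hr
      have h1 := hX r (hsub r hr)
      have h2 := hS r (hsub r hr)
      refine ((h2.const_mul κ).fun_add ((h1.fun_sub (h2.const_mul 3)).const_mul τ)).congr_deriv ?_
      have := hr.1
      field_simp
      ring
    have hmono : MonotoneOn (fun r => κ * S r + τ * (X r - 3 * S r)) (Ioc 0 δ) := by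
      refine monotoneOn_of_deriv_nonneg (convex_Ioc 0 δ)
        (fun r hr => (hd r hr).continuousAt.continuousWithinAt) ?_ ?_
      · intro r hr
        rw [interior_Ioc] at hr
        exact (hd r ⟨hr.1, hr.2.le⟩).differentiableAt.differentiableWithinAt
      · intro r hr
        rw [interior_Ioc] at hr
        have hr' : r ∈ Ioc (0 : ℝ) δ := ⟨hr.1, hr.2.le⟩
        rw [(hd r hr').deriv]
        have h1 := hL r (hsub r hr')
        have h2 := hXp r (hsub r hr')
        have h3 : r ≤ κ / (2 * C) := hr.2.le.trans (min_le_right _ _)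
        rw [le_div_iff₀ (by positivity)] at h3
        have h4 := abs_le.mp h1
        have h5 : 0 ≤ κ + τ * (-2 * (L r + 1)) := by
          rcases hτ with h | h
          · rw [h]; nlinarith [h4.2]
          · rw [h]; nlinarith [h4.1]
        have := hr.1
        positivity
    intro r hr
    have hlim : Tendsto (fun t => κ * S t + τ * (X t - 3 * S t)) (𝓝[>] 0) (𝓝 0) := by
      refine squeeze_zero_norm' (a := fun t => (κ * C + 4 * C) * t) ?_ ?_
      · have hm : Ioc (0 : ℝ) δ ∈ 𝓝[>] (0 : ℝ) := Ioc_mem_nhdsGT hδ0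
        filter_upwards [hm] with t ht
        have h1 := hXC t (hsub t ht)
        have h2 := hSC t (hsub t ht)
        have h3 := hXp t (hsub t ht)
        have h4 := hSp t (hsub t ht)
        have h5 : κ * S t ≤ κ * (C * t) := mul_le_mul_of_nonneg_left h2 hκ.le
        have h6 : 0 < κ * S t := by positivity
        rw [Real.norm_eq_abs, abs_le]
        rcases hτ with h | h
        · rw [h]; constructor <;> nlinarith
        · rw [h]; constructor <;> nlinarith
      · have : Tendsto (fun t : ℝ => (κ * C + 4 * C) * t) (𝓝 0) (𝓝 ((κ * C + 4 * C) * 0)) :=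
          (continuous_const.mul continuous_id).tendsto 0
        rw [mul_zero] at this
        exact this.mono_left nhdsWithin_le_nhds
    refine le_of_tendsto hlim ?_
    have hm : Ioc (0 : ℝ) r ∈ 𝓝[>] (0 : ℝ) := Ioc_mem_nhdsGT hr.1
    filter_upwards [hm] with t ht
    exact hmono ⟨ht.1, ht.2.trans hr.2⟩ hr ht.2
  intro r hr
  have h1 := key 1 (Or.inl rfl) r hr
  have h2 := key (-1) (Or.inr rfl) r hr
  have h3 := hSp r ⟨hr.1, hr.2.trans (min_le_left _ _)⟩
  rw [abs_le]
  constructor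
  · rw [neg_le_sub_iff_le_add, ← sub_le_iff_le_add, le_div_iff₀ h3]
    linarith
  · rw [sub_le_iff_le_add, div_le_iff₀ h3]
    linarith

/-- `χ → 3` at zero for `w` and for the trial function -/
theorem chi_near {s s1 : ℝ → ℝ} (hE : Ext 0 0 s s1) : ∃ δ, 0 < δ ∧ δ ≤ 1 / 5 ∧
    ∀ r ∈ Ioc (0 : ℝ) δ, |chw s r - 3| ≤ 1 / 8 ∧ |chh r - 3| ≤ 1 / 8 ∧ |Lw s s1 r + 1| ≤ 1 / 16 := by
  obtain ⟨C1, hC1, hw⟩ := bd0w hE
  obtain ⟨C2, ht⟩ := Pool.Agent.H97.TR.trial.bd0
  have hpow : ∀ r : ℝ, r ∈ Ioc (0 : ℝ) 1 → r ^ 3 ≤ r := by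
    intro r hr
    have := hr.1
    have := hr.2
    nlinarith [mul_pos hr.1 hr.1]
  obtain ⟨δ1, h1, h11, hd1⟩ := near3 (X := Xw s) (S := Sf s) (L := Lw s s1) (C := C1) hC1
    (fun r hr => dX hE hr.1) (fun r hr => dS hE hr.1) (fun r hr => Xw_pos hE hr.1)
    (fun r hr => Sf_pos hE hr.1) (fun r hr => (hw r hr).1)
    (fun r hr => by
      have h := (hw r hr).2.1
      unfold Xw
      have h3 := hpow r hr
      have := hr.1
      calc r * Aw s r ≤ r * (C1 * r ^ 2) := by gcongr
        _ = C1 * r ^ 3 := by ring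
        _ ≤ C1 * r := by gcongr)
    (fun r hr => by
      have h := (abs_le.mp (hw r hr).2.2.1).2
      have h3 := hpow r hr
      calc Sf s r ≤ C1 * r ^ 3 := h
        _ ≤ C1 * r := by gcongr)
    (κ := 1 / 8) (by norm_num)
  have hC2 : (0 : ℝ) < |C2| + 1 := by positivity
  obtain ⟨δ2, h2, h22, hd2⟩ := near3 (X := fun r => r * Ain r) (S := Sin) (L := Lin)
    (C := |C2| + 1) hC2
    (fun r hr => dXh hr.1 (by linarith [hr.2]))
    (fun r hr => by
      refine (Pool.Agent.H97.TR.derSin hr.1).congr_deriv ?_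
      have := hr.1
      field_simp)
    (fun r hr => mul_pos hr.1 (Pool.Agent.H97.TR.Ain_pos hr.1 (by linarith [hr.2])))
    (fun r hr => Sin_pos hr.1 (by linarith [hr.2]))
    (fun r hr => by
      have h := (ht r hr).1
      rw [Pool.Agent.H97.TR.Lh_eq (by linarith [hr.2])] at h
      have := hr.1
      nlinarith [le_abs_self C2])
    (fun r hr => by
      have h := (ht r hr).2.1
      rw [Pool.Agent.H97.TR.Ah_eq (by linarith [hr.2])] at h
      have h3 := hpow r hr
      have hr0 := hr.1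
      have h4 : C2 * r ^ 2 ≤ (|C2| + 1) * r ^ 2 :=
        mul_le_mul_of_nonneg_right (by linarith [le_abs_self C2]) (by positivity)
      calc r * Ain r ≤ r * ((|C2| + 1) * r ^ 2) := by gcongr; linarith
        _ = (|C2| + 1) * r ^ 3 := by ring
        _ ≤ (|C2| + 1) * r := by gcongr)
    (fun r hr => by
      have h := (abs_le.mp (ht r hr).2.2.1).2
      rw [Pool.Agent.H97.TR.Sh_eq (by linarith [hr.2])] at h
      have h3 := hpow r hr
      have hr0 := hr.1
      have h4 : C2 * r ^ 3 ≤ (|C2| + 1) * r ^ 3 :=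
        mul_le_mul_of_nonneg_right (by linarith [le_abs_self C2]) (by positivity)
      calc Sin r ≤ (|C2| + 1) * r ^ 3 := by linarith
        _ ≤ (|C2| + 1) * r := by gcongr)
    (κ := 1 / 8) (by norm_num)
  refine ⟨min (min δ1 δ2) (min (1 / 5) (1 / (16 * C1))), by positivity,
    (min_le_right _ _).trans (min_le_left _ _), ?_⟩
  intro r hr
  have e1 : r ≤ δ1 := hr.2.trans ((min_le_left _ _).trans (min_le_left _ _))
  have e2 : r ≤ δ2 := hr.2.trans ((min_le_left _ _).trans (min_le_right _ _))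
  have e3 : r ≤ 1 / (16 * C1) := hr.2.trans ((min_le_right _ _).trans (min_le_right _ _))
  rw [le_div_iff₀ (by positivity)] at e3
  refine ⟨hd1 r ⟨hr.1, e1⟩, hd2 r ⟨hr.1, e2⟩, ?_⟩
  have h := (hw r ⟨hr.1, e1.trans h11⟩).1
  linarith

section ineq

variable {r : ℝ}

def cfq : PE := .sub (.mul (.C 50000) (.add
  (.mul (.mul (.L [16, -32, 16]) (.L s3)) (.sub (.mul (.L [40, 170]) (.L p))
    (.mul (.L [40, 65]) (.sub (.L p) (.L nl)))))
  (.mul (.mul (.L [1, -2, 1]) (.L [1, -2, 1])) (.mul (.mul (.C (32 * C0)) (.L [20, -90]))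
    (.mul (.L p) (.L p))))))
  (.mul (.mul (.L [0, 35]) (.mul (.L [40, 65]) (.L [80, 375]))) (.mul (.L p) (.L s3)))

theorem cfq_chk : pchkL (.sub cfq (.C 1)) 600 9 [0, 1, 2] = true := by decide +kernel

theorem Cf_ineq (hr : 0 < r) (h2 : r ≤ 5 / 2) :
    eCf r * (1 - 2 * Lin r + 2 * eTf r - 2 * chh r + eCf r) + 2 * chh r * eTf r <
      (2 * r + 6 / 5 * r ^ 2) / 10 ^ 4 := by
  have h48 : r ≤ 48 := by linarith
  have hz0 := Pool.Agent.H97.TR.zf_pos hr
  have hz1 := Pool.Agent.H97.TR.zf_lt_one hr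
  have hu : 0 < 1 - zf r := by linarith
  have hzu := z_u hr
  have hhi : zf r ≤ 2 / 9 := by
    have := zf_mono hr h2
    rwa [zf_at (5 / 2) (b := 2 / 9) (by norm_num)] at this
  have hp := Pool.Agent.H97.TR.p_pos hz0.le (Pool.Agent.H97.TR.zf_le48 hr h48)
  have hs := s3_pos hz0.le (Pool.Agent.H97.TR.zf_le48 hr h48)
  have hc := pchkL_sound (by norm_num) _ _ _ 2 cfq_chk rfl (zf r)
    (by push_cast; simpa using hz0.le) (by push_cast; linarith)
  simp only [PE.ev] at hc
  push_cast at hc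
  have hc' : 0 < cfq.ev (zf r) := by linarith
  rw [← sub_pos]
  have key : (2 * r + 6 / 5 * r ^ 2) / 10 ^ 4 -
      (eCf r * (1 - 2 * Lin r + 2 * eTf r - 2 * chh r + eCf r) + 2 * chh r * eTf r) =
      r * (cfq.ev (zf r) / (5 * 10 ^ 4 * (5 * 10 ^ 4) * ev p (zf r) * ev s3 (zf r) *
        (64 * (1 - zf r) ^ 3))) := by
    rw [chh_z hr h48]
    unfold eCf eTf Lin
    generalize zf r = z at *
    subst hzu
    simp only [cfq, PE.ev, ev]
    generalize ev p z = b at *
    generalize ev nl z = n at *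
    generalize ev s3 z = s at *
    generalize C0 = c0 at *
    push_cast
    field_simp
    ring
  rw [key]
  positivity

def cbq : PE := .sub (.add
  (.mul (.mul (.L [12 * 10 ^ 7, -24 * 10 ^ 7, 12 * 10 ^ 7]) (.L s3)) (.sub (.L nl) (.L p)))
  (.mul (.mul (.C (2 * 10 ^ 4 * C0)) (.L [1, -2, 1])) (.mul (.mul (.L p) (.L p))
    (.sub (.L [12000, -24000, 12000]) (.L dn)))))
  (.mul (.mul (.L p) (.L s3)) (.add (.mul (.C 30) (.L dn)) (.L [180000, -360000, 180000])))

theorem cbq_chk : pchkL (.sub cbq (.C 1)) 600 2043 [454, 800, 1200, 1500, 1728] = true := by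
  decide +kernel

theorem Cb_ineq (h1 : 5 / 2 ≤ r) (h2 : r ≤ 48) :
    eCb * (1 - 2 * Lin r + 2 * eTb r - 2 * chh r + eCb) + 2 * chh r * eTb r < 0 := by
  have hr : 0 < r := by linarith
  have hz0 := Pool.Agent.H97.TR.zf_pos hr
  have hz1 := Pool.Agent.H97.TR.zf_lt_one hr
  have hu : 0 < 1 - zf r := by linarith
  have hzu := z_u hr
  have hlo : 454 / 2043 ≤ zf r := by
    have := zf_mono (by norm_num) h1
    rwa [zf_at (5 / 2) (b := 454 / 2043) (by norm_num)] at this
  have hhi : zf r ≤ 1728 / 2043 := by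
    have := Pool.Agent.H97.TR.zf_le48 hr h2
    linarith
  have hp := Pool.Agent.H97.TR.p_pos hz0.le (Pool.Agent.H97.TR.zf_le48 hr h2)
  have hs := s3_pos hz0.le (Pool.Agent.H97.TR.zf_le48 hr h2)
  have hc := pchkL_sound (by norm_num) _ _ _ 1728 cbq_chk rfl (zf r) (by push_cast; linarith)
    (by push_cast; linarith)
  simp only [PE.ev] at hc
  push_cast at hc
  have hc' : 0 < cbq.ev (zf r) := by linarith
  have he : eTb r = ev dn (zf r) / (800 * (1 - zf r) ^ 2) / 10 ^ 4 := by
    rw [← eTb_z hu.ne', ← hzu]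
  have key : -(eCb * (1 - 2 * Lin r + 2 * eTb r - 2 * chh r + eCb) + 2 * chh r * eTb r) =
      cbq.ev (zf r) / (10 ^ 8 * ev p (zf r) * ev s3 (zf r) * (800 * (1 - zf r) ^ 2)) := by
    rw [chh_z hr h2, he]
    unfold eCb Lin
    simp only [cbq, PE.ev, ev]
    generalize zf r = z at *
    generalize ev p z = b at *
    generalize ev nl z = n at *
    generalize ev s3 z = s at *
    generalize ev dn z = d at *
    generalize C0 = c0 at *
    push_cast
    field_simp
    ring
  have : 0 < cbq.ev (zf r) / (10 ^ 8 * ev p (zf r) * ev s3 (zf r) * (800 * (1 - zf r) ^ 2)) := by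
    positivity
  linarith

theorem chh_pos (hr : 0 < r) (h : r ≤ 48) : 0 < chh r :=
  div_pos (mul_pos hr (Pool.Agent.H97.TR.Ain_pos hr h)) (Sin_pos hr h)

end ineq

/-- the enclosure of `χ` -/
theorem ec : EC := by
  intro s s1 hE
  obtain ⟨hTf, hTb⟩ := et s s1 hE
  have hder : ∀ r : ℝ, 0 < r → r ≤ 48 → HasDerivAt (fun r => chw s r - chh r)
      (((chw s r - chh r) * (1 - 2 * Lw s s1 r - chw s r - chh r) -
        2 * chh r * (Lw s s1 r - Lin r)) / r) r := by
    intro r hr h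
    refine ((dch (s1 := s1) hE hr).fun_sub (dchh hr h)).congr_deriv ?_
    ring
  have hfor : ∀ τ : ℝ, (τ = 1 ∨ τ = -1) → ∀ r ∈ Ioc (0 : ℝ) (5 / 2),
      τ * (chw s r - chh r) - eCf r ≤ 0 := by
    intro τ hτ
    have hτ1 : |τ| = 1 := by rcases hτ with h | h <;> rw [h] <;> norm_num
    have hτ2 : τ * τ = 1 := by rcases hτ with h | h <;> rw [h] <;> norm_num
    have hτle : -1 ≤ τ ∧ τ ≤ 1 := abs_le.mp hτ1.le
    obtain ⟨δ, hδ0, hδ1, hnear⟩ := chi_near hE
    refine fwd0 (f := fun r => τ * (chw s r - chh r) - eCf r)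
      (f1 := fun r => (τ * ((chw s r - chh r) * (1 - 2 * Lw s s1 r - chw s r - chh r) -
        2 * chh r * (Lw s s1 r - Lin r)) - (2 * r + 6 / 5 * r ^ 2) / 10 ^ 4) / r)
        (b := 5 / 2) (C := 1) hδ0 ?_ ?_ ?_ ?_
    · intro r hr
      have hr0 := hr.1
      have h1 := (hder r hr0 (by linarith [hr.2])).const_mul τ
      have h2 : HasDerivAt eCf ((2 + 6 / 5 * r) / 10 ^ 4) r := by
        unfold eCf
        have := (((hasDerivAt_id' r).const_mul 2).fun_add
          (((hasDerivAt_id' r).fun_pow 2).const_mul (3 / 5))).div_const (10 ^ 4)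
        refine this.congr_deriv ?_
        push_cast
        ring
      refine (h1.fun_sub h2).congr_deriv ?_
      field_simp
    · intro r hr
      obtain ⟨h1, h2, -⟩ := hnear r hr
      have hr0 := hr.1
      have h3 : |τ * (chw s r - chh r)| ≤ 1 / 4 := by
        rw [abs_mul, hτ1, one_mul]
        have : chw s r - chh r = (chw s r - 3) - (chh r - 3) := by ring
        rw [this]
        refine (abs_sub _ _).trans ?_
        linarith
      have h4 : 0 ≤ eCf r := by unfold eCf; positivity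
      have := (abs_le.mp h3).2
      linarith
    · intro r hr hf
      obtain ⟨h1, h2, h3⟩ := hnear r hr
      have hr0 := hr.1
      have hr5 : r ≤ 1 / 5 := hr.2.trans hδ1
      have hT := hTf r hr0 (by linarith)
      rw [mul_div_cancel₀ _ hr0.ne']
      have a1 := abs_le.mp h1
      have a2 := abs_le.mp h2
      have a3 := abs_le.mp h3
      have heC : 0 ≤ eCf r := by unfold eCf; positivity
      have hX : eCf r < τ * (chw s r - chh r) := by linarith
      have b1 : τ * ((chw s r - chh r) * (1 - 2 * Lw s s1 r - chw s r - chh r)) ≤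
          -(5 / 2) * (τ * (chw s r - chh r)) := by
        have : 1 - 2 * Lw s s1 r - chw s r - chh r ≤ -(5 / 2) := by linarith
        nlinarith
      have b2 : -(τ * (2 * chh r * (Lw s s1 r - Lin r))) ≤ 25 / 4 * eTf r := by
        have : |τ * (Lw s s1 r - Lin r)| ≤ eTf r := by
          rw [abs_mul, hτ1, one_mul]; exact hT
        have h4 := (abs_le.mp this).1
        have h5 : 0 < chh r := by linarith
        have h6 : 0 ≤ eTf r := by unfold eTf; positivity
        nlinarith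
      have b3 : 25 / 4 * eTf r - (2 * r + 6 / 5 * r ^ 2) / 10 ^ 4 ≤ 5 / 2 * eCf r := by
        unfold eTf eCf
        have : r ^ 2 ≤ r * (1 / 5) := by nlinarith
        have e : 5 / 2 * ((2 * r + 3 / 5 * r ^ 2) / 10 ^ 4) - (25 / 4 * ((r + r ^ 2) / 10 ^ 4) -
          (2 * r + 6 / 5 * r ^ 2) / 10 ^ 4) = (3 / 4 * r - 71 / 20 * r ^ 2) / 10 ^ 4 := by ring
        have : 0 ≤ (3 / 4 * r - 71 / 20 * r ^ 2) / 10 ^ 4 := div_nonneg (by nlinarith) (by norm_num)
        linarith
      have e : τ * ((chw s r - chh r) * (1 - 2 * Lw s s1 r - chw s r - chh r) -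
        2 * chh r * (Lw s s1 r - Lin r)) =
        τ * ((chw s r - chh r) * (1 - 2 * Lw s s1 r - chw s r - chh r)) -
        τ * (2 * chh r * (Lw s s1 r - Lin r)) := by ring
      rw [e]
      linarith
    · intro r hr hf
      have hr0 := hr.1
      have h48 : r ≤ 48 := by linarith [hr.2]
      have hT := hTf r hr0 hr.2
      have hin := Cf_ineq hr0 hr.2
      have heC : 0 < eCf r := by unfold eCf; positivity
      have heT : 0 < eTf r := by unfold eTf; positivity
      have hch := chh_pos hr0 h48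
      have hZ : chw s r - chh r = τ * eCf r := by
        have : τ * (chw s r - chh r) = eCf r := by linarith
        calc chw s r - chh r = τ * τ * (chw s r - chh r) := by rw [hτ2, one_mul]
          _ = τ * (τ * (chw s r - chh r)) := by ring
          _ = τ * eCf r := by rw [this]
      have hc : chw s r = chh r + τ * eCf r := by linarith
      refine div_neg_of_neg_of_pos ?_ hr0
      rw [hZ, hc]
      have e : τ * (τ * eCf r * (1 - 2 * Lw s s1 r - (chh r + τ * eCf r) - chh r) -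
          2 * chh r * (Lw s s1 r - Lin r)) =
          τ * τ * (eCf r * (1 - 2 * Lw s s1 r - (chh r + τ * eCf r) - chh r)) -
          2 * chh r * (τ * (Lw s s1 r - Lin r)) := by ring
      rw [e, hτ2, one_mul]
      have hTa : |τ * (Lw s s1 r - Lin r)| ≤ eTf r := by rw [abs_mul, hτ1, one_mul]; exact hT
      have hT1 := (abs_le.mp hTa).1
      have hT2 := abs_le.mp hT
      have b1 : eCf r * (1 - 2 * Lw s s1 r - (chh r + τ * eCf r) - chh r) ≤
          eCf r * (1 - 2 * Lin r + 2 * eTf r - 2 * chh r + eCf r) := by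
        refine mul_le_mul_of_nonneg_left ?_ heC.le
        nlinarith [hτle.1]
      have b2 : -(2 * chh r * (τ * (Lw s s1 r - Lin r))) ≤ 2 * chh r * eTf r := by nlinarith
      linarith
  have hfor' : ∀ r, 0 < r → r ≤ 5 / 2 → |chw s r - chh r| ≤ eCf r := by
    intro r hr h2
    have h3 := hfor 1 (Or.inl rfl) r ⟨hr, h2⟩
    have h4 := hfor (-1) (Or.inr rfl) r ⟨hr, h2⟩
    rw [abs_le]
    constructor <;> linarith
  refine ⟨hfor', ?_⟩
  have key : ∀ τ : ℝ, (τ = 1 ∨ τ = -1) → ∀ r ∈ Icc (5 / 2 : ℝ) 48,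
      τ * (chw s r - chh r) - eCb < 0 := by
    intro τ hτ
    have hτ1 : |τ| = 1 := by rcases hτ with h | h <;> rw [h] <;> norm_num
    have hτ2 : τ * τ = 1 := by rcases hτ with h | h <;> rw [h] <;> norm_num
    have hτle : -1 ≤ τ ∧ τ ≤ 1 := abs_le.mp hτ1.le
    refine fwd (f := fun r => τ * (chw s r - chh r) - eCb)
      (f1 := fun r => τ * ((chw s r - chh r) * (1 - 2 * Lw s s1 r - chw s r - chh r) -
        2 * chh r * (Lw s s1 r - Lin r)) / r) ?_ ?_ ?_
    · intro r hr
      have hr0 : 0 < r := by linarith [hr.1]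
      refine (((hder r hr0 hr.2).const_mul τ).sub_const eCb).congr_deriv ?_
      ring
    · have h1 := hfor' (5 / 2) (by norm_num) le_rfl
      have h2 : τ * (chw s (5 / 2) - chh (5 / 2)) ≤ |chw s (5 / 2) - chh (5 / 2)| := by
        calc τ * (chw s (5 / 2) - chh (5 / 2)) ≤ |τ * (chw s (5 / 2) - chh (5 / 2))| :=
              le_abs_self _
          _ = |chw s (5 / 2) - chh (5 / 2)| := by rw [abs_mul, hτ1, one_mul]
      have h3 : eCf (5 / 2) < eCb := by unfold eCf eCb; norm_num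
      linarith
    · intro r hr hf
      have hr0 : 0 < r := by linarith [hr.1]
      have hT := hTb r hr.1 hr.2
      have hin := Cb_ineq hr.1 hr.2
      have heC : 0 < eCb := by unfold eCb; norm_num
      have heT : 0 < eTb r := by unfold eTb; positivity
      have hch := chh_pos hr0 hr.2
      have hZ : chw s r - chh r = τ * eCb := by
        have : τ * (chw s r - chh r) = eCb := by linarith
        calc chw s r - chh r = τ * τ * (chw s r - chh r) := by rw [hτ2, one_mul]
          _ = τ * (τ * (chw s r - chh r)) := by ring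
          _ = τ * eCb := by rw [this]
      have hc : chw s r = chh r + τ * eCb := by linarith
      refine div_neg_of_neg_of_pos ?_ hr0
      rw [hZ, hc]
      have e : τ * (τ * eCb * (1 - 2 * Lw s s1 r - (chh r + τ * eCb) - chh r) -
          2 * chh r * (Lw s s1 r - Lin r)) =
          τ * τ * (eCb * (1 - 2 * Lw s s1 r - (chh r + τ * eCb) - chh r)) -
          2 * chh r * (τ * (Lw s s1 r - Lin r)) := by ring
      rw [e, hτ2, one_mul]
      have hTa : |τ * (Lw s s1 r - Lin r)| ≤ eTb r := by rw [abs_mul, hτ1, one_mul]; exact hT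
      have hT1 := (abs_le.mp hTa).1
      have hT2 := abs_le.mp hT
      have b1 : eCb * (1 - 2 * Lw s s1 r - (chh r + τ * eCb) - chh r) ≤
          eCb * (1 - 2 * Lin r + 2 * eTb r - 2 * chh r + eCb) := by
        refine mul_le_mul_of_nonneg_left ?_ heC.le
        nlinarith [hτle.1]
      have b2 : -(2 * chh r * (τ * (Lw s s1 r - Lin r))) ≤ 2 * chh r * eTb r := by nlinarith
      linarith
  intro r h1 h2
  have h3 := key 1 (Or.inl rfl) r ⟨h1, h2⟩
  have h4 := key (-1) (Or.inr rfl) r ⟨h1, h2⟩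
  rw [abs_le]
  constructor <;> linarith

end Pool.Agent.H99.HN.Enc
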