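import Pool.Agent.H99.HN.EncT

/-!
# Differential equations of the rational functions `chh`, `sgh`, `omh`
-/

namespace Pool.Agent.H99.HN.Enc

open Pool.Agent.H99.HM Pool.Agent.H99.HN Pool.Agent.H99.PC
open Pool.Agent.H97.TR (zf p nl n1 ny sl DD Lin Sin Ain phin Lxin)
open MeasureTheory Set Filter Topology Real

variable {r : ℝ}

/-- `s3 = sl / z³` -/
def s3 : List ℤ := sl.drop 3

theorem sl_eq (z : ℝ) : ev sl z = z ^ 3 * ev s3 z := by
  have h : sl = 0 :: 0 :: 0 :: s3 := by decide +kernel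
  rw [h]
  simp only [ev]
  push_cast
  ring

theorem DD_pos : (0 : ℝ) < DD := by unfold Pool.Agent.H97.TR.DD; norm_num

theorem s3_chk : pchkL (.sub (.L s3) (.C 1)) 400 227 [0, 100, 192] = true := by decide +kernel

theorem s3_pos {z : ℝ} (h0 : 0 ≤ z) (h1 : z ≤ 192 / 227) : 0 < ev s3 z := by
  have h := pchkL_sound (by norm_num) _ _ _ 192 s3_chk rfl z (by push_cast; simpa using h0)
    (by push_cast; linarith)
  simp only [PE.ev] at h
  push_cast at h
  linarith

theorem Sin_pos (hr : 0 < r) (h : r ≤ 48) : 0 < Sin r := by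
  have hz := Pool.Agent.H97.TR.zf_pos hr
  have := s3_pos hz.le (Pool.Agent.H97.TR.zf_le48 hr h)
  have := DD_pos
  unfold Pool.Agent.H97.TR.Sin
  rw [sl_eq]
  positivity

/-- `10^9 DD (Mh - Sin)` -/
def tl : PE := .sub (.C (1207494866 * DD)) (.mul (.C (10 ^ 9)) (.L sl))

theorem tl_chk : pchkL (.sub tl (.C 1)) 400 227 [0, 100, 192] = true := by decide +kernel

theorem tau_eq (r : ℝ) : Mh - Sin r = tl.ev (zf r) / (10 ^ 9 * DD) := by
  have := DD_pos
  unfold Mh Pool.Agent.H97.TR.Sin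
  simp only [tl, PE.ev]
  push_cast
  field_simp
  ring

theorem tl_pos {z : ℝ} (h0 : 0 ≤ z) (h1 : z ≤ 192 / 227) : 0 < tl.ev z := by
  have h := pchkL_sound (by norm_num) _ _ _ 192 tl_chk rfl z (by push_cast; simpa using h0)
    (by push_cast; linarith)
  simp only [PE.ev] at h
  push_cast at h
  linarith

theorem tauh_pos (hr : 0 < r) (h : r ≤ 48) : 0 < Mh - Sin r := by
  have hz := Pool.Agent.H97.TR.zf_pos hr
  have := tl_pos hz.le (Pool.Agent.H97.TR.zf_le48 hr h)
  have := DD_pos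
  rw [tau_eq]
  positivity

/-- `10^9 · 360360 DD (Mh + gl/(360360 DD) - C1 z)` -/
def ul : PE := .add (.L [1207494866 * 360360 * DD, -(4467500806 * 360360 * DD)])
  (.mul (.C (10 ^ 9)) (.L gl))

theorem ul_chk : pchkL (.sub ul (.C 1)) 400 227 [0, 100, 192] = true := by decide +kernel

theorem ul_pos {z : ℝ} (h0 : 0 ≤ z) (h1 : z ≤ 192 / 227) : 0 < ul.ev z := by
  have h := pchkL_sound (by norm_num) _ _ _ 192 ul_chk rfl z (by push_cast; simpa using h0)
    (by push_cast; linarith)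
  simp only [PE.ev] at h
  push_cast at h
  linarith

theorem Jh_eq (hr : 0 < r) : Jh r = 4 / 35 * (ul.ev (zf r) / (zf r * (10 ^ 9 * 360360 * DD))) := by
  have hz := Pool.Agent.H97.TR.zf_pos hr
  have := DD_pos
  unfold Jh Mh C1
  simp only [ul, PE.ev, ev]
  push_cast
  field_simp
  ring

theorem Jh_pos (hr : 0 < r) (h : r ≤ 48) : 0 < Jh r := by
  have hz := Pool.Agent.H97.TR.zf_pos hr
  have := ul_pos hz.le (Pool.Agent.H97.TR.zf_le48 hr h)
  have := DD_pos
  rw [Jh_eq hr]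
  positivity

theorem gl_chk : Pool.Agent.H97.TR.eqv (sub (mul [0, 1] (dv gl)) gl) (smul 360360 sl) = true := by
  decide +kernel

theorem gl_id (z : ℝ) : z * ev (dv gl) z - ev gl z = 360360 * ev sl z := by
  have h := Pool.Agent.H97.TR.ev_eqv gl_chk z
  rw [ev_sub, ev_mul, ev_smul] at h
  simp only [ev] at h
  push_cast at h
  linarith

/-- `Xh = r Ain` -/
theorem dXh (hr : 0 < r) (h : r ≤ 48) :
    HasDerivAt (fun r => r * Ain r) ((1 - 2 * Lin r) * (r * Ain r) / r) r := by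
  refine ((hasDerivAt_id' r).fun_mul (Pool.Agent.H97.TR.derAin hr h)).congr_deriv ?_
  field_simp
  ring

theorem dchh (hr : 0 < r) (h : r ≤ 48) :
    HasDerivAt chh (chh r * (1 - 2 * Lin r - chh r) / r) r := by
  have hS := Sin_pos hr h
  refine ((dXh hr h).fun_div (Pool.Agent.H97.TR.derSin hr) hS.ne').congr_deriv ?_
  unfold chh
  field_simp

theorem dsgh (hr : 0 < r) (h : r ≤ 48) :
    HasDerivAt sgh (sgh r * (1 - 2 * Lin r + sgh r) / r) r := by
  have hS := tauh_pos hr h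
  refine ((dXh hr h).fun_div ((Pool.Agent.H97.TR.derSin hr).const_sub Mh) hS.ne').congr_deriv ?_
  unfold sgh
  field_simp
  ring

theorem dJh (hr : 0 < r) : HasDerivAt Jh (-((Mh - Sin r) / r ^ 2)) r := by
  have hz := Pool.Agent.H97.TR.zf_pos hr
  have hz1 := Pool.Agent.H97.TR.zf_lt_one hr
  have hD := DD_pos
  have hzu := z_u hr
  have hu : 1 - zf r ≠ 0 := by linarith
  have h1 : HasDerivAt (fun z : ℝ => 4 / 35 * (Mh / z + ev gl z / (z * (360360 * DD)) - C1))
      (4 / 35 * (-(Mh / zf r ^ 2) + (zf r * ev (dv gl) (zf r) - ev gl (zf r)) /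
        (zf r ^ 2 * (360360 * DD)))) (zf r) := by
    have a1 := ((hasDerivAt_const (zf r) Mh).fun_div (hasDerivAt_id' (zf r)) hz.ne')
    have a2 := ((hasDerivAt_ev gl (zf r)).fun_div ((hasDerivAt_id' (zf r)).mul_const
      (360360 * (DD : ℝ))) (by positivity))
    refine (((a1.fun_add a2).sub_const C1).const_mul (4 / 35)).congr_deriv ?_
    field_simp
    ring
  rw [gl_id] at h1
  have h2 := h1.comp r (Pool.Agent.H97.TR.der_zf hr)
  unfold Jh
  refine h2.congr_deriv ?_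
  unfold Pool.Agent.H97.TR.Sin
  generalize zf r = z at *
  subst hzu
  field_simp
  ring

theorem domh (hr : 0 < r) (h : r ≤ 48) :
    HasDerivAt omh (omh r * (omh r - 1 - sgh r) / r) r := by
  have hS := tauh_pos hr h
  have hJ := Jh_pos hr h
  refine (((Pool.Agent.H97.TR.derSin hr).const_sub Mh).fun_div
    ((hasDerivAt_id' r).fun_mul (dJh hr)) (mul_pos hr hJ).ne').congr_deriv ?_
  unfold omh sgh
  field_simp
  ring

/-! ### formulas in `z` -/

/-- `2498261861 · 42875 · 360360` -/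
def C0 : ℤ := 2498261861 * 42875 * 360360

theorem Xh_z (hr : 0 < r) : r * Ain r = C0 * zf r ^ 3 * (1 - zf r) ^ 2 * ev p (zf r) / DD := by
  have hz := Pool.Agent.H97.TR.zf_pos hr
  have hz1 := Pool.Agent.H97.TR.zf_lt_one hr
  have hD := DD_pos
  have hzu := z_u hr
  have hu : 1 - zf r ≠ 0 := by linarith
  have hDD : (DD : ℝ) = 10 ^ 17 * 64 * 360360 := by
    unfold Pool.Agent.H97.TR.DD; push_cast; ring
  unfold Pool.Agent.H97.TR.Ain C0
  rw [hDD]
  push_cast
  generalize ev p (zf r) = b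
  generalize zf r = z at *
  subst hzu
  field_simp
  ring

theorem chh_z (hr : 0 < r) (h : r ≤ 48) :
    chh r = C0 * (1 - zf r) ^ 2 * ev p (zf r) / ev s3 (zf r) := by
  have hz := Pool.Agent.H97.TR.zf_pos hr
  have hD := DD_pos
  have h3 := s3_pos hz.le (Pool.Agent.H97.TR.zf_le48 hr h)
  unfold chh
  rw [Xh_z hr]
  unfold Pool.Agent.H97.TR.Sin
  rw [sl_eq]
  field_simp

theorem sgh_z (hr : 0 < r) (h : r ≤ 48) :
    sgh r = 10 ^ 9 * C0 * zf r ^ 3 * (1 - zf r) ^ 2 * ev p (zf r) / tl.ev (zf r) := by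
  have hz := Pool.Agent.H97.TR.zf_pos hr
  have hD := DD_pos
  have h3 := tl_pos hz.le (Pool.Agent.H97.TR.zf_le48 hr h)
  unfold sgh
  rw [Xh_z hr, tau_eq]
  field_simp

theorem omh_z (hr : 0 < r) (h : r ≤ 48) :
    omh r = 360360 * (1 - zf r) * tl.ev (zf r) / ul.ev (zf r) := by
  have hz := Pool.Agent.H97.TR.zf_pos hr
  have hz1 := Pool.Agent.H97.TR.zf_lt_one hr
  have hD := DD_pos
  have hzu := z_u hr
  have hu : 1 - zf r ≠ 0 := by linarith
  have h3 := ul_pos hz.le (Pool.Agent.H97.TR.zf_le48 hr h)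
  unfold omh
  rw [Jh_eq hr, tau_eq]
  generalize tl.ev (zf r) = t at *
  generalize ul.ev (zf r) = u at *
  generalize zf r = z at *
  subst hzu
  field_simp

end Pool.Agent.H99.HN.Enc
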