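import Pool.Agent.H99.HN.Main
import Pool.Agent.H99.HN.EncS
import Pool.Agent.H85.HN.Wb

/-!
# The Coulomb Hartree equation: final theorem
-/

namespace Pool.Agent.H99.HN.Fin

open Pool.Agent Pool.Agent.H99.HN.Enc

/-- bounds for the mass -/
theorem em : EM := H85.HN.WF.em et ec es eo

/-- every solution of the Hartree equation has mass at most the critical mass -/
theorem fin : T_full :=
  Main.full (H85.HN.WF.w0 em) (H85.HN.WF.w1 et ec es eo em) (H85.HN.WF.w2 et ec es eo)
    (H85.HN.WF.w3a et ec es eo) (H85.HN.WF.w3b et ec es eo) (H85.HN.WF.w4 et ec es eo em)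
    H85.HN.WF.w5

end Pool.Agent.H99.HN.Fin
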