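import Pool.Agent.H99.HN.Targets
import Pool.Agent.H99.HM.Main

/-!
# The Hartree ground state: comparison with a trial function

`w`: `S = Sf s`, `S' = 4π s²`, `L = -r s1/s`.  Trial: `Sh`, `Ah = Sh'`, `Lh`, `ph` (potential),
`rho = 1 - Sh + r² ph'`.
-/

namespace Pool.Agent.H99.HN

open Pool.Agent.H99.HM
open MeasureTheory Set Filter Topology Real

/-- `L = - r s'/s` -/
noncomputable def Lw (s s1 : ℝ → ℝ) (r : ℝ) : ℝ := -(r * s1 r / s r)

/-- `S' = 4π s²` -/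
noncomputable def Aw (s : ℝ → ℝ) (r : ℝ) : ℝ := 4 * π * s r ^ 2

/-- A trial function. -/
structure Trial (Sh Ah Lh ph rho : ℝ → ℝ) (K : Finset ℝ) (eps : ℝ) : Prop where
  Apos : ∀ r, 0 < r → 0 < Ah r
  derS : ∀ r, 0 < r → HasDerivAt Sh (Ah r) r
  derA : ∀ r, 0 < r → HasDerivAt Ah (-(2 * Lh r / r * Ah r)) r
  derL : ∀ r, 0 < r → HasDerivAt Lh ((Lh r ^ 2 + Lh r + r ^ 2 * ph r) / r) r
  contp : ContinuousOn ph (Ioi 0)
  derp : ∀ r, 0 < r → r ∉ K → HasDerivAt ph ((rho r - 1 + Sh r) / r ^ 2) r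
  bd0 : ∃ C, ∀ r ∈ Ioc (0 : ℝ) 1,
    |Lh r + 1| ≤ C * r ∧ Ah r ≤ C * r ^ 2 ∧ |Sh r| ≤ C * r ^ 3 ∧ |ph r| ≤ C / r
  bdi : ∃ C, ∀ r, 1 ≤ r → |Lh r| ≤ C * r ∧ |Sh r| ≤ C
  limA : Tendsto Ah atTop (𝓝 0)
  limp : Tendsto ph atTop (𝓝 0)
  meas : AEStronglyMeasurable rho (volume.restrict (Ioi 0))
  rint : IntegrableOn (fun r => rho r ^ 2 / r ^ 2) (Ioi 0)
  rbd : ∫ r in Ioi (0 : ℝ), rho r ^ 2 / r ^ 2 ≤ eps ^ 2
  eps0 : 0 < eps

section w

variable {s s1 : ℝ → ℝ}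

theorem derLw (hE : Ext 0 0 s s1) {r : ℝ} (hr : 0 < r) :
    HasDerivAt (Lw s s1) ((Lw s s1 r ^ 2 + Lw s s1 r + r ^ 2 * phi 0 s r) / r) r := by
  have hs := hE.pos r hr
  have h1 := hE.der r hr
  have h2 := hE.der1 r hr
  have h3 : HasDerivAt (fun r => r * s1 r / s r)
      (((1 * s1 r + r * ((0 - phi 0 s r) * s r)) * s r - r * s1 r * s1 r) / s r ^ 2) r :=
    ((hasDerivAt_id' r).mul h2).div h1 hs.ne'
  have h4 := h3.neg
  unfold Lw
  refine h4.congr_deriv ?_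
  field_simp
  ring

theorem derAw (hE : Ext 0 0 s s1) {r : ℝ} (hr : 0 < r) :
    HasDerivAt (Aw s) (-(2 * Lw s s1 r / r * Aw s r)) r := by
  have hs := hE.pos r hr
  have h1 := ((hE.der r hr).pow 2).const_mul (4 * π)
  unfold Aw Lw
  refine h1.congr_deriv ?_
  field_simp
  push_cast
  ring

theorem Aw_pos (hE : Ext 0 0 s s1) {r : ℝ} (hr : 0 < r) : 0 < Aw s r := by
  have := hE.pos r hr
  unfold Aw
  positivity

theorem derSw (hE : Ext 0 0 s s1) {r : ℝ} (hr : 0 < r) : HasDerivAt (Sf s) (Aw s r) r :=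
  (Main.facts 0 0 s s1 hE).Sder r hr

theorem derphi (hE : Ext 0 0 s s1) {r : ℝ} (hr : 0 < r) :
    HasDerivAt (phi 0 s) ((Sf s r - 1) / r ^ 2) r := by
  have := (Main.facts 0 0 s s1 hE).phiDer r hr
  refine this.congr_deriv ?_
  simp only [zero_add]
  ring

/-- behaviour of `w` near zero -/
theorem bd0w (hE : Ext 0 0 s s1) : ∃ C, 0 < C ∧ ∀ r ∈ Ioc (0 : ℝ) 1,
    |Lw s s1 r + 1| ≤ C * r ∧ Aw s r ≤ C * r ^ 2 ∧ |Sf s r| ≤ C * r ^ 3 ∧
      |phi 0 s r| ≤ C / r := by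
  have hF := Main.facts 0 0 s s1 hE
  obtain ⟨-, -, hK⟩ := Main.K2 0 0 s s1 hE
  obtain ⟨c, C, hc, hC, hcC⟩ := hF.near0
  have hc1 := hE.cont1
  refine ⟨max (max (102 / c) (4 * π * C ^ 2)) (max C (1 + Mf s)), ?_, ?_⟩
  · exact lt_max_of_lt_right (lt_max_of_lt_left hC)
  intro r hr
  have hr' : r ∈ Icc (0 : ℝ) 1 := ⟨hr.1.le, hr.2⟩
  obtain ⟨h1, h2, h3, h4⟩ := hcC r hr'
  have hsr := hE.pos r hr.1
  refine ⟨?_, ?_, ?_, ?_⟩
  · -- s r = ∫ s1
    have h5 : |s r - s1 0 * r| ≤ 34 * r ^ 2 := by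
      have hs0 : s r = ∫ t in (0 : ℝ)..r, s1 t := (hF.vg r hr.1.le).symm
      have hi1 : IntervalIntegrable s1 volume 0 r := by
        refine (hc1.mono ?_).intervalIntegrable
        rw [uIcc_of_le hr.1.le]
        exact fun t ht => ht.1
      have h6 : s r - s1 0 * r = ∫ t in (0 : ℝ)..r, (s1 t - s1 0) := by
        rw [intervalIntegral.integral_sub hi1 (by simp), hs0]
        simp [mul_comm]
      have hi2 : IntervalIntegrable (fun t : ℝ => 68 * t) volume 0 r :=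
        (continuous_const.mul continuous_id).intervalIntegrable _ _
      rw [h6]
      have h7 : ‖∫ t in (0 : ℝ)..r, (s1 t - s1 0)‖ ≤ |∫ t in (0 : ℝ)..r, 68 * t| := by
        refine intervalIntegral.norm_integral_le_abs_of_norm_le ?_ hi2
        refine (ae_restrict_iff' measurableSet_uIoc).mpr (Eventually.of_forall fun t ht => ?_)
        rw [uIoc_of_le hr.1.le] at ht
        exact (hK t ⟨ht.1.le, ht.2.trans hr.2⟩).1
      rw [Real.norm_eq_abs] at h7
      refine h7.trans (le_of_eq ?_)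
      rw [intervalIntegral.integral_const_mul, integral_id, abs_of_nonneg (by nlinarith [sq_nonneg r])]
      ring
    have h8 := (hK r hr').1
    have h9 : |s r - r * s1 r| ≤ 102 * r ^ 2 := by
      have : s r - r * s1 r = (s r - s1 0 * r) - r * (s1 r - s1 0) := by ring
      rw [this]
      refine (abs_sub _ _).trans ?_
      rw [abs_mul, abs_of_pos hr.1]
      nlinarith [hr.1]
    have h10 : Lw s s1 r + 1 = (s r - r * s1 r) / s r := by
      unfold Lw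
      field_simp
      ring
    rw [h10, abs_div, abs_of_pos hsr, div_le_iff₀ hsr]
    have h11 : 102 * r ^ 2 ≤ 102 / c * r * s r := by
      have : 102 / c * r * (c * r) ≤ 102 / c * r * s r :=
        mul_le_mul_of_nonneg_left h1 (by have := hr.1; positivity)
      calc 102 * r ^ 2 = 102 / c * r * (c * r) := by field_simp
        _ ≤ _ := this
    refine h9.trans (h11.trans ?_)
    have : 102 / c ≤ max (max (102 / c) (4 * π * C ^ 2)) (max C (1 + Mf s)) :=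
      (le_max_left _ _).trans (le_max_left _ _)
    have h12 : 0 ≤ r * s r := by have := hr.1; positivity
    nlinarith
  · have h5 : s r ^ 2 ≤ (C * r) ^ 2 := pow_le_pow_left₀ hsr.le h2 2
    have : 4 * π * C ^ 2 ≤ max (max (102 / c) (4 * π * C ^ 2)) (max C (1 + Mf s)) :=
      (le_max_right _ _).trans (le_max_left _ _)
    unfold Aw
    calc 4 * π * s r ^ 2 ≤ 4 * π * (C * r) ^ 2 := by gcongr
      _ = 4 * π * C ^ 2 * r ^ 2 := by ring
      _ ≤ _ := by gcongr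
  · have : C ≤ max (max (102 / c) (4 * π * C ^ 2)) (max C (1 + Mf s)) :=
      (le_max_left _ _).trans (le_max_right _ _)
    rw [abs_of_pos (hF.Spos r hr.1)]
    refine h4.trans ?_
    have := hr.1
    gcongr
  · have h5 := hF.phiBd r hr.1
    have : 1 + Mf s ≤ max (max (102 / c) (4 * π * C ^ 2)) (max C (1 + Mf s)) :=
      (le_max_right _ _).trans (le_max_right _ _)
    rw [zero_add] at h5
    exact h5.trans (div_le_div_of_nonneg_right this hr.1.le)

/-- behaviour of `w` at infinity -/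
theorem bdiw (hE : Ext 0 0 s s1) : ∃ C, 0 < C ∧ ∀ r, 1 ≤ r →
    |Lw s s1 r| ≤ C * r ∧ |Sf s r| ≤ C := by
  have hF := Main.facts 0 0 s s1 hE
  obtain ⟨C, hC, hl⟩ := hF.logder
  refine ⟨max C (Mf s), lt_max_of_lt_left hC, fun r hr => ⟨?_, ?_⟩⟩
  · have hr0 : 0 < r := by linarith
    have hs := hE.pos r hr0
    have h1 := hl r hr
    unfold Lw
    rw [abs_neg, abs_div, abs_of_pos hs, div_le_iff₀ hs, abs_mul, abs_of_pos hr0]
    have : C ≤ max C (Mf s) := le_max_left _ _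
    nlinarith [mul_nonneg hr0.le hs.le, mul_le_mul_of_nonneg_left h1 hr0.le]
  · have hr0 : 0 < r := by linarith
    rw [abs_of_pos (hF.Spos r hr0)]
    exact (hF.Slt r hr0.le).le.trans (le_max_right _ _)

end w

/-- `q = (L - Lh)/r` -/
noncomputable def qf (s s1 Lh : ℝ → ℝ) (r : ℝ) : ℝ := (Lw s s1 r - Lh r) / r

section compare

variable {s s1 Sh Ah Lh ph rho : ℝ → ℝ} {K : Finset ℝ} {eps : ℝ}

theorem derq (hE : Ext 0 0 s s1) (hT : Trial Sh Ah Lh ph rho K eps) {r : ℝ} (hr : 0 < r) :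
    HasDerivAt (qf s s1 Lh) (qf s s1 Lh r * ((Lw s s1 r + Lh r) / r) + (phi 0 s r - ph r)) r := by
  have h := ((derLw hE hr).sub (hT.derL r hr)).div (hasDerivAt_id r) hr.ne'
  unfold qf
  refine h.congr_deriv ?_
  simp only [id, Pi.sub_apply]
  field_simp
  ring

/-- the function `F = (Ah - A) q - (Sh - S)(phi - ph)` -/
noncomputable def Ff (s s1 Sh Ah Lh ph : ℝ → ℝ) (r : ℝ) : ℝ :=
  (Ah r - Aw s r) * qf s s1 Lh r - (Sh r - Sf s r) * (phi 0 s r - ph r)

/-- its derivative -/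
noncomputable def Ff1 (s s1 Sh Ah Lh rho : ℝ → ℝ) (r : ℝ) : ℝ :=
  (Ah r + Aw s r) * qf s s1 Lh r ^ 2 + ((Sh r - Sf s r) ^ 2 + (Sh r - Sf s r) * rho r) / r ^ 2

theorem derF (hE : Ext 0 0 s s1) (hT : Trial Sh Ah Lh ph rho K eps) {r : ℝ} (hr : 0 < r)
    (hK : r ∉ K) : HasDerivAt (Ff s s1 Sh Ah Lh ph) (Ff1 s s1 Sh Ah Lh rho r) r := by
  have h1 := ((hT.derA r hr).sub (derAw hE hr)).mul (derq hE hT hr)
  have h2 := ((hT.derS r hr).sub (derSw hE hr)).mul ((derphi hE hr).sub (hT.derp r hr hK))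
  have h3 := h1.sub h2
  refine h3.congr_deriv ?_
  unfold Ff1 qf
  simp only [Pi.sub_apply]
  field_simp
  ring

theorem contF (hE : Ext 0 0 s s1) (hT : Trial Sh Ah Lh ph rho K eps) :
    ContinuousOn (Ff s s1 Sh Ah Lh ph) (Ioi 0) := by
  intro r hr
  have hr : 0 < r := hr
  have h1 : ContinuousAt (fun r => (Ah r - Aw s r) * qf s s1 Lh r) r :=
    ((hT.derA r hr).continuousAt.sub (derAw hE hr).continuousAt).mul (derq hE hT hr).continuousAt
  have h2 : ContinuousWithinAt (fun r => (Sh r - Sf s r) * (phi 0 s r - ph r)) (Ioi 0) r :=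
    ((hT.derS r hr).continuousAt.sub (derSw hE hr).continuousAt).continuousWithinAt.mul
      ((derphi hE hr).continuousAt.continuousWithinAt.sub (hT.contp r hr))
  exact h1.continuousWithinAt.sub h2

end compare

end Pool.Agent.H99.HN
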