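import Pool.Agent.H99.HN.Trial2
import Pool.Agent.H99.HN.Bar
import Pool.Agent.H62.HN.Ja

/-!
# The extremal function `w`: logarithmic derivatives and structural inequalities

`L = -r s1/s`, `Y = -r² φ`, `Sx = r S'`, `τ = M - S`, `χ = Sx/S`, `σ = Sx/τ`, `ω = τ/(r J)`,
`V = Y + r(1-S)`.
-/

namespace Pool.Agent.H99.HN

open Pool.Agent.H99.HM
open MeasureTheory Set Filter Topology Real

noncomputable def Yw (s : ℝ → ℝ) (r : ℝ) : ℝ := -(r ^ 2 * phi 0 s r)
noncomputable def Xw (s : ℝ → ℝ) (r : ℝ) : ℝ := r * Aw s r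
noncomputable def tw (s : ℝ → ℝ) (r : ℝ) : ℝ := Mf s - Sf s r
noncomputable def chw (s : ℝ → ℝ) (r : ℝ) : ℝ := Xw s r / Sf s r
noncomputable def sgw (s : ℝ → ℝ) (r : ℝ) : ℝ := Xw s r / tw s r
noncomputable def omw (s : ℝ → ℝ) (r : ℝ) : ℝ := tw s r / (r * Jf s r)
noncomputable def Vw (s : ℝ → ℝ) (r : ℝ) : ℝ := Yw s r + r * (1 - Sf s r)

variable {s s1 : ℝ → ℝ} {r : ℝ}

theorem tw_pos (hE : Ext 0 0 s s1) (hr : 0 ≤ r) : 0 < tw s r := by
  have := (Main.facts 0 0 s s1 hE).Slt r hr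
  unfold tw
  linarith

theorem Sf_pos (hE : Ext 0 0 s s1) (hr : 0 < r) : 0 < Sf s r :=
  (Main.facts 0 0 s s1 hE).Spos r hr

theorem Xw_pos (hE : Ext 0 0 s s1) (hr : 0 < r) : 0 < Xw s r := mul_pos hr (Aw_pos hE hr)

theorem Jf_pos (hE : Ext 0 0 s s1) (hr : 0 < r) : 0 < Jf s r :=
  ((Pool.Agent.H62.HN.ja s s1 hE).2.2.1 r hr).1

theorem chw_pos (hE : Ext 0 0 s s1) (hr : 0 < r) : 0 < chw s r :=
  div_pos (Xw_pos hE hr) (Sf_pos hE hr)

theorem sgw_pos (hE : Ext 0 0 s s1) (hr : 0 < r) : 0 < sgw s r :=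
  div_pos (Xw_pos hE hr) (tw_pos hE hr.le)

theorem omw_ge_one (hE : Ext 0 0 s s1) (hr : 0 < r) : 1 ≤ omw s r := by
  have h := (Pool.Agent.H62.HN.ja s s1 hE).2.2.1 r hr
  unfold omw tw
  rw [one_le_div (mul_pos hr h.1)]
  have := h.2
  rw [le_div_iff₀ hr] at this
  linarith

/-- `r² J = (M-1) r - Y` -/
theorem kap_eq (hE : Ext 0 0 s s1) (hr : 0 < r) :
    r ^ 2 * Jf s r = (Mf s - 1) * r - Yw s r := by
  obtain ⟨-, hJd, hJb, -⟩ := Pool.Agent.H62.HN.ja s s1 hE
  have hF := Main.facts 0 0 s s1 hE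
  -- f = J - (M-1)/r - φ is constant
  set f : ℝ → ℝ := fun r => Jf s r - (Mf s - 1) * r⁻¹ - phi 0 s r with hf
  have hd : ∀ r, 0 < r → HasDerivAt f 0 r := by
    intro r hr
    have h1 := ((hJd r hr).sub ((hasDerivAt_inv hr.ne').const_mul (Mf s - 1))).sub (derphi hE hr)
    refine h1.congr_deriv ?_
    field_simp
    ring
  have hlimJ : Tendsto (Jf s) atTop (𝓝 0) := by
    refine squeeze_zero' (g := fun r : ℝ => Mf s * r⁻¹) ?_ ?_ ?_
    · filter_upwards [eventually_gt_atTop 0] with r hr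
      exact (hJb r hr).1.le
    · filter_upwards [eventually_gt_atTop 0] with r hr
      refine (hJb r hr).2.trans ?_
      rw [div_eq_mul_inv]
      have := hF.Spos r hr
      exact mul_le_mul_of_nonneg_right (by linarith) (inv_nonneg.mpr hr.le)
    · simpa using tendsto_inv_atTop_zero.const_mul (Mf s)
  have hlim : Tendsto f atTop (𝓝 0) := by
    have h2 : Tendsto (fun r : ℝ => (Mf s - 1) * r⁻¹) atTop (𝓝 0) := by
      simpa using tendsto_inv_atTop_zero.const_mul (Mf s - 1)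
    simpa using (hlimJ.sub h2).sub hF.phiLim
  have hconst : ∀ b, r ≤ b → f b = f r := by
    intro b hb
    have hc : ContinuousOn f (Icc r b) := fun t ht =>
      (hd t (lt_of_lt_of_le hr ht.1)).continuousAt.continuousWithinAt
    have := constant_of_has_deriv_right_zero hc (fun t ht =>
      (hd t (lt_of_lt_of_le hr ht.1)).hasDerivWithinAt)
    exact this b ⟨hb, le_rfl⟩
  have hfr : f r = 0 := by
    refine tendsto_nhds_unique (tendsto_const_nhds (f := atTop (α := ℝ))) (hlim.congr' ?_)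
    filter_upwards [eventually_ge_atTop r] with b hb
    exact hconst b hb
  simp only [hf] at hfr
  unfold Yw
  field_simp at hfr ⊢
  linarith

theorem Vw_eq (hE : Ext 0 0 s s1) (hr : 0 < r) : Vw s r = r * tw s r - r ^ 2 * Jf s r := by
  rw [kap_eq hE hr]
  unfold Vw tw
  ring

theorem Vw_nonneg (hE : Ext 0 0 s s1) (hr : 0 < r) : 0 ≤ Vw s r := by
  rw [Vw_eq hE hr]
  have h := ((Pool.Agent.H62.HN.ja s s1 hE).2.2.1 r hr).2
  rw [le_div_iff₀ hr] at h
  unfold tw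
  nlinarith

theorem Vw_le (hE : Ext 0 0 s s1) (hr : 0 < r) : Vw s r ≤ r * tw s r := by
  rw [Vw_eq hE hr]
  have := Jf_pos hE hr
  have : 0 < r ^ 2 * Jf s r := by positivity
  linarith

/-! ### Differential equations -/

theorem dL (hE : Ext 0 0 s s1) (hr : 0 < r) : HasDerivAt (Lw s s1)
    ((Lw s s1 r ^ 2 + Lw s s1 r - Yw s r) / r) r := by
  refine (derLw hE hr).congr_deriv ?_
  unfold Yw
  ring

theorem dY (hE : Ext 0 0 s s1) (hr : 0 < r) : HasDerivAt (Yw s) ((Yw s r + Vw s r) / r) r := by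
  have h := (((hasDerivAt_id' r).fun_pow 2).fun_mul (derphi hE hr)).fun_neg
  unfold Yw
  refine h.congr_deriv ?_
  unfold Vw Yw
  push_cast
  field_simp
  ring

theorem dX (hE : Ext 0 0 s s1) (hr : 0 < r) : HasDerivAt (Xw s)
    ((1 - 2 * Lw s s1 r) * Xw s r / r) r := by
  have h := (hasDerivAt_id' r).fun_mul (derAw (s1 := s1) hE hr)
  unfold Xw
  refine h.congr_deriv ?_
  field_simp
  ring

theorem dS (hE : Ext 0 0 s s1) (hr : 0 < r) : HasDerivAt (Sf s) (Xw s r / r) r := by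
  refine (derSw hE hr).congr_deriv ?_
  unfold Xw
  field_simp

theorem dt (hE : Ext 0 0 s s1) (hr : 0 < r) : HasDerivAt (tw s) (-(Xw s r / r)) r := by
  exact (dS hE hr).const_sub (Mf s)

theorem dch (hE : Ext 0 0 s s1) (hr : 0 < r) : HasDerivAt (chw s)
    (chw s r * (1 - 2 * Lw s s1 r - chw s r) / r) r := by
  have hS := Sf_pos hE hr
  have h := (dX hE hr).fun_div (dS hE hr) hS.ne'
  unfold chw
  refine h.congr_deriv ?_
  field_simp

theorem dsg (hE : Ext 0 0 s s1) (hr : 0 < r) : HasDerivAt (sgw s)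
    (sgw s r * (1 - 2 * Lw s s1 r + sgw s r) / r) r := by
  have hS := tw_pos hE hr.le
  have h := (dX hE hr).fun_div (dt hE hr) hS.ne'
  unfold sgw
  refine h.congr_deriv ?_
  field_simp
  ring

theorem dom (hE : Ext 0 0 s s1) (hr : 0 < r) : HasDerivAt (omw s)
    (omw s r * (omw s r - 1 - sgw s r) / r) r := by
  have hS := tw_pos hE hr.le
  have hJ := Jf_pos hE hr
  have hJd := (Pool.Agent.H62.HN.ja s s1 hE).2.1 r hr
  have h := (dt hE hr).fun_div ((hasDerivAt_id' r).fun_mul hJd) (mul_pos hr hJ).ne'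
  unfold omw
  refine h.congr_deriv ?_
  unfold sgw tw
  have : Mf s - Sf s r ≠ 0 := by unfold tw at hS; exact hS.ne'
  field_simp
  ring

end Pool.Agent.H99.HN
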