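import Pool.Agent.H99.HN.Wode

/-!
# Structural inequalities for the extremal function at large radius
-/

namespace Pool.Agent.H99.HN

open Pool.Agent.H99.HM
open MeasureTheory Set Filter Topology Real

variable {s s1 : ℝ → ℝ} {r a : ℝ}

/-- a sequence along which `r S' → 0` -/
theorem seqX (hE : Ext 0 0 s s1) : ∃ T : ℕ → ℝ, (∀ n, 0 < T n) ∧ Tendsto T atTop atTop ∧
    Tendsto (fun n => Xw s (T n)) atTop (𝓝 0) := by
  obtain ⟨T, h0, hT, hl⟩ := (Main.facts 0 0 s s1 hE).seq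
  refine ⟨T, h0, hT, ?_⟩
  refine squeeze_zero (fun n => (Xw_pos hE (h0 n)).le) (fun n => ?_)
    (by simpa using hl.const_mul (4 * π))
  unfold Xw Aw
  have h1 : 0 ≤ s1 (T n) ^ 2 := sq_nonneg _
  have h2 := h0 n
  have h3 : 0 < 4 * π := by positivity
  calc T n * (4 * π * s (T n) ^ 2) = 4 * π * (T n * s (T n) ^ 2) := by ring
    _ ≤ 4 * π * (T n * (s (T n) ^ 2 + s1 (T n) ^ 2)) := by gcongr; linarith

/-- `Y > 0` persists -/
theorem Y_pos (hE : Ext 0 0 s s1) (ha : 0 < a) (hY : 0 < Yw s a) (hr : a ≤ r) : 0 < Yw s r := by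
  have hmono : MonotoneOn (fun r => Yw s r / r) (Ici a) := by
    have hd : ∀ r, a ≤ r → HasDerivAt (fun r => Yw s r / r) (Vw s r / r ^ 2) r := by
      intro r hr
      have hr0 : 0 < r := lt_of_lt_of_le ha hr
      refine ((dY hE hr0).fun_div (hasDerivAt_id' r) hr0.ne').congr_deriv ?_
      field_simp
      ring
    refine monotoneOn_of_deriv_nonneg (convex_Ici a)
      (fun r hr => (hd r hr).continuousAt.continuousWithinAt) ?_ ?_
    · intro r hr
      rw [interior_Ici] at hr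
      exact (hd r (le_of_lt hr)).differentiableAt.differentiableWithinAt
    · intro r hr
      rw [interior_Ici] at hr
      have hr' : a ≤ r := le_of_lt hr
      have hr0 : 0 < r := lt_of_lt_of_le ha hr'
      rw [(hd r hr').deriv]
      have := Vw_nonneg hE hr0
      positivity
  have h := hmono (mem_Ici.mpr le_rfl) (mem_Ici.mpr hr) hr
  have hr0 : 0 < r := lt_of_lt_of_le ha hr
  simp only at h
  have h1 : 0 < Yw s a / a := div_pos hY ha
  have h2 : 0 < Yw s r / r := lt_of_lt_of_le h1 h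
  exact (div_pos_iff_of_pos_right hr0).mp h2

/-- `L > 0` where `Y > 0` -/
theorem L_pos (hE : Ext 0 0 s s1) (ha : 0 < a) (hY : 0 < Yw s a) (hr : a ≤ r) :
    0 < Lw s s1 r := by
  have hr0 : 0 < r := lt_of_lt_of_le ha hr
  have hpos := hE.pos r hr0
  have hmono : StrictMonoOn s1 (Ici r) := by
    refine strictMonoOn_of_deriv_pos (convex_Ici r) ?_ ?_
    · exact fun t ht => (hE.der1 t (lt_of_lt_of_le hr0 ht)).continuousAt.continuousWithinAt
    · intro t ht
      rw [interior_Ici] at ht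
      have ht' : r < t := ht
      have ht0 : 0 < t := hr0.trans ht'
      rw [(hE.der1 t ht0).deriv]
      have h1 := Y_pos hE ha hY (hr.trans ht'.le)
      unfold Yw at h1
      have h2 : phi 0 s t < 0 := by
        by_contra h
        push Not at h
        have : 0 ≤ t ^ 2 * phi 0 s t := by positivity
        linarith
      have := hE.pos t ht0
      exact mul_pos (by linarith) this
  have hlim := (Main.facts 0 0 s s1 hE).s1lim
  have h1 : s1 r < 0 := by
    have h2 : s1 r < s1 (r + 1) := hmono (mem_Ici.mpr le_rfl) (mem_Ici.mpr (by linarith)) (by linarith)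
    have h3 : s1 (r + 1) ≤ 0 := by
      refine ge_of_tendsto hlim ?_
      filter_upwards [eventually_ge_atTop (r + 1)] with t ht
      rcases eq_or_lt_of_le ht with h | h
      · rw [h]
      · exact (hmono (mem_Ici.mpr (by linarith)) (mem_Ici.mpr (by linarith)) h).le
    linarith
  unfold Lw
  have : r * s1 r / s r < 0 := div_neg_of_neg_of_pos (mul_neg_of_pos_of_neg hr0 h1) hpos
  linarith

/-- backward comparison principle at infinity, weight `S'/r^(3/2)` -/
theorem cmp (hE : Ext 0 0 s s1) (ha : 1 ≤ a) {G q : ℝ → ℝ}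
    (hd : ∀ r, a ≤ r → HasDerivAt G (((2 * Lw s s1 r + 3 / 2) * G r - q r) / r) r)
    (hq : ∀ r, a ≤ r → 0 ≤ q r) {C : ℝ} (hC : ∀ r, a ≤ r → |G r| ≤ C * r ^ 2) :
    ∀ r, a ≤ r → 0 ≤ G r := by
  have ha0 : 0 < a := by linarith
  obtain ⟨T, hT0, hT, hX⟩ := seqX hE
  have hder : ∀ r, a ≤ r → HasDerivAt (fun r => G r * Aw s r / (r * √r))
      (-(q r * Aw s r / (r * √r) / r)) r := by
    intro r hr
    have hr0 : 0 < r := lt_of_lt_of_le ha0 hr
    have hs : 0 < √r := Real.sqrt_pos.mpr hr0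
    have hss : √r * √r = r := Real.mul_self_sqrt hr0.le
    have h1 := ((hd r hr).fun_mul (derAw (s1 := s1) hE hr0)).fun_div
      ((hasDerivAt_id' r).fun_mul (Real.hasDerivAt_sqrt hr0.ne')) (mul_pos hr0 hs).ne'
    refine h1.congr_deriv ?_
    have hsr : r = √r ^ 2 := by rw [sq]; exact hss.symm
    generalize √r = w at *
    subst hsr
    field_simp
    ring
  have hanti := anti_of_der hder (fun r hr => by
    have hr0 : 0 < r := lt_of_lt_of_le ha0 hr
    have := hq r hr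
    have := Aw_pos hE hr0
    have hs : 0 < √r := Real.sqrt_pos.mpr hr0
    have : 0 ≤ q r * Aw s r / (r * √r) / r := by positivity
    linarith)
  have hlim : Tendsto (fun n => G (T n) * Aw s (T n) / (T n * √(T n))) atTop (𝓝 0) := by
    refine squeeze_zero_norm' (a := fun n => C * Xw s (T n)) ?_ (by simpa using hX.const_mul C)
    filter_upwards [hT.eventually (eventually_ge_atTop a)] with n hn
    have hn0 := hT0 n
    have hn1 : 1 ≤ T n := ha.trans hn
    have hs : 0 < √(T n) := Real.sqrt_pos.mpr hn0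
    have hs1 : 1 ≤ √(T n) := Real.one_le_sqrt.mpr hn1
    have hA := Aw_pos hE hn0
    rw [Real.norm_eq_abs, abs_div, abs_mul, abs_of_pos hA,
      abs_of_pos (mul_pos hn0 hs), div_le_iff₀ (mul_pos hn0 hs)]
    have h2 := hC (T n) hn
    have hC0 : 0 ≤ C := by
      have := (abs_nonneg _).trans h2
      exact nonneg_of_mul_nonneg_left this (by positivity)
    calc |G (T n)| * Aw s (T n) ≤ C * T n ^ 2 * Aw s (T n) := by gcongr
      _ = C * (T n * Aw s (T n)) * (T n * 1) := by ring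
      _ ≤ C * Xw s (T n) * (T n * √(T n)) := by
          unfold Xw
          gcongr
  have hnn := nonneg_of_anti hanti T hT hlim
  intro r hr
  have hr0 : 0 < r := lt_of_lt_of_le ha0 hr
  have h3 := hnn r hr
  have hA := Aw_pos hE hr0
  have hs : 0 < √r := Real.sqrt_pos.mpr hr0
  by_contra hcon
  push Not at hcon
  have : G r * Aw s r / (r * √r) < 0 :=
    div_neg_of_neg_of_pos (mul_neg_of_neg_of_pos hcon hA) (mul_pos hr0 hs)
  linarith

/-- quadratic bounds for `L² + L/2 - Y` -/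
theorem F_bd (hE : Ext 0 0 s s1) : ∃ C, 0 < C ∧ ∀ r, 1 ≤ r →
    |Lw s s1 r ^ 2 + Lw s s1 r / 2 - Yw s r| ≤ C * r ^ 2 := by
  obtain ⟨C, hC, hw⟩ := bdiw hE
  have hF := Main.facts 0 0 s s1 hE
  refine ⟨C ^ 2 + C + 1 + Mf s, by have := hF.mpos; positivity, ?_⟩
  intro r hr
  have hr0 : 0 < r := by linarith
  have h1 := (hw r hr).1
  have h2 := hF.phiBd r hr0
  rw [zero_add] at h2
  have h3 : |Yw s r| ≤ (1 + Mf s) * r := by
    unfold Yw
    rw [abs_neg, abs_mul, abs_of_pos (by positivity : 0 < r ^ 2)]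
    calc r ^ 2 * |phi 0 s r| ≤ r ^ 2 * ((1 + Mf s) / r) := by gcongr
      _ = (1 + Mf s) * r := by field_simp
  have h4 : |Lw s s1 r| ^ 2 ≤ (C * r) ^ 2 := pow_le_pow_left₀ (abs_nonneg _) h1 2
  have hM := hF.mpos
  calc |Lw s s1 r ^ 2 + Lw s s1 r / 2 - Yw s r|
      ≤ |Lw s s1 r ^ 2 + Lw s s1 r / 2| + |Yw s r| := abs_sub _ _
    _ ≤ |Lw s s1 r ^ 2| + |Lw s s1 r / 2| + |Yw s r| := by gcongr; exact abs_add_le _ _
    _ ≤ (C * r) ^ 2 + C * r + (1 + Mf s) * r := by
        rw [abs_pow, abs_div, abs_two]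
        have := abs_nonneg (Lw s s1 r)
        gcongr
        linarith
    _ ≤ (C ^ 2 + C + 1 + Mf s) * r ^ 2 := by
        have h5 : r ≤ r ^ 2 := by nlinarith
        nlinarith

/-- `L_x ≥ L/2` where `Y > 0` -/
theorem Lx_ge (hE : Ext 0 0 s s1) (ha : 1 ≤ a) (hY : 0 < Yw s a) (hr : a ≤ r) :
    0 ≤ Lw s s1 r ^ 2 + Lw s s1 r / 2 - Yw s r := by
  obtain ⟨C, -, hC⟩ := F_bd hE
  refine cmp hE ha (G := fun r => Lw s s1 r ^ 2 + Lw s s1 r / 2 - Yw s r)
    (q := fun r => Lw s s1 r / 4 + Vw s r) ?_ ?_ (C := C) ?_ r hr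
  · intro r hr
    have hr0 : 0 < r := by linarith
    have h := (((dL hE hr0).fun_pow 2).fun_add ((dL hE hr0).div_const 2)).fun_sub (dY hE hr0)
    refine h.congr_deriv ?_
    push_cast
    field_simp
    ring
  · intro r hr
    have hr0 : 0 < r := by linarith
    have h1 := L_pos hE (by linarith : 0 < a) hY hr
    have h2 := Vw_nonneg hE hr0
    positivity
  · exact fun r hr => hC r (ha.trans hr)

/-- `L_x ≤ L/2 + 1/4` where `V ≤ L/4 + 3/8` -/
theorem Lx_le (hE : Ext 0 0 s s1) (ha : 1 ≤ a)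
    (hV : ∀ r, a ≤ r → Vw s r ≤ Lw s s1 r / 4 + 3 / 8) (hr : a ≤ r) :
    Lw s s1 r ^ 2 + Lw s s1 r / 2 - Yw s r ≤ 1 / 4 := by
  obtain ⟨C, hC0, hC⟩ := F_bd hE
  have := cmp hE ha (G := fun r => 1 / 4 - (Lw s s1 r ^ 2 + Lw s s1 r / 2 - Yw s r))
    (q := fun r => Lw s s1 r / 4 + 3 / 8 - Vw s r) ?_ ?_ (C := C + 1 / 4) ?_ r hr
  · linarith
  · intro r hr
    have hr0 : 0 < r := by linarith
    have h := ((((dL hE hr0).fun_pow 2).fun_add ((dL hE hr0).div_const 2)).fun_sub
      (dY hE hr0)).const_sub (1 / 4)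
    refine h.congr_deriv ?_
    push_cast
    field_simp
    ring
  · intro r hr
    have := hV r hr
    linarith
  · intro r hr
    have h1 := hC r (ha.trans hr)
    have hr1 : 1 ≤ r := ha.trans hr
    refine (abs_sub _ _).trans ?_
    rw [abs_of_pos (by norm_num : (0 : ℝ) < 1 / 4)]
    nlinarith

/-- `L` is increasing where `Y > 0` -/
theorem L_mono (hE : Ext 0 0 s s1) (ha : 1 ≤ a) (hY : 0 < Yw s a) :
    MonotoneOn (Lw s s1) (Ici a) := by
  refine monotoneOn_of_deriv_nonneg (convex_Ici a) ?_ ?_ ?_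
  · exact fun r hr => (dL hE (lt_of_lt_of_le (by linarith) hr)).continuousAt.continuousWithinAt
  · intro r hr
    rw [interior_Ici] at hr
    have hr' : a < r := hr
    exact (dL hE (by linarith)).differentiableAt.differentiableWithinAt
  · intro r hr
    rw [interior_Ici] at hr
    have hr' : a < r := hr
    have hr0 : 0 < r := by linarith
    rw [(dL hE hr0).deriv]
    have h1 := Lx_ge hE ha hY hr'.le
    have h2 := L_pos hE (by linarith) hY hr'.le
    refine div_nonneg ?_ hr0.le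
    linarith

theorem tw_lim (hE : Ext 0 0 s s1) : Tendsto (tw s) atTop (𝓝 0) := by
  have := (Main.facts 0 0 s s1 hE).Slim.const_sub (Mf s)
  rwa [sub_self] at this

/-- lower bound `2L - 1/2` for `σ` -/
theorem sg_ge (hE : Ext 0 0 s s1) (ha : 1 ≤ a)
    (hL : ∀ r, a ≤ r → 1 / 2 ≤ Lw s s1 r ∧ 0 ≤ Lw s s1 r ^ 2 + Lw s s1 r / 2 - Yw s r)
    (hr : a ≤ r) : 2 * Lw s s1 r - 1 / 2 ≤ sgw s r := by
  have ha0 : 0 < a := by linarith
  obtain ⟨T, hT0, hT, hX⟩ := seqX hE
  have hd : ∀ r, a ≤ r → HasDerivAt (fun r => Xw s r / (2 * Lw s s1 r - 1 / 2) - tw s r)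
      (Xw s r / (2 * Lw s s1 r - 1 / 2) ^ 2 * ((2 * Lw s s1 r - 1 / 2) / 2 -
        2 * (Lw s s1 r ^ 2 + Lw s s1 r - Yw s r)) / r) r := by
    intro r hr
    have hr0 : 0 < r := lt_of_lt_of_le ha0 hr
    have h0 : 2 * Lw s s1 r - 1 / 2 ≠ 0 := by have := (hL r hr).1; linarith
    have h := ((dX hE hr0).fun_div (((dL hE hr0).const_mul 2).sub_const (1 / 2)) h0).fun_sub
      (dt hE hr0)
    refine h.congr_deriv ?_
    clear h
    generalize hD : 2 * Lw s s1 r - 1 / 2 = D at *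
    have hLD : Lw s s1 r = (D + 1 / 2) / 2 := by linarith
    rw [hLD]
    field_simp
    ring
  have hanti := anti_of_der hd (fun r hr => by
    have hr0 : 0 < r := lt_of_lt_of_le ha0 hr
    obtain ⟨h1, h2⟩ := hL r hr
    have h3 := Xw_pos hE hr0
    have h4 : 0 ≤ Xw s r / (2 * Lw s s1 r - 1 / 2) ^ 2 := by positivity
    refine div_nonpos_of_nonpos_of_nonneg (mul_nonpos_of_nonneg_of_nonpos h4 ?_) hr0.le
    linarith)
  have hlim : Tendsto (fun n => Xw s (T n) / (2 * Lw s s1 (T n) - 1 / 2) - tw s (T n)) atTop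
      (𝓝 0) := by
    have h1 : Tendsto (fun n => Xw s (T n) / (2 * Lw s s1 (T n) - 1 / 2)) atTop (𝓝 0) := by
      refine squeeze_zero_norm' (a := fun n => 2 * Xw s (T n)) ?_ (by simpa using hX.const_mul 2)
      filter_upwards [hT.eventually (eventually_ge_atTop a)] with n hn
      have h2 := (hL (T n) hn).1
      have h3 := Xw_pos hE (hT0 n)
      rw [Real.norm_eq_abs, abs_of_nonneg (div_nonneg h3.le (by linarith)),
        div_le_iff₀ (by linarith)]
      nlinarith
    simpa using h1.sub ((tw_lim hE).comp hT)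
  have hnn := nonneg_of_anti hanti T hT hlim r hr
  have hr0 : 0 < r := lt_of_lt_of_le ha0 hr
  have h5 : 0 < 2 * Lw s s1 r - 1 / 2 := by have := (hL r hr).1; linarith
  unfold sgw
  rw [le_div_iff₀ (tw_pos hE hr0.le)]
  have h6 : tw s r ≤ Xw s r / (2 * Lw s s1 r - 1 / 2) := by linarith
  rw [le_div_iff₀ h5] at h6
  linarith

/-- upper bound `2L - 7/20` for `σ` -/
theorem sg_le (hE : Ext 0 0 s s1) (ha : 1 ≤ a)
    (hL : ∀ r, a ≤ r → 5 / 2 ≤ Lw s s1 r ∧ Lw s s1 r ^ 2 + Lw s s1 r / 2 - Yw s r ≤ 1 / 4)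
    (hr : a ≤ r) : sgw s r ≤ 2 * Lw s s1 r - 7 / 20 := by
  have ha0 : 0 < a := by linarith
  obtain ⟨T, hT0, hT, hX⟩ := seqX hE
  have hd : ∀ r, a ≤ r → HasDerivAt (fun r => tw s r - Xw s r / (2 * Lw s s1 r - 7 / 20))
      (-(Xw s r / (2 * Lw s s1 r - 7 / 20) ^ 2 * (13 / 20 * (2 * Lw s s1 r - 7 / 20) -
        2 * (Lw s s1 r ^ 2 + Lw s s1 r - Yw s r)) / r)) r := by
    intro r hr
    have hr0 : 0 < r := lt_of_lt_of_le ha0 hr
    have h0 : 2 * Lw s s1 r - 7 / 20 ≠ 0 := by have := (hL r hr).1; linarith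
    have h := (dt hE hr0).fun_sub ((dX hE hr0).fun_div (((dL hE hr0).const_mul 2).sub_const (7 / 20))
      h0)
    refine h.congr_deriv ?_
    clear h
    generalize hD : 2 * Lw s s1 r - 7 / 20 = D at *
    have hLD : Lw s s1 r = (D + 7 / 20) / 2 := by linarith
    rw [hLD]
    field_simp
    ring
  have hanti := anti_of_der hd (fun r hr => by
    have hr0 : 0 < r := lt_of_lt_of_le ha0 hr
    obtain ⟨h1, h2⟩ := hL r hr
    have h3 := Xw_pos hE hr0
    have h4 : 0 ≤ Xw s r / (2 * Lw s s1 r - 7 / 20) ^ 2 := by positivity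
    have h5 : 0 ≤ Xw s r / (2 * Lw s s1 r - 7 / 20) ^ 2 * (13 / 20 * (2 * Lw s s1 r - 7 / 20) -
        2 * (Lw s s1 r ^ 2 + Lw s s1 r - Yw s r)) / r :=
      div_nonneg (mul_nonneg h4 (by linarith)) hr0.le
    linarith)
  have hlim : Tendsto (fun n => tw s (T n) - Xw s (T n) / (2 * Lw s s1 (T n) - 7 / 20)) atTop
      (𝓝 0) := by
    have h1 : Tendsto (fun n => Xw s (T n) / (2 * Lw s s1 (T n) - 7 / 20)) atTop (𝓝 0) := by
      refine squeeze_zero_norm' (a := fun n => 2 * Xw s (T n)) ?_ (by simpa using hX.const_mul 2)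
      filter_upwards [hT.eventually (eventually_ge_atTop a)] with n hn
      have h2 := (hL (T n) hn).1
      have h3 := Xw_pos hE (hT0 n)
      rw [Real.norm_eq_abs, abs_of_nonneg (div_nonneg h3.le (by linarith)),
        div_le_iff₀ (by linarith)]
      nlinarith
    simpa using ((tw_lim hE).comp hT).sub h1
  have hnn := nonneg_of_anti hanti T hT hlim r hr
  have hr0 : 0 < r := lt_of_lt_of_le ha0 hr
  have h5 : 0 < 2 * Lw s s1 r - 7 / 20 := by have := (hL r hr).1; linarith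
  unfold sgw
  rw [div_le_iff₀ (tw_pos hE hr0.le)]
  have h6 : Xw s r / (2 * Lw s s1 r - 7 / 20) ≤ tw s r := by linarith
  rw [div_le_iff₀ h5] at h6
  linarith

theorem J_lim (hE : Ext 0 0 s s1) : Tendsto (Jf s) atTop (𝓝 0) := by
  have hJb := (Pool.Agent.H62.HN.ja s s1 hE).2.2.1
  refine squeeze_zero' (g := fun r : ℝ => Mf s * r⁻¹) ?_ ?_ ?_
  · filter_upwards [eventually_gt_atTop 0] with r hr
    exact (hJb r hr).1.le
  · filter_upwards [eventually_gt_atTop 0] with r hr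
    refine (hJb r hr).2.trans ?_
    rw [div_eq_mul_inv]
    have := Sf_pos hE hr
    exact mul_le_mul_of_nonneg_right (by linarith) (inv_nonneg.mpr hr.le)
  · simpa using tendsto_inv_atTop_zero.const_mul (Mf s)

/-- lower bound `σ + 1 + δ` for `ω` -/
theorem om_ge (hE : Ext 0 0 s s1) (ha : 1 ≤ a) {δ : ℝ} (hδ : 0 ≤ δ)
    (hL : ∀ r, a ≤ r → δ * (sgw s r + 1 + δ) ≤ sgw s r * (1 - 2 * Lw s s1 r + sgw s r))
    (hr : a ≤ r) : sgw s r + 1 + δ ≤ omw s r := by
  have ha0 : 0 < a := by linarith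
  have hd : ∀ r, a ≤ r → HasDerivAt (fun r => tw s r / (r * (sgw s r + 1 + δ)) - Jf s r)
      (tw s r / (r ^ 2 * (sgw s r + 1 + δ) ^ 2) * (δ * (sgw s r + 1 + δ) -
        sgw s r * (1 - 2 * Lw s s1 r + sgw s r))) r := by
    intro r hr
    have hr0 : 0 < r := lt_of_lt_of_le ha0 hr
    have hsg := sgw_pos hE hr0
    have h0 : r * (sgw s r + 1 + δ) ≠ 0 := by positivity
    have h := ((dt hE hr0).fun_div ((hasDerivAt_id' r).fun_mul
      (((dsg hE hr0).add_const 1).add_const δ)) h0).fun_sub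
      ((Pool.Agent.H62.HN.ja s s1 hE).2.1 r hr0)
    refine h.congr_deriv ?_
    have hX : Xw s r = sgw s r * tw s r := by
      unfold sgw
      rw [div_mul_cancel₀ _ (tw_pos hE hr0.le).ne']
    have ht : Mf s - Sf s r = tw s r := rfl
    rw [hX, ht]
    have h1 : sgw s r + 1 + δ ≠ 0 := by positivity
    field_simp
    ring
  have hanti := anti_of_der hd (fun r hr => by
    have hr0 : 0 < r := lt_of_lt_of_le ha0 hr
    have h1 := hL r hr
    have hsg := sgw_pos hE hr0
    have h3 := tw_pos hE hr0.le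
    have h4 : 0 ≤ tw s r / (r ^ 2 * (sgw s r + 1 + δ) ^ 2) := by positivity
    exact mul_nonpos_of_nonneg_of_nonpos h4 (by linarith))
  have hlim : Tendsto (fun r => tw s r / (r * (sgw s r + 1 + δ)) - Jf s r) atTop (𝓝 0) := by
    have h1 : Tendsto (fun r => tw s r / (r * (sgw s r + 1 + δ))) atTop (𝓝 0) := by
      refine squeeze_zero_norm' (a := fun r => tw s r) ?_ (tw_lim hE)
      filter_upwards [eventually_ge_atTop a] with r hr
      have hr0 : 0 < r := lt_of_lt_of_le ha0 hr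
      have hsg := sgw_pos hE hr0
      have h3 := tw_pos hE hr0.le
      rw [Real.norm_eq_abs, abs_of_nonneg (by positivity), div_le_iff₀ (by positivity)]
      have hr1 : 1 ≤ r := ha.trans hr
      have : 1 ≤ r * (sgw s r + 1 + δ) := by nlinarith
      nlinarith
    simpa using h1.sub (J_lim hE)
  have hnn := nonneg_of_anti hanti (fun n : ℕ => (n : ℝ)) tendsto_natCast_atTop_atTop
    (hlim.comp tendsto_natCast_atTop_atTop) r hr
  have hr0 : 0 < r := lt_of_lt_of_le ha0 hr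
  have hsg := sgw_pos hE hr0
  have hJ := Jf_pos hE hr0
  unfold omw
  rw [le_div_iff₀ (mul_pos hr0 hJ)]
  have h6 : Jf s r ≤ tw s r / (r * (sgw s r + 1 + δ)) := by linarith
  rw [le_div_iff₀ (by positivity)] at h6
  linarith

/-- upper bound `σ + 1 + δ` for `ω` -/
theorem om_le (hE : Ext 0 0 s s1) (ha : 1 ≤ a) {δ : ℝ} (hδ : 0 ≤ δ)
    (hL : ∀ r, a ≤ r → sgw s r * (1 - 2 * Lw s s1 r + sgw s r) ≤ δ * (sgw s r + 1 + δ))
    (hr : a ≤ r) : omw s r ≤ sgw s r + 1 + δ := by
  have ha0 : 0 < a := by linarith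
  have hd : ∀ r, a ≤ r → HasDerivAt (fun r => Jf s r - tw s r / (r * (sgw s r + 1 + δ)))
      (-(tw s r / (r ^ 2 * (sgw s r + 1 + δ) ^ 2) * (δ * (sgw s r + 1 + δ) -
        sgw s r * (1 - 2 * Lw s s1 r + sgw s r)))) r := by
    intro r hr
    have hr0 : 0 < r := lt_of_lt_of_le ha0 hr
    have hsg := sgw_pos hE hr0
    have h0 : r * (sgw s r + 1 + δ) ≠ 0 := by positivity
    have h := ((Pool.Agent.H62.HN.ja s s1 hE).2.1 r hr0).fun_sub
      ((dt hE hr0).fun_div ((hasDerivAt_id' r).fun_mul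
      (((dsg hE hr0).add_const 1).add_const δ)) h0)
    refine h.congr_deriv ?_
    have hX : Xw s r = sgw s r * tw s r := by
      unfold sgw
      rw [div_mul_cancel₀ _ (tw_pos hE hr0.le).ne']
    have ht : Mf s - Sf s r = tw s r := rfl
    rw [hX, ht]
    have h1 : sgw s r + 1 + δ ≠ 0 := by positivity
    field_simp
    ring
  have hanti := anti_of_der hd (fun r hr => by
    have hr0 : 0 < r := lt_of_lt_of_le ha0 hr
    have h1 := hL r hr
    have hsg := sgw_pos hE hr0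
    have h3 := tw_pos hE hr0.le
    have h4 : 0 ≤ tw s r / (r ^ 2 * (sgw s r + 1 + δ) ^ 2) := by positivity
    have := mul_nonneg h4 (by linarith : 0 ≤ δ * (sgw s r + 1 + δ) -
        sgw s r * (1 - 2 * Lw s s1 r + sgw s r))
    linarith)
  have hlim : Tendsto (fun r => Jf s r - tw s r / (r * (sgw s r + 1 + δ))) atTop (𝓝 0) := by
    have h1 : Tendsto (fun r => tw s r / (r * (sgw s r + 1 + δ))) atTop (𝓝 0) := by
      refine squeeze_zero_norm' (a := fun r => tw s r) ?_ (tw_lim hE)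
      filter_upwards [eventually_ge_atTop a] with r hr
      have hr0 : 0 < r := lt_of_lt_of_le ha0 hr
      have hsg := sgw_pos hE hr0
      have h3 := tw_pos hE hr0.le
      rw [Real.norm_eq_abs, abs_of_nonneg (by positivity), div_le_iff₀ (by positivity)]
      have hr1 : 1 ≤ r := ha.trans hr
      have : 1 ≤ r * (sgw s r + 1 + δ) := by nlinarith
      nlinarith
    simpa using (J_lim hE).sub h1
  have hnn := nonneg_of_anti hanti (fun n : ℕ => (n : ℝ)) tendsto_natCast_atTop_atTop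
    (hlim.comp tendsto_natCast_atTop_atTop) r hr
  have hr0 : 0 < r := lt_of_lt_of_le ha0 hr
  have hsg := sgw_pos hE hr0
  have hJ := Jf_pos hE hr0
  unfold omw
  rw [div_le_iff₀ (mul_pos hr0 hJ)]
  have h6 : tw s r / (r * (sgw s r + 1 + δ)) ≤ Jf s r := by linarith
  rw [div_le_iff₀ (by positivity)] at h6
  linarith

end Pool.Agent.H99.HN
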